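import Pool.Agent.P.MP_4a4b50_gt.Lam.Iface

set_option autoImplicit false

/-! Step TOUCH. -/

namespace Pool.Agent.P.MP_4a4b50_gt.Lam

open scoped ContDiff Topology
open Pool.Agent.P.MP_f97e06_gt (Eu)
open Matrix Set Filter Pool.Agent.P.MP_4a4b50_gt.CE

theorem touch_hom {n : ℕ} {d : Eu n → ℝ} (hd : Hom1 d) {z : Eu n} (hz : z ≠ 0) :
    d z = ‖z‖ * d (nz z) := by
  have h0 : 0 < ‖z‖ := norm_pos_iff.2 hz
  rw [← hd _ h0, nz, smul_smul, mul_inv_cancel₀ h0.ne', one_smul]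

theorem touch_psd {n : ℕ} {g : Eu n → ℝ} {u : Eu n} (hg : ContDiffAt ℝ 2 g u) (h0 : g u = 0)
    (hn : ∀ᶠ z in 𝓝 u, 0 ≤ g z) : (hessM g u).PosSemidef := by
  refine PosSemidef.of_dotProduct_mulVec_nonneg ?_ fun v => ?_
  · rw [IsHermitian, conjTranspose_eq_transpose_of_trivial, hessM_symm hg]
  · have a1 := hessM_form g u (WithLp.toLp 2 v) (WithLp.toLp 2 v)
    have ht : Tendsto (fun r : ℝ => u + r • (WithLp.toLp 2 v : Eu n)) (𝓝 0) (𝓝 u) := by
      have : Continuous fun r : ℝ => u + r • (WithLp.toLp 2 v : Eu n) := by fun_prop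
      simpa using this.tendsto 0
    have a2 := line_test hg (WithLp.toLp 2 v) (b := 0) (p₁ := 0) (p₂ := 0) (p₃ := 0)
      ((ht.eventually hn).mono fun r hr => by simpa [h0] using hr)
    simp only [star_trivial]
    rw [a1]
    simpa using a2

theorem p_TOUCH (hROBP : S_ROBP) (hROB : S_ROB) :
    S_TOUCH := by
  intro n G φ f C W hP hB htr
  have hf2 : ∀ x : Eu n, ‖x‖ = 1 → ContDiffAt ℝ 2 f x := fun x hx =>
    (hP.h_at (ne_zero_of_unit hx)).of_le two_le_infty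
  have hW2 : ∀ i, ∀ u ∈ C, ContDiffAt ℝ 2 (W i) u := fun i u hu =>
    (hB.smooth i).contDiffAt (hP.isOpen.mem_nhds (hB.sub u hu).2)
  have hWc : ∀ i, ContinuousOn (W i) C := fun i u hu => (hW2 i u hu).continuousAt.continuousWithinAt
  obtain ⟨δ₀, hδ₀, H₀⟩ := hROBP n (Eu n) (Metric.sphere 0 1) (hatM f) (isCompact_sphere 0 1)
    (fun x hx => (continuousAt_hatM (hf2 x (by simpa using hx))).continuousWithinAt)
    (fun x hx => hP.h_pos x (by simpa using hx))
  have HR : ∀ i, ∃ δ : ℝ, 0 < δ ∧ ∀ p ∈ Act C W i, ∀ E F : Mat n, (∀ i j, |E i j| ≤ δ) →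
      (∀ i j, |F i j| ≤ δ) →
      0 < (((hatM f p + E)⁻¹ + (hatM f (-p))⁻¹) * (hessM (W i) p + F)).trace := by
    intro i
    refine hROB n (Eu n) (Act C W i) (hatM f) (fun p => hatM f (-p)) (hessM (W i))
      (act_compact hB.cpt hWc i)
      (fun x hx => (continuousAt_hatM (hf2 x (hB.sub x hx.1).1)).continuousWithinAt)
      (fun x hx => ?_)
      (fun x hx => (continuousAt_hessM (hW2 i x hx.1)).continuousWithinAt)
      (fun x hx => ⟨hP.h_pos x (hB.sub x hx.1).1,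
        hP.h_pos (-x) (by rw [norm_neg]; exact (hB.sub x hx.1).1), htr i x hx⟩)
    have h1 : ContinuousAt (hatM f) (-x) :=
      continuousAt_hatM (hf2 (-x) (by rw [norm_neg]; exact (hB.sub x hx.1).1))
    exact (ContinuousAt.comp (f := fun p : Eu n => -p) h1 continuous_neg.continuousAt).continuousWithinAt
  choose δ hδ HR using HR
  refine ⟨min δ₀ (min (δ true) (δ false)), lt_min hδ₀ (lt_min (hδ _) (hδ _)), ?_⟩
  intro d hd hd1 _ hsm hsup
  have hle : ∀ i, min δ₀ (min (δ true) (δ false)) ≤ δ i := by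
    intro i
    cases i
    · exact (min_le_right _ _).trans (min_le_right _ _)
    · exact (min_le_right _ _).trans (min_le_left _ _)
  have hd2 : ∀ x : Eu n, ‖x‖ = 1 → ContDiffAt ℝ 2 d x := fun x hx =>
    hd.contDiffAt (isOpen_compl_singleton.mem_nhds (ne_zero_of_unit hx))
  have hdp : ∀ u ∈ C, 0 < d u := fun u hu => (hsup u (hB.sub u hu).1 (hB.sub u hu).2).1
  obtain ⟨u₀, hu₀, i₀, hi₀⟩ := hB.pos
  have hmc : ContinuousOn (fun z => max (W true z) (W false z) / d z) C :=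
    ContinuousOn.div (ContinuousOn.sup (hWc true) (hWc false))
      (fun x hx => (hd2 x (hB.sub x hx).1).continuousAt.continuousWithinAt)
      fun x hx => (hdp x hx).ne'
  obtain ⟨u, hu, hmax⟩ := hB.cpt.exists_isMaxOn ⟨u₀, hu₀⟩ hmc
  have hlm : ∀ j z, W j z ≤ max (W true z) (W false z) := by
    intro j z
    cases j
    · exact le_max_right _ _
    · exact le_max_left _ _
  obtain ⟨i, hi⟩ : ∃ i, W i u = max (W true u) (W false u) := by
    rcases max_choice (W true u) (W false u) with h | h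
    · exact ⟨true, h.symm⟩
    · exact ⟨false, h.symm⟩
  have hcmp : ∀ j, ∀ z ∈ C, W j z / d z ≤ W i u / d u := by
    intro j z hz
    rw [hi]
    exact (div_le_div_of_nonneg_right (hlm j z) (hdp z hz).le).trans (hmax hz)
  have hdu := hdp u hu
  have hWu : 0 < W i u := by
    have h1 := (div_pos hi₀ (hdp u₀ hu₀)).trans_le (hcmp i₀ u₀ hu₀)
    exact (div_pos_iff_of_pos_right hdu).1 h1
  have hact : u ∈ Act C W i := ⟨hu, hWu.le, fun j => hi ▸ hlm j u⟩
  obtain ⟨hu1, huφ⟩ := hB.sub u hu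
  set s := d u / W i u with hs
  have hs0 : 0 < s := div_pos hdu hWu
  have hC : ∀ z ∈ C, 0 ≤ 1 * d z + (-s) * W i z := by
    intro z hz
    have h1 := hcmp i z hz
    rw [div_le_div_iff₀ (hdp z hz) hdu] at h1
    have h2 : s * W i z ≤ d z := by
      rw [hs, div_mul_eq_mul_div, div_le_iff₀ hWu]
      linarith
    linarith
  have hnear : ∀ᶠ z in 𝓝 u, 0 ≤ 1 * d z + (-s) * W i z := by
    have h1 : Tendsto (nz : Eu n → Eu n) (𝓝 u) (𝓝 u) := by
      have := (contDiffAt_nz (k := 0) (ne_zero_of_unit hu1)).continuousAt.tendsto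
      rwa [nz_unit hu1] at this
    filter_upwards [h1.eventually (hB.inner u hu i hWu.le),
      isOpen_ne.mem_nhds (ne_zero_of_unit hu1)] with z hz hz0
    have h2 := hC _ (hz (norm_nz hz0))
    rw [touch_hom hd1 hz0, touch_hom (hB.hom i) hz0]
    have := mul_nonneg (norm_nonneg z) h2
    linarith
  have hpsd := touch_psd (g := fun z => 1 * d z + (-s) * W i z)
    ((contDiffAt_const.mul (hd2 u hu1)).add (contDiffAt_const.mul (hW2 i u hu)))
    (by rw [hs]; field_simp; ring) hnear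
  rw [hessM_lin (hd2 u hu1) (hW2 i u hu)] at hpsd
  have hXD : (hatM f u + hessM d u).PosDef := H₀ u (by simpa using hu1) _ (hessM_symm (hd2 u hu1))
    fun a b => (hsm u hu1 a b).trans (min_le_left _ _)
  have hYD : (hatM f (-u) - hessM d u).PosDef := by
    rw [sub_eq_add_neg]
    refine H₀ (-u) (by simpa using hu1) _ (by rw [transpose_neg, hessM_symm (hd2 u hu1)])
      fun a b => ?_
    rw [Matrix.neg_apply, abs_neg]
    exact (hsm u hu1 a b).trans (min_le_left _ _)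
  have hY : (hatM f (-u)).PosDef := hP.h_pos (-u) (by rw [norm_neg]; exact hu1)
  have h1 := Eop_neg (hP.h_pos u hu1) hY hXD hYD (hsup u hu1 huφ).2
  have h2 := trace_inv_mul_nonneg hXD hpsd
  have h3 := trace_inv_mul_nonneg hY hpsd
  have h4 := HR i u hact (hessM d u) 0 (fun a b => (hsm u hu1 a b).trans (hle i))
    (fun a b => by simpa using (hδ i).le)
  simp only [add_zero, Matrix.add_mul, Matrix.mul_add, Matrix.mul_smul, trace_add, trace_smul,
    smul_eq_mul, one_mul] at h2 h3 h4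
  nlinarith [mul_pos hs0 h4]

end Pool.Agent.P.MP_4a4b50_gt.Lam

/-! Step OSC. -/

namespace Pool.Agent.P.MP_4a4b50_gt.Lam

open scoped ContDiff Topology
open Pool.Agent.P.MP_f97e06_gt (Eu)
open Matrix Set Filter Pool.Agent.P.MP_4a4b50_gt.CE

theorem osc_bd {x y a b : ℝ} (hx : |x| ≤ a) (hy : |y| ≤ b) : |x * y| ≤ a * b := by
  rw [abs_mul]
  exact mul_le_mul hx hy (abs_nonneg _) ((abs_nonneg _).trans hx)

theorem osc_hess {n : ℕ} {B S : Eu n → ℝ} {L : ℝ → ℝ} {ε : ℝ} {u : Eu n} (hε : ε ≠ 0)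
    (hB : ContDiffAt ℝ 2 B u) (hS : ContDiffAt ℝ 2 S u) (hL : ContDiff ℝ 2 L) (i j : Fin n) :
    hessM (osc B S L ε) u i j - B u * deriv (deriv L) (S u / ε) * (gr S u i * gr S u j) =
      ε * (deriv L (S u / ε) * (gr B u i * gr S u j + gr B u j * gr S u i + B u * hessM S u i j)
        + ε * (L (S u / ε) * hessM B u i j)) := by
  have jB := Jet.of hB (EuclideanSpace.single i 1) (EuclideanSpace.single j 1)
  have jS := Jet.of hS (EuclideanSpace.single i 1) (EuclideanSpace.single j 1)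
  have j1 := (jS.const_mul ε⁻¹).comp (Θ := L) hL.contDiffAt
  have j2 := (jB.mul j1).const_mul (ε ^ 2)
  have e : osc B S L ε = fun y => ε ^ 2 * (B y * L (ε⁻¹ * S y)) := by
    funext y
    simp only [osc, div_eq_inv_mul]
  have h3 := j2.dd
  rw [← e] at h3
  simp only [hessM, Matrix.of_apply, gr]
  rw [h3, div_eq_inv_mul]
  generalize deriv (deriv L) (ε⁻¹ * S u) = p2
  generalize deriv L (ε⁻¹ * S u) = p1
  generalize L (ε⁻¹ * S u) = p0
  field_simp
  ring

theorem p_OSC :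
    S_OSC := by
  intro n T U B S M δ hT hU hTU hB hS hδ
  have cB : ∀ u ∈ T, ContDiffAt ℝ 2 B u := fun u hu => hB.contDiffAt (hU.mem_nhds (hTU hu))
  have cS : ∀ u ∈ T, ContDiffAt ℝ 2 S u := fun u hu => hS.contDiffAt (hU.mem_nhds (hTU hu))
  let F : Eu n → ℝ × (Fin n → ℝ) × (Fin n → ℝ) × (Fin n → Fin n → ℝ) × (Fin n → Fin n → ℝ) :=
    fun u => (B u, gr B u, gr S u, fun i j => hessM B u i j, fun i j => hessM S u i j)
  have cF : ContinuousOn F T := fun u hu =>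
    ((cB u hu).continuousAt.prodMk ((continuousAt_gr (cB u hu)).prodMk
      ((continuousAt_gr (cS u hu)).prodMk ((continuousAt_hessM (cB u hu)).prodMk
        (continuousAt_hessM (cS u hu)))))).continuousWithinAt
  obtain ⟨R0, hR0⟩ := hT.exists_bound_of_continuousOn cF
  set R := |R0| with hRdef
  have hR : 0 ≤ R := abs_nonneg _
  have hb : ∀ u ∈ T, |B u| ≤ R ∧ (∀ i, |gr B u i| ≤ R) ∧ (∀ i, |gr S u i| ≤ R) ∧
      (∀ i j, |hessM B u i j| ≤ R) ∧ ∀ i j, |hessM S u i j| ≤ R := by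
    intro u hu
    have h := (hR0 u hu).trans (le_abs_self R0)
    simp only [F, Prod.norm_def, max_le_iff, pi_norm_le_iff_of_nonneg hR, Real.norm_eq_abs,
      ← hRdef] at h
    exact h
  set Q := (|M| + 1) * (3 * R ^ 2 + R + 1) with hQ
  have hQ0 : 0 < Q := by positivity
  refine ⟨min 1 (δ / Q), lt_min one_pos (div_pos hδ hQ0), ?_⟩
  intro ε hε hle L hL hM u hu
  have e1 : ε ≤ 1 := hle.trans (min_le_left _ _)
  have e2 : ε * Q ≤ δ := (le_div_iff₀ hQ0).1 (hle.trans (min_le_right _ _))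
  obtain ⟨b0, b1, b2, b3, b4⟩ := hb u hu
  have m0 : |L (S u / ε)| ≤ |M| := (hM _).1.trans (le_abs_self M)
  have m1 : |deriv L (S u / ε)| ≤ |M| := (hM _).2.trans (le_abs_self M)
  have hM0 : 0 ≤ |M| := abs_nonneg M
  have hεa : |ε| ≤ ε := (abs_of_pos hε).le
  have hεb : |ε| ≤ 1 := hεa.trans e1
  have hMR : 0 ≤ |M| * R := mul_nonneg hM0 hR
  have hMR2 : 0 ≤ |M| * R ^ 2 := by positivity
  refine ⟨?_, fun i j => ?_⟩
  · have h1 : |osc B S L ε u| ≤ ε * (1 * (R * |M|)) := by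
      have : osc B S L ε u = ε * (ε * (B u * L (S u / ε))) := by
        unfold osc
        ring
      rw [this]
      exact osc_bd hεa (osc_bd hεb (osc_bd b0 m0))
    refine h1.trans (le_trans (mul_le_mul_of_nonneg_left ?_ hε.le) e2)
    rw [hQ]
    nlinarith [sq_nonneg R]
  · rw [osc_hess hε.ne' (cB u hu) (cS u hu) hL]
    have h1 := osc_bd m1 ((abs_add_le _ _).trans (add_le_add ((abs_add_le _ _).trans
      (add_le_add (osc_bd (b1 i) (b2 j)) (osc_bd (b1 j) (b2 i)))) (osc_bd b0 (b4 i j))))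
    have h2 := osc_bd hεb (osc_bd m0 (b3 i j))
    have h3 := osc_bd hεa ((abs_add_le _ _).trans (add_le_add h1 h2))
    refine h3.trans (le_trans (mul_le_mul_of_nonneg_left ?_ hε.le) e2)
    rw [hQ]
    nlinarith [sq_nonneg R]

end Pool.Agent.P.MP_4a4b50_gt.Lam

/-! Step AMP. -/

namespace Pool.Agent.P.MP_4a4b50_gt.Lam

open scoped ContDiff Topology
open Pool.Agent.P.MP_f97e06_gt (Eu)
open Matrix Set Filter Pool.Agent.P.MP_4a4b50_gt.CE

theorem amp_rho {a₀ : ℝ} (h : 0 < a₀) : ∃ ρ : ℝ → ℝ, ContDiff ℝ ∞ ρ ∧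
    (∀ a, 0 ≤ a → 0 ≤ ρ a ∧ ρ a * a ≤ 1) ∧ ∀ a, a₀ ≤ a → ρ a * a = 1 := by
  have hs : ContDiff ℝ ∞ fun a : ℝ => Real.smoothTransition (2 * a / a₀ - 1) :=
    Real.smoothTransition.contDiff.comp
      (((contDiff_const.mul contDiff_id).div_const _).sub contDiff_const)
  refine ⟨fun a => Real.smoothTransition (2 * a / a₀ - 1) / a, ?_, fun a ha => ⟨?_, ?_⟩,
    fun a ha => ?_⟩
  · refine contDiff_iff_contDiffAt.2 fun a => ?_
    by_cases h0 : a = 0
    · refine (contDiffAt_const (c := (0 : ℝ))).congr_of_eventuallyEq ?_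
      filter_upwards [Iio_mem_nhds (show a < a₀ / 2 by rw [h0]; positivity)] with s hs
      rw [Real.smoothTransition.zero_of_nonpos, zero_div]
      rw [sub_nonpos, div_le_one h]
      linarith [mem_Iio.1 hs]
    · exact hs.contDiffAt.div contDiffAt_id h0
  · exact div_nonneg (Real.smoothTransition.nonneg _) ha
  · rcases ha.eq_or_lt with rfl | ha
    · simp
    · rw [div_mul_cancel₀ _ ha.ne']
      exact Real.smoothTransition.le_one _
  · rw [div_mul_cancel₀ _ (h.trans_le ha).ne']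
    refine Real.smoothTransition.one_of_one_le ?_
    rw [le_sub_iff_add_le, le_div_iff₀ h]
    linarith

theorem p_AMP (hDIR : S_DIR) (hPAIR : S_PAIR) :
    S_AMP := by
  intro n G φ h S K hP hS hK hu
  have hA := hPAIR n G φ h S S (-1) (-1) hP hS hS (by norm_num)
  have e1 : ∀ u, ‖u‖ = 1 → pair h S S u = gr S u ⬝ᵥ (hatM h u)⁻¹ *ᵥ gr S u := by
    intro u h1
    rw [pair, nz_unit h1, ← gr_dot, dir]
  have e2 : ∀ u ∈ K, 0 < pair h S S u := by
    intro u h1
    obtain ⟨a1, -, a3⟩ := hu u h1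
    rw [pair, nz_unit a1]
    refine (hDIR n h S u (hP.h_pos u a1)).2.2.2.1 fun h0 => a3 ?_
    have : gr S u = 0 := by
      ext i
      simp [gr, h0]
    rw [dir, this, mulVec_zero]
    rfl
  obtain ⟨c₀, hc, hc'⟩ := hK.exists_forall_le' hP.om_smooth.continuous.continuousOn
    fun u h1 => (hu u h1).2.1
  obtain ⟨a₀, ha, ha'⟩ := hK.exists_forall_le'
    (hA.smooth.continuousOn.mono fun u h1 => (hu u h1).2.1) e2
  obtain ⟨ρ, r1, r2, r3⟩ := amp_rho ha
  have z : ∀ y, φ (nz y) ≤ c₀ / 2 → Real.smoothTransition (2 * φ (nz y) / c₀ - 1) = 0 := by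
    intro y hy
    refine Real.smoothTransition.zero_of_nonpos ?_
    rw [sub_nonpos, div_le_one hc]
    linarith
  refine ⟨c₀ / 2, fun y => ‖y‖ * Real.smoothTransition (2 * φ (nz y) / c₀ - 1) * ρ (pair h S S y),
    ⟨by positivity, fun y hy => ?_, fun t ht y => ?_, fun g hg y => ?_, fun y hy => ?_,
      fun u h1 h2 => ?_⟩, fun u h1 => ?_⟩
  · have h0 := hP.ne_zero hy
    refine (((contDiffAt_norm ℝ h0).mul ?_).contDiffWithinAt).mul
      (r1.contDiffAt.comp_contDiffWithinAt y (hA.smooth y hy))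
    exact Real.smoothTransition.contDiffAt.comp y (((contDiffAt_const.mul
      (hP.om_smooth.contDiffAt.comp y (contDiffAt_nz h0))).div_const _).sub contDiffAt_const)
  · simp only [nz_smul ht, hA.hom t ht, norm_smul, Real.norm_of_nonneg ht.le]
    ring
  · have e3 : φ (nz (g y)) = φ (nz y) := by rw [nz_iso, hP.om_inv g hg]
    simp only [e3, g.norm_map]
    by_cases hy : y ∈ Om φ
    · rw [hA.sgn g hg y hy]
      simp
    · have h3 : φ y ≤ 0 := not_lt.1 hy
      by_cases h0 : y = 0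
      · simp [h0]
      · have h4 : φ (nz y) ≤ c₀ / 2 := by
          have h5 : 0 < ‖y‖⁻¹ := inv_pos.2 (norm_pos_iff.2 h0)
          rw [nz, hP.om_hom _ h5]
          exact (mul_nonpos_of_nonneg_of_nonpos (by positivity) h3).trans (by positivity)
        simp [z y h4]
  · simp [z y hy]
  · have h3 : 0 ≤ pair h S S u := by
      rw [e1 u h1]
      exact cm_nonneg (hP.h_pos u h1).inv.posSemidef _
    obtain ⟨h4, h5⟩ := r2 _ h3
    have h6 := Real.smoothTransition.nonneg (2 * φ (nz u) / c₀ - 1)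
    have h7 := Real.smoothTransition.le_one (2 * φ (nz u) / c₀ - 1)
    rw [← e1 u h1, h1, one_mul, mul_assoc]
    exact ⟨mul_nonneg h6 h4, mul_le_one₀ h7 (mul_nonneg h4 h3) h5⟩
  · have h2 := (hu u h1).1
    have h3 : Real.smoothTransition (2 * φ (nz u) / c₀ - 1) = 1 := by
      refine Real.smoothTransition.one_of_one_le ?_
      rw [le_sub_iff_add_le, le_div_iff₀ hc, nz_unit h2]
      linarith [hc' u h1]
    rw [← e1 u h2]
    simp only [h2, h3, one_mul]
    exact r3 _ (ha' u h1)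

end Pool.Agent.P.MP_4a4b50_gt.Lam

/-! Step LAMF. -/

namespace Pool.Agent.P.MP_4a4b50_gt.Lam

open scoped ContDiff Topology
open Pool.Agent.P.MP_f97e06_gt (Eu)
open Matrix Set Filter Pool.Agent.P.MP_4a4b50_gt.CE

section aux
variable {n : ℕ} {G : Set (Iso n)} {φ h S B : Eu n → ℝ} {c : ℝ}

theorem lamf_ev (hP : Pre G φ h) (hA : Amp G φ h S c B) (L : ℝ → ℝ) (ε : ℝ) {y : Eu n}
    (hy : y ≠ 0) (hc : φ (nz y) < c) : (fun z => h z + osc B S L ε z) =ᶠ[𝓝 y] h := by
  have h1 : ContinuousAt (fun z => φ (nz z)) y :=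
    hP.om_smooth.continuous.continuousAt.comp (contDiffAt_nz (k := 0) hy).continuousAt
  filter_upwards [h1.eventually (gt_mem_nhds hc)] with z hz
  simp [osc, hA.zero z (le_of_lt hz)]

theorem lamf_nonpos (hP : Pre G φ h) {y : Eu n} (hy : φ y ≤ 0) : φ (nz y) ≤ 0 := by
  by_cases h0 : y = 0
  · subst h0
    simpa [nz] using hy
  · have hp : 0 < ‖y‖⁻¹ := inv_pos.2 (norm_pos_iff.2 h0)
    rw [nz, hP.om_hom _ hp]
    exact mul_nonpos_of_nonneg_of_nonpos (by positivity) hy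

theorem lamf_mem (hP : Pre G φ h) (hA : Amp G φ h S c B) {y : Eu n} (hc : c ≤ φ (nz y)) :
    y ∈ Om φ := by
  by_contra hn
  have h1 : φ y ≤ 0 := not_lt.1 hn
  have h2 := lamf_nonpos hP h1
  have h3 := hA.c_pos
  linarith

theorem lamf_osc_at (hP : Pre G φ h) (hS : Phase G φ (-1) S) (hA : Amp G φ h S c B) {L : ℝ → ℝ}
    (hL : ContDiff ℝ ∞ L) (ε : ℝ) {y : Eu n} (hy : y ∈ Om φ) :
    ContDiffAt ℝ ∞ (osc B S L ε) y := by
  have h1 : ContDiffAt ℝ ∞ B y := hA.smooth.contDiffAt (hP.isOpen.mem_nhds hy)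
  have h2 : ContDiffAt ℝ ∞ S y := hS.smooth.contDiffAt (hP.isOpen.mem_nhds hy)
  have h3 : ContDiffAt ℝ ∞ (fun z => L (S z / ε)) y :=
    hL.contDiffAt.comp y (h2.div_const ε)
  exact contDiffAt_const.mul (h1.mul h3)

theorem lamf_hat_congr {f g : Eu n → ℝ} {u : Eu n} (hfg : f =ᶠ[𝓝 u] g) : hatM f u = hatM g u := by
  have h1 : D2 f u = D2 g u := (hfg.fderiv (𝕜 := ℝ)).fderiv_eq (𝕜 := ℝ)
  simp only [hatM, hessM, h1]

end aux

theorem p_LAMF (hROBP : S_ROBP) (hALG : S_ALG) (hOSC : S_OSC) :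
    S_LAMF := by
  intro n G φ h S B c η K δ l M L X hP hS hA hQ
  set T0 : Set (Eu n) := {u | ‖u‖ = 1 ∧ c ≤ φ u} with hT0
  have hT0c : IsCompact T0 := by
    have e : T0 = Metric.sphere (0 : Eu n) 1 ∩ {u | c ≤ φ u} := by
      ext u
      simp [hT0]
    rw [e]
    exact (isCompact_sphere _ _).inter_right (isClosed_le continuous_const hP.om_smooth.continuous)
  have hT0m : T0 ⊆ Om φ := fun u hu => lt_of_lt_of_le hA.c_pos hu.2
  have hBat : ∀ u ∈ Om φ, ContDiffAt ℝ 2 B u := fun u hu =>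
    (hA.smooth.contDiffAt (hP.isOpen.mem_nhds hu)).of_le two_le_infty
  have hSat : ∀ u ∈ Om φ, ContDiffAt ℝ 2 S u := fun u hu =>
    (hS.smooth.contDiffAt (hP.isOpen.mem_nhds hu)).of_le two_le_infty
  have hcont : ContinuousOn (fun p : Eu n × ℝ =>
      hatM h p.1 + (B p.1 * p.2) • vecMulVec (gr S p.1) (gr S p.1)) (T0 ×ˢ Icc (l - 1) M) := by
    intro p hp
    have hp1 : p.1 ∈ Om φ := hT0m hp.1
    have c1 : ContinuousAt (fun q : Eu n × ℝ => hatM h q.1) p :=
      (continuousAt_hatM ((hP.h_at (hP.ne_zero hp1)).of_le two_le_infty)).comp continuousAt_fst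
    have c2 : ContinuousAt (fun q : Eu n × ℝ => B q.1) p :=
      (hBat _ hp1).continuousAt.comp continuousAt_fst
    have c3 : ContinuousAt (fun q : Eu n × ℝ => gr S q.1) p :=
      (continuousAt_gr (hSat _ hp1)).comp continuousAt_fst
    have c4 : ContinuousAt (fun q : Eu n × ℝ => vecMulVec (gr S q.1) (gr S q.1)) p :=
      continuousAt_pi.2 fun i => continuousAt_pi.2 fun j =>
        (continuousAt_pi.1 c3 i).mul (continuousAt_pi.1 c3 j)
    exact (c1.add ((c2.mul continuousAt_snd).smul c4)).continuousWithinAt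
  obtain ⟨δ₀, hδ₀, hrob⟩ := hROBP n (Eu n × ℝ) (T0 ×ˢ Icc (l - 1) M) _
    (hT0c.prod isCompact_Icc) hcont (by
      intro p hp
      have hb := hA.bd p.1 hp.1.1 (hT0m hp.1)
      have hl := hQ.l_pos
      have h1 : -1 < p.2 := by
        have := hp.2.1
        linarith
      exact (hALG n (hatM h p.1) (gr S p.1) (B p.1) p.2 (hP.h_pos _ hp.1.1) h1).1 hb.1 hb.2)
  obtain ⟨ε₀, hε₀, hosc⟩ := hOSC n T0 (Om φ) B S M δ₀ hT0c hP.isOpen hT0m
    (hA.smooth.of_le two_le_infty) (hS.smooth.of_le two_le_infty) hδ₀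
  refine ⟨ε₀, hε₀, fun ε hε hεle => ⟨?_, ?_⟩⟩
  · refine ⟨hP.nofix, hP.om_smooth, hP.om_odd, hP.om_inv, hP.om_zero, hP.om_hom, ?_, ?_, ?_, ?_⟩
    · intro y hy
      have hy0 : y ≠ 0 := hy
      by_cases hc : φ (nz y) < c
      · exact ((hP.h_at hy0).congr_of_eventuallyEq (lamf_ev hP hA L ε hy0 hc)).contDiffWithinAt
      · exact ((hP.h_at hy0).add
          (lamf_osc_at hP hS hA hQ.L_smooth ε (lamf_mem hP hA (not_lt.1 hc)))).contDiffWithinAt
    · intro t ht x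
      simp only [osc, hP.h_hom t ht x, hA.hom t ht x, hS.hom t ht x]
      ring
    · intro g hg x
      simp only [osc, hP.h_inv g hg x, hA.inv g hg x]
      by_cases hx : x ∈ Om φ
      · rw [hS.sgn g hg x hx, neg_one_mul, neg_div, hQ.L_even]
      · have h1 : φ x ≤ 0 := not_lt.1 hx
        have h2 : B x = 0 := hA.zero x ((lamf_nonpos hP h1).trans hA.c_pos.le)
        simp [h2]
    · intro x hx
      have hx0 : x ≠ 0 := ne_zero_of_unit hx
      by_cases hc : φ x < c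
      · rw [lamf_hat_congr (lamf_ev hP hA L ε hx0 (by rwa [nz_unit hx]))]
        exact hP.h_pos x hx
      · have hxT : x ∈ T0 := ⟨hx, not_lt.1 hc⟩
        have hxm := hT0m hxT
        have ho2 : ContDiffAt ℝ 2 (osc B S L ε) x :=
          (lamf_osc_at hP hS hA hQ.L_smooth ε hxm).of_le two_le_infty
        have hh2 : ContDiffAt ℝ 2 h x := (hP.h_at hx0).of_le two_le_infty
        set a := deriv (deriv L) (S x / ε) with ha
        have haI : a ∈ Icc (l - 1) M :=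
          ⟨by have := hQ.lower (S x / ε); linarith, (le_abs_self _).trans (hQ.L_bd _).2.2⟩
        have hE := (hosc ε hε hεle L (hQ.L_smooth.of_le two_le_infty)
          (fun s => ⟨(hQ.L_bd s).1, (hQ.L_bd s).2.1⟩) x hxT).2
        have key := hrob (x, a) ⟨hxT, haI⟩
          (hessM (osc B S L ε) x - (B x * a) • vecMulVec (gr S x) (gr S x))
          (by rw [transpose_sub, transpose_smul, transpose_vecMulVec, hessM_symm ho2])
          (fun i j => by simpa [vecMulVec_apply] using hE i j)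
        have e1 : hessM (fun y => h y + osc B S L ε y) x = hessM h x + hessM (osc B S L ε) x := by
          simpa using hessM_lin hh2 ho2 1 1
        have e2 : hatM (fun y => h y + osc B S L ε y) x =
            hatM h x + (B x * a) • vecMulVec (gr S x) (gr S x) +
              (hessM (osc B S L ε) x - (B x * a) • vecMulVec (gr S x) (gr S x)) := by
          simp only [hatM, e1]
          abel
        rw [e2]
        exact key
  · intro u hu hφ
    refine lamf_hat_congr (lamf_ev hP hA L ε (ne_zero_of_unit hu) ?_)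
    rw [nz_unit hu]
    exact hφ.trans hA.c_pos

end Pool.Agent.P.MP_4a4b50_gt.Lam

/-! Step LAMC. -/

namespace Pool.Agent.P.MP_4a4b50_gt.Lam

open scoped ContDiff Topology
open Pool.Agent.P.MP_f97e06_gt (Eu)
open Matrix Set Filter Pool.Agent.P.MP_4a4b50_gt.CE

theorem lamc_up {P : Type} [TopologicalSpace P] [CompactSpace P] {f : P → ℝ}
    (hf : Continuous f) : ∃ C, 0 < C ∧ ∀ p, f p ≤ C := by
  obtain ⟨C, hC⟩ := (isCompact_range hf).bddAbove
  exact ⟨max C 1, lt_max_of_lt_right one_pos,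
    fun p => (hC ⟨p, rfl⟩).trans (le_max_left _ _)⟩

theorem lamc_low {P : Type} [TopologicalSpace P] [CompactSpace P] {f : P → ℝ}
    (hf : Continuous f) (h : ∀ p, 0 < f p) : ∃ m, 0 < m ∧ ∀ p, m ≤ f p := by
  obtain ⟨m, hm, h1⟩ := isCompact_univ.exists_forall_le' hf.continuousOn fun p _ => h p
  exact ⟨m, hm, fun p => h1 p (mem_univ p)⟩

theorem lamc_num {P : Type} [TopologicalSpace P] [CompactSpace P] {c0 w al be : P → ℝ}
    (h0 : Continuous c0) (h1 : Continuous w) (h2 : Continuous al) (h3 : Continuous be)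
    (hw : ∀ p, 0 < w p) (hal : ∀ p, 0 ≤ al p) (hbe : ∀ p, 0 < be p) :
    ∃ η K δ : ℝ, 0 < η ∧ 0 < K ∧ 0 < δ ∧ ∀ p, ∀ lam c : ℝ, 0 < lam → -η ≤ c →
      (lam ≤ δ ∨ K ≤ c) → 0 < c0 p + (lam⁻¹ - 1) * w p + c * (lam⁻¹ * al p + be p) := by
  obtain ⟨C, hC, hC'⟩ := lamc_up (((h0.neg.max h1).max h2).max h3)
  obtain ⟨m, hm, hm'⟩ := lamc_low (h1.min h3) fun p => lt_min (hw p) (hbe p)
  simp only [max_le_iff, le_min_iff, Pi.neg_apply] at hC' hm'
  have hη : 0 < m / (2 * C) := by positivity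
  have e : m / (2 * C) * C = m / 2 := by field_simp
  refine ⟨m / (2 * C), (2 * C + 1) / m, m / (2 * (2 * C + m / 2 + 1)), hη, by positivity,
    by positivity, fun p lam c hl hc hor => ?_⟩
  obtain ⟨⟨⟨a0, a1⟩, a2⟩, a3⟩ := hC' p
  obtain ⟨b1, b2⟩ := hm' p
  have hi : 0 < lam⁻¹ := inv_pos.2 hl
  have c1 := hal p
  have c2 : 0 ≤ lam⁻¹ * al p := by positivity
  rcases hor with h | h
  · have d1 : 2 * C + m / 2 + 1 ≤ lam⁻¹ * (m / 2) := by
      rw [le_inv_mul_iff₀ hl]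
      rw [le_div_iff₀ (by positivity)] at h
      linarith
    have d2 : -(m / (2 * C)) * (lam⁻¹ * al p + be p) ≤ c * (lam⁻¹ * al p + be p) :=
      mul_le_mul_of_nonneg_right hc (by linarith)
    have d3 : m / (2 * C) * al p ≤ m / 2 := e ▸ mul_le_mul_of_nonneg_left a2 hη.le
    have d4 : m / (2 * C) * be p ≤ m / 2 := e ▸ mul_le_mul_of_nonneg_left a3 hη.le
    have d5 := mul_le_mul_of_nonneg_left d3 hi.le
    have d6 := mul_le_mul_of_nonneg_left b1 hi.le
    nlinarith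
  · rw [div_le_iff₀ hm] at h
    have d0 : 0 ≤ c := by
      by_contra h4
      nlinarith
    have d1 := mul_le_mul_of_nonneg_left b2 d0
    have d2 := mul_nonneg d0 c2
    have d3 := mul_pos hi (hw p)
    nlinarith

theorem lamc_inv {n : ℕ} {P : Type} [TopologicalSpace P] {X : P → Mat n} (hX : Continuous X)
    (h : ∀ p, (X p).PosDef) : Continuous fun p => (X p)⁻¹ :=
  continuous_iff_continuousAt.2 fun p => (continuousAt_matrix_inv _ (by
    rw [Ring.inverse_eq_inv']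
    exact continuousAt_inv₀ (h p).det_pos.ne')).comp hX.continuousAt

theorem lamc_main (hROB : S_ROB) (hALG : S_ALG) {n : ℕ} {P : Type} [TopologicalSpace P]
    [CompactSpace P] {X Y W : P → Mat n} {ξ : P → Fin n → ℝ} {B : P → ℝ} (hX : Continuous X)
    (hY : Continuous Y) (hW : Continuous W) (hξ : Continuous ξ) (hB : Continuous B)
    (H : ∀ p, (X p).PosDef ∧ (Y p).PosDef ∧ B p * (ξ p ⬝ᵥ (X p)⁻¹ *ᵥ ξ p) = 1 ∧
      0 < ((X p)⁻¹ *ᵥ ξ p) ⬝ᵥ W p *ᵥ ((X p)⁻¹ *ᵥ ξ p)) :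
    ∃ η K δ : ℝ, 0 < η ∧ 0 < K ∧ 0 < δ ∧ ∀ l M : ℝ, 0 < l → ∃ δ' : ℝ, 0 < δ' ∧
      ∀ p, ∀ a c : ℝ, l ≤ 1 + a → |a| ≤ M → -η ≤ c → |c| ≤ M → (1 + a ≤ δ ∨ K ≤ c) →
        ∀ E F : Mat n, (∀ i j, |E i j| ≤ δ') → (∀ i j, |F i j| ≤ δ') →
          0 < (((X p + (B p * a) • vecMulVec (ξ p) (ξ p) + E)⁻¹ + (Y p)⁻¹) *
            (W p + c • vecMulVec (ξ p) (ξ p) + F)).trace := by
  have iX := lamc_inv hX fun p => (H p).1
  have iY := lamc_inv hY fun p => (H p).2.1
  have hal : ∀ p, 0 ≤ ξ p ⬝ᵥ (X p)⁻¹ *ᵥ ξ p := fun p => cm_nonneg (H p).1.inv.posSemidef _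
  have hBp : ∀ p, 0 < B p := fun p => by
    have h1 := (H p).2.2.1
    have h2 := hal p
    by_contra h
    nlinarith
  have hξ0 : ∀ p, ξ p ≠ 0 := fun p h => by
    have := (H p).2.2.1
    rw [h] at this
    simp at this
  have hx : Continuous fun p => (X p)⁻¹ *ᵥ ξ p := iX.matrix_mulVec hξ
  have k0 : Continuous fun p => (((X p)⁻¹ + (Y p)⁻¹) * W p).trace :=
    ((iX.add iY).matrix_mul hW).matrix_trace
  have k1 : Continuous fun p => B p * (((X p)⁻¹ *ᵥ ξ p) ⬝ᵥ W p *ᵥ ((X p)⁻¹ *ᵥ ξ p)) :=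
    hB.mul (hx.dotProduct (hW.matrix_mulVec hx))
  have k2 : Continuous fun p => ξ p ⬝ᵥ (X p)⁻¹ *ᵥ ξ p := hξ.dotProduct hx
  have k3 : Continuous fun p => ξ p ⬝ᵥ (Y p)⁻¹ *ᵥ ξ p := hξ.dotProduct (iY.matrix_mulVec hξ)
  obtain ⟨η, K, δ, hη, hK, hδ, hn⟩ := lamc_num k0 k1 k2 k3
    (fun p => mul_pos (hBp p) (H p).2.2.2) hal fun p => cm_pos (H p).2.1.inv (hξ0 p)
  refine ⟨η, K, δ, hη, hK, hδ, fun l M hl => ?_⟩
  have hS : IsCompact {q : P × ℝ × ℝ | l ≤ 1 + q.2.1 ∧ |q.2.1| ≤ M ∧ -η ≤ q.2.2 ∧ |q.2.2| ≤ M ∧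
      (1 + q.2.1 ≤ δ ∨ K ≤ q.2.2)} := by
    refine (isCompact_univ.prod ((isCompact_Icc (a := -M) (b := M)).prod
      (isCompact_Icc (a := -M) (b := M)))).of_isClosed_subset ?_
      fun q hq => ⟨mem_univ _, abs_le.1 hq.2.1, abs_le.1 hq.2.2.2.1⟩
    have c1 : Continuous fun q : P × ℝ × ℝ => q.2.1 := by fun_prop
    have c2 : Continuous fun q : P × ℝ × ℝ => q.2.2 := by fun_prop
    have c3 : Continuous fun q : P × ℝ × ℝ => 1 + q.2.1 := by fun_prop
    exact IsClosed.and (isClosed_le continuous_const c3)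
      (IsClosed.and (isClosed_le c1.abs continuous_const)
      (IsClosed.and (isClosed_le continuous_const c2)
      (IsClosed.and (isClosed_le c2.abs continuous_const)
      ((isClosed_le c3 continuous_const).union (isClosed_le continuous_const c2)))))
  have hv : Continuous fun q : P × ℝ × ℝ => vecMulVec (ξ q.1) (ξ q.1) :=
    (hξ.matrix_vecMulVec hξ).comp continuous_fst
  have m1 : Continuous fun q : P × ℝ × ℝ =>
      X q.1 + (B q.1 * q.2.1) • vecMulVec (ξ q.1) (ξ q.1) :=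
    (hX.comp continuous_fst).add (((hB.comp continuous_fst).mul continuous_snd.fst).smul hv)
  have m2 : Continuous fun q : P × ℝ × ℝ => Y q.1 := hY.comp continuous_fst
  have m3 : Continuous fun q : P × ℝ × ℝ => W q.1 + q.2.2 • vecMulVec (ξ q.1) (ξ q.1) :=
    (hW.comp continuous_fst).add (continuous_snd.snd.smul hv)
  obtain ⟨δ', h1, h2⟩ := hROB n (P × ℝ × ℝ) _ _ _ _ hS m1.continuousOn m2.continuousOn
    m3.continuousOn (by
      rintro ⟨p, a, c⟩ ⟨q1, -, q3, -, q5⟩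
      dsimp only at q1 q3 q5 ⊢
      obtain ⟨g1, g2⟩ := hALG n (X p) (ξ p) (B p) a (H p).1 (by linarith)
      refine ⟨g1 (hBp p).le (H p).2.2.1.le, (H p).2.1, ?_⟩
      rw [g2 (H p).2.2.1, mul_assoc]
      exact hn p (1 + a) c (by linarith) q3 q5)
  exact ⟨δ', h1, fun p a c q1 q2 q3 q4 q5 => h2 (p, a, c) ⟨q1, q2, q3, q4, q5⟩⟩

theorem p_LAMC (hROB : S_ROB) (hALG : S_ALG) :
    S_LAMC := by
  intro n T X Y W ξ B hT hX hY hW hξ hB H
  have : CompactSpace T := isCompact_iff_compactSpace.1 hT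
  obtain ⟨η, K, δ, hη, hK, hδ, h⟩ := lamc_main hROB hALG hX.domRestrict hY.domRestrict
    hW.domRestrict hξ.domRestrict hB.domRestrict fun p => H p.1 p.2
  refine ⟨η, K, δ, hη, hK, hδ, fun l M hl => ?_⟩
  obtain ⟨δ', h1, h2⟩ := h l M hl
  exact ⟨δ', h1, fun p hp => h2 ⟨p, hp⟩⟩

end Pool.Agent.P.MP_4a4b50_gt.Lam
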