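import Pool.Agent.P.MP_4a4b50_gt.Lam.Iface
import Pool.Agent.P.MP_4a4b50_gt.CBody

set_option autoImplicit false

/-! Step LAM. -/

namespace Pool.Agent.P.MP_4a4b50_gt.Lam

open scoped ContDiff Topology
open Pool.Agent.P.MP_f97e06_gt (Eu)
open Matrix Set Filter Pool.Agent.P.MP_4a4b50_gt.CE

theorem lam_osc_cd {n : ℕ} {B S : Eu n → ℝ} {L : ℝ → ℝ} (ε : ℝ) {u : Eu n}
    (hB : ContDiffAt ℝ 2 B u) (hS : ContDiffAt ℝ 2 S u) (hL : ContDiff ℝ 2 L) :
    ContDiffAt ℝ 2 (osc B S L ε) u :=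
  contDiffAt_const.mul (hB.mul (hL.contDiffAt.comp u (hS.div_const ε)))

theorem lam_hess_add {n : ℕ} {f g : Eu n → ℝ} {u : Eu n} (hf : ContDiffAt ℝ 2 f u)
    (hg : ContDiffAt ℝ 2 g u) : hessM (fun y => f y + g y) u = hessM f u + hessM g u := by
  simpa using hessM_lin hf hg 1 1

theorem lam_min_le (x : Bool → ℝ) (i : Bool) : min (x true) (x false) ≤ x i := by
  cases i
  · exact min_le_right _ _
  · exact min_le_left _ _

theorem lam_le_max (x : Bool → ℝ) (i : Bool) : x i ≤ max (x true) (x false) := by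
  cases i
  · exact le_max_right _ _
  · exact le_max_left _ _

theorem p_LAM (hPROF : S_PROF) (hTOUCH : S_TOUCH) (hOSC : S_OSC) (hAMP : S_AMP) (hLAMF : S_LAMF) (hLAMC : S_LAMC) :
    S_LAM := by
  intro n G φ h S C W hP hS hB hD
  have hCO : C ⊆ Om φ := fun u hu => (hB.sub u hu).2
  have hh2 : ∀ x : Eu n, ‖x‖ = 1 → ContDiffAt ℝ 2 h x := fun x hx =>
    (hP.h_at (ne_zero_of_unit hx)).of_le two_le_infty
  have hat : ∀ {g : Eu n → ℝ}, ContDiffOn ℝ 2 g (Om φ) → ∀ u ∈ Om φ, ContDiffAt ℝ 2 g u :=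
    fun hg u hu => hg.contDiffAt (hP.isOpen.mem_nhds hu)
  have hW2 : ∀ i, ∀ u ∈ C, ContDiffAt ℝ 2 (W i) u := fun i u hu => hat (hB.smooth i) u (hCO hu)
  have hWc : ∀ i, ContinuousOn (W i) C := fun i u hu => (hW2 i u hu).continuousAt.continuousWithinAt
  have hS2 : ContDiffOn ℝ 2 S (Om φ) := hS.smooth.of_le two_le_infty
  have hN2 : ContDiffOn ℝ 2 (fun y : Eu n => ‖y‖) (Om φ) := fun u hu =>
    (contDiffAt_norm ℝ (hP.ne_zero hu)).contDiffWithinAt
  have hKs : ∀ i, ∀ u ∈ Act C W i, ‖u‖ = 1 ∧ 0 < φ u ∧ dir h S u ≠ 0 := by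
    intro i u hu
    refine ⟨(hB.sub u hu.1).1, (hB.sub u hu.1).2, fun h0 => ?_⟩
    have := hD i u hu
    rw [h0] at this
    simp at this
  obtain ⟨c, B, hA, hB1⟩ := hAMP n G φ h S (Act C W true ∪ Act C W false) hP hS
    ((act_compact hB.cpt hWc true).union (act_compact hB.cpt hWc false))
    (fun u hu => hu.elim (hKs true u) (hKs false u))
  have hB2 : ContDiffOn ℝ 2 B (Om φ) := hA.smooth.of_le two_le_infty
  have hmem : ∀ i, ∀ u ∈ Act C W i, u ∈ Act C W true ∪ Act C W false := by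
    intro i u hu
    cases i
    · exact Or.inr hu
    · exact Or.inl hu
  have HC := fun i => hLAMC n (Act C W i) (hatM h) (fun p => hatM h (-p)) (hessM (W i)) (gr S) B
    (act_compact hB.cpt hWc i)
    (fun x hx => (continuousAt_hatM (hh2 x (hB.sub x hx.1).1)).continuousWithinAt)
    (fun x hx => (ContinuousAt.comp (f := fun p : Eu n => -p)
      (continuousAt_hatM (hh2 (-x) (by rw [norm_neg]; exact (hB.sub x hx.1).1)))
      continuous_neg.continuousAt).continuousWithinAt)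
    (fun x hx => (continuousAt_hessM (hW2 i x hx.1)).continuousWithinAt)
    (fun x hx => (continuousAt_gr (hat hS2 x (hCO hx.1))).continuousWithinAt)
    (fun x hx => (hat hB2 x (hCO hx.1)).continuousAt.continuousWithinAt)
    (fun x hx => ⟨hP.h_pos x (hB.sub x hx.1).1,
      hP.h_pos (-x) (by rw [norm_neg]; exact (hB.sub x hx.1).1), hB1 x (hmem i x hx),
      (hD i x hx).trans_eq (hessM_form (W i) x (dir h S x) (dir h S x)).symm⟩)
  choose η K δ hη hK hδ HC using HC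
  obtain ⟨l, M, L, X, hF⟩ := hPROF (min (η true) (η false)) (max (K true) (K false))
    (min (δ true) (δ false)) (lt_min (hη _) (hη _)) (lt_max_of_lt_left (hK _))
    (lt_min (hδ _) (hδ _))
  choose δ' hδ' HC using fun i => HC i l M hF.l_pos
  obtain ⟨u₀, hu₀, i₀, hi₀⟩ := hB.pos
  set ρ := min (min (δ' true) (δ' false)) (W i₀ u₀ / 2) with hρ
  have hρ0 : 0 < ρ := lt_min (lt_min (hδ' _) (hδ' _)) (half_pos hi₀)
  have hρi : ∀ i, ρ ≤ δ' i := fun i => (min_le_left _ _).trans (lam_min_le δ' i)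
  have hL2 : ContDiff ℝ 2 L := hF.L_smooth.of_le two_le_infty
  have hX2 : ContDiff ℝ 2 X := hF.X_smooth.of_le two_le_infty
  obtain ⟨ε₁, hε₁, H₁⟩ := hLAMF n G φ h S B c _ _ _ l M L X hP hS hA hF
  obtain ⟨ε₂, hε₂, H₂⟩ := hOSC n C (Om φ) B S M ρ hB.cpt hP.isOpen hCO hB2 hS2 hρ0
  obtain ⟨ε₃, hε₃, H₃⟩ := hOSC n C (Om φ) (fun y => ‖y‖) S M ρ hB.cpt hP.isOpen hCO hN2 hS2 hρ0
  set ε := min ε₁ (min ε₂ ε₃) with hε
  have hε0 : 0 < ε := lt_min hε₁ (lt_min hε₂ hε₃)
  obtain ⟨hPf, hneg⟩ := H₁ ε hε0 (min_le_left _ _)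
  have H₂' := H₂ ε hε0 ((min_le_right _ _).trans (min_le_left _ _)) L hL2
    fun s => ⟨(hF.L_bd s).1, (hF.L_bd s).2.1⟩
  have H₃' := H₃ ε hε0 ((min_le_right _ _).trans (min_le_right _ _)) X hX2
    fun s => ⟨(hF.X_bd s).1, (hF.X_bd s).2.1⟩
  have hnp : ∀ y, osc (fun y => ‖y‖) S X ε y ≤ 0 := fun y =>
    mul_nonpos_of_nonneg_of_nonpos (sq_nonneg _)
      (mul_nonpos_of_nonneg_of_nonpos (norm_nonneg _) (hF.X_nonpos _))
  have hO2 : ∀ u ∈ Om φ, ContDiffAt ℝ 2 (osc (fun y => ‖y‖) S X ε) u := fun u hu =>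
    lam_osc_cd ε (hat hN2 u hu) (hat hS2 u hu) hX2
  have hBV : Bar φ C fun i y => W i y + osc (fun y => ‖y‖) S X ε y := by
    refine ⟨hB.cpt, hB.sub, fun i => (hB.smooth i).add fun u hu => (hO2 u hu).contDiffWithinAt,
      fun i t ht x => ?_, ⟨u₀, hu₀, i₀, ?_⟩, fun u hu i hi => hB.inner u hu i ?_⟩
    · simp only [osc]
      rw [hB.hom i t ht, hS.hom t ht, norm_smul, Real.norm_of_nonneg ht.le]
      ring
    · have h1 := (abs_le.1 (H₃' u₀ hu₀).1).1
      have h2 : ρ ≤ W i₀ u₀ / 2 := min_le_right _ _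
      linarith
    · have := hnp u
      linarith
  have hsub := hTOUCH n G φ _ C _ hPf hBV ?_
  · exact ⟨_, hPf.nofix, hPf.om_smooth, hPf.om_odd, hPf.om_inv, hPf.om_zero,
      ⟨u₀, hB.sub u₀ hu₀⟩, hPf.h_smooth, hPf.h_hom, hPf.h_inv, hPf.h_pos, hsub⟩
  intro i u hu
  obtain ⟨huC, hu0, hum⟩ := hu
  obtain ⟨hu1, huφ⟩ := hB.sub u huC
  have hact : u ∈ Act C W i := ⟨huC, by have := hnp u; linarith, fun j => by
    have := hum j; linarith⟩
  have e1 : hatM (fun y => h y + osc B S L ε y) u = hatM h u +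
      (B u * deriv (deriv L) (S u / ε)) • vecMulVec (gr S u) (gr S u) +
      (hessM (osc B S L ε) u -
        (B u * deriv (deriv L) (S u / ε)) • vecMulVec (gr S u) (gr S u)) := by
    rw [hatM, hatM, lam_hess_add (hh2 u hu1)
      (lam_osc_cd ε (hat hB2 u huφ) (hat hS2 u huφ) hL2)]
    abel
  have e2 := hneg (-u) (by rw [norm_neg]; exact hu1) (by rw [hP.om_odd]; linarith)
  have e3 : hessM (fun y => W i y + osc (fun y => ‖y‖) S X ε y) u = hessM (W i) u +
      deriv (deriv X) (S u / ε) • vecMulVec (gr S u) (gr S u) +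
      (hessM (osc (fun y => ‖y‖) S X ε) u -
        deriv (deriv X) (S u / ε) • vecMulVec (gr S u) (gr S u)) := by
    rw [lam_hess_add (hW2 i u huC) (hO2 u huφ)]
    abel
  rw [e1, e2, e3]
  refine HC i u hact _ _ (hF.lower _) (hF.L_bd _).2.2
    ((neg_le_neg (lam_min_le η i)).trans (hF.X_lower _)) (hF.X_bd _).2.2
    ((hF.alt _).imp (fun h1 => h1.trans (lam_min_le δ i)) fun h1 => (lam_le_max K i).trans h1)
    _ _ (fun a b => ?_) fun a b => ?_
  · exact ((H₂' u huC).2 a b).trans (hρi i)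
  · have := ((H₃' u huC).2 a b).trans (hρi i)
    simp only [hu1, one_mul] at this
    exact this

end Pool.Agent.P.MP_4a4b50_gt.Lam

/-! Step BANDA. -/

namespace Pool.Agent.P.MP_4a4b50_gt.Lam

open scoped ContDiff Topology
open Pool.Agent.P.MP_f97e06_gt (Eu)
open Matrix Set Filter Pool.Agent.P.MP_4a4b50_gt.CE

theorem banda_cos (s : ℝ) : |1 - Real.cos s| ≤ |s| := by
  have := Real.abs_cos_sub_cos_le 0 s
  simpa using this

theorem banda_fderiv {n : ℕ} {a b c : Eu n → ℝ} {u : Eu n} {t k : ℝ} (hk : k ≠ 0)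
    (ha : DifferentiableAt ℝ a u) (hb : DifferentiableAt ℝ b u) (hc : DifferentiableAt ℝ c u) :
    fderiv ℝ (fun y => b y + k * Real.sin ((a y - t) / k) * c y) u =
      fderiv ℝ b u + (Real.cos ((a u - t) / k) * c u) • fderiv ℝ a u +
        (k * Real.sin ((a u - t) / k)) • fderiv ℝ c u := by
  have h1 : HasFDerivAt (fun y => (a y - t) / k) (k⁻¹ • fderiv ℝ a u) u := by
    have := (ha.hasFDerivAt.sub_const t).const_mul k⁻¹
    refine this.congr_of_eventuallyEq (Eventually.of_forall fun y => ?_)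
    simp only [div_eq_inv_mul]
  have h2 := hb.hasFDerivAt.add ((h1.sin.const_mul k).mul hc.hasFDerivAt)
  have h3 : fderiv ℝ (fun y => b y + k * Real.sin ((a y - t) / k) * c y) u = _ := h2.fderiv
  rw [h3]
  ext x
  simp only [_root_.add_apply, _root_.smul_apply, smul_eq_mul]
  field_simp
  ring

theorem p_BANDA (hDIR : S_DIR) (hPAIR : S_PAIR) :
    S_BANDA := by
  intro n G φ h a b t₀ t C W hP ha hb hB hda h1 h2
  have hq := hPAIR n G φ h a a 1 1 hP ha ha (by norm_num)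
  have hr := hPAIR n G φ h a b 1 (-1) hP ha hb (by norm_num)
  have hO := hP.isOpen
  have hq0 : ∀ y ∈ Om φ, 0 < pair h a a y := fun y hy =>
    (hDIR n h a (nz y) (hP.h_pos _ (norm_nz (hP.ne_zero hy)))).2.2.2.1 (hda _ (hP.nz_mem hy))
  set b0 : Eu n → ℝ := fun y => -pair h a b y / pair h a a y with hb0
  have h0 : Phase G φ (-1) b0 :=
    ⟨hr.smooth.neg.div hq.smooth fun y hy => (hq0 y hy).ne',
      fun s hs y => by simp only [hb0, hr.hom s hs y, hq.hom s hs y],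
      fun g hg y hy => by
        simp only [hb0, hr.sgn g hg y hy, hq.sgn g hg y hy]
        ring⟩
  have hat : ∀ {σ : ℝ} {f : Eu n → ℝ}, Phase G φ σ f → ∀ u ∈ C, ContDiffAt ℝ ∞ f u :=
    fun hf u hu => hf.smooth.contDiffAt (hO.mem_nhds (hB.sub u hu).2)
  have hdir : ∀ {σ : ℝ} {f : Eu n → ℝ}, Phase G φ σ f → ∀ u ∈ C, ContinuousAt (dir h f) u :=
    fun {σ f} hf u hu => ((hDIR n h f u (hP.h_pos u (hB.sub u hu).1)).2.2.2.2.1
      (hP.h_at (ne_zero_of_unit (hB.sub u hu).1)) (hat hf u hu)).continuousAt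
  have hW : ∀ i, ∀ u ∈ C, ContDiffAt ℝ 2 (W i) u := fun i u hu =>
    (hB.smooth i).contDiffAt (hO.mem_nhds (hB.sub u hu).2)
  obtain ⟨R0, hR0⟩ := hB.cpt.exists_bound_of_continuousOn (f := b0)
    fun u hu => (hat h0 u hu).continuousAt.continuousWithinAt
  obtain ⟨R1, hR1⟩ := hB.cpt.exists_bound_of_continuousOn (f := pair h a b)
    fun u hu => (hat hr u hu).continuousAt.continuousWithinAt
  obtain ⟨R2, hR2⟩ := hB.cpt.exists_bound_of_continuousOn
    (f := fun u => fderiv ℝ a u (dir h b0 u)) fun u hu =>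
      ((continuousAt_fderiv' ((hat ha u hu).of_le two_le_infty)).clm_apply
        (hdir h0 u hu)).continuousWithinAt
  have hev : ∀ i, ∀ᶠ p in 𝓝 (0 : ℝ), ∀ z ∈ Act C W i ×ˢ Icc (-R0) R0,
      0 < D2 (W i) z.1 (dir h b z.1 + z.2 • dir h a z.1 + p • dir h b0 z.1)
        (dir h b z.1 + z.2 • dir h a z.1 + p • dir h b0 z.1) := by
    intro i
    refine ((act_compact hB.cpt (fun j u hu =>
      (hW j u hu).continuousAt.continuousWithinAt) i).prod
        isCompact_Icc).eventually_forall_of_forall_eventually fun z hz => ?_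
    have hu : z.1 ∈ C := hz.1.1
    have c1 : ContinuousAt (fun w : ℝ × (Eu n × ℝ) => w.2.1) (0, z) := by fun_prop
    have c2 : ContinuousAt (fun w : ℝ × (Eu n × ℝ) =>
        dir h b w.2.1 + w.2.2 • dir h a w.2.1 + w.1 • dir h b0 w.2.1) (0, z) :=
      (((hdir hb _ hu).comp_of_eq c1 rfl).add
        ((by fun_prop : ContinuousAt (fun w : ℝ × (Eu n × ℝ) => w.2.2) (0, z)).smul
          ((hdir ha _ hu).comp_of_eq c1 rfl))).add
        (continuousAt_fst.smul ((hdir h0 _ hu).comp_of_eq c1 rfl))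
    have c3 := (((continuousAt_D2 (hW i _ hu)).comp_of_eq c1 rfl).clm_apply c2).clm_apply c2
    refine c3.eventually (lt_mem_nhds ?_)
    simpa using h1 i z.1 hz.1 z.2
  obtain ⟨ε, hε, hεp⟩ := Metric.eventually_nhds_iff.1 (eventually_all.2 hev)
  set k := ε / 2 with hk
  have hk0 : 0 < k := by positivity
  have hS : ∀ u ∈ C, dir h (fun y => b y + k * Real.sin ((a y - t) / k) * b0 y) u =
      dir h b u + (Real.cos ((a u - t) / k) * b0 u) • dir h a u +
        (k * Real.sin ((a u - t) / k)) • dir h b0 u := fun u hu =>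
    (hDIR n h _ u (hP.h_pos u (hB.sub u hu).1)).2.2.2.2.2 b a b0 _ _
      (banda_fderiv hk0.ne' ((hat ha u hu).differentiableAt (by simp))
        ((hat hb u hu).differentiableAt (by simp)) ((hat h0 u hu).differentiableAt (by simp)))
  have hru : ∀ u ∈ C, fderiv ℝ a u (dir h b u) = pair h a b u := fun u hu => by
    rw [pair, nz_unit (hB.sub u hu).1]
  have hqu : ∀ u ∈ C, b0 u * fderiv ℝ a u (dir h a u) = -pair h a b u := fun u hu => by
    have e : fderiv ℝ a u (dir h a u) = pair h a a u := by rw [pair, nz_unit (hB.sub u hu).1]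
    rw [e]
    exact div_mul_cancel₀ _ (hq0 u (hB.sub u hu).2).ne'
  refine ⟨fun y => b y + k * Real.sin ((a y - t) / k) * b0 y, R1 / k + R2, ⟨?_, ?_, ?_⟩,
    fun i u hu => ?_, fun u hu => ?_, fun u hu hat' => ?_⟩
  · exact hb.smooth.add ((contDiffOn_const.mul
      ((ha.smooth.sub contDiffOn_const).div_const k).sin).mul h0.smooth)
  · intro s hs y
    simp only [ha.hom s hs y, hb.hom s hs y, h0.hom s hs y]
  · intro g hg y hy
    simp only [ha.sgn g hg y hy, hb.sgn g hg y hy, h0.sgn g hg y hy, one_mul]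
    ring
  · rw [hS u hu.1]
    refine hεp (y := k * Real.sin ((a u - t) / k)) ?_ i
      (u, Real.cos ((a u - t) / k) * b0 u) ⟨hu, abs_le.1 ?_⟩
    · rw [dist_zero_right, Real.norm_eq_abs, abs_mul, abs_of_pos hk0]
      have := mul_le_of_le_one_right hk0.le (Real.abs_sin_le_one ((a u - t) / k))
      linarith
    · rw [abs_mul]
      exact (mul_le_of_le_one_left (abs_nonneg _) (Real.abs_cos_le_one _)).trans (hR0 u hu.1)
  · have e : fderiv ℝ a u (dir h (fun y => b y + k * Real.sin ((a y - t) / k) * b0 y) u) =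
        (1 - Real.cos ((a u - t) / k)) * pair h a b u +
          k * Real.sin ((a u - t) / k) * fderiv ℝ a u (dir h b0 u) := by
      rw [hS u hu, map_add, map_add, map_smul, map_smul, smul_eq_mul, smul_eq_mul, hru u hu,
        mul_assoc, hqu u hu]
      ring
    have e1 : |(a u - t) / k| = |a u - t| / k := by rw [abs_div, abs_of_pos hk0]
    have a1 := banda_cos ((a u - t) / k)
    have a2 : |Real.sin ((a u - t) / k)| ≤ |(a u - t) / k| := Real.abs_sin_le_abs
    rw [e1] at a1 a2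
    have a3 : |k * Real.sin ((a u - t) / k)| ≤ |a u - t| := by
      rw [abs_mul, abs_of_pos hk0]
      exact (mul_le_mul_of_nonneg_left a2 hk0.le).trans (le_of_eq (by field_simp))
    have a4 := mul_le_mul a1 (hR1 u hu) (norm_nonneg _) (by positivity)
    have a5 := mul_le_mul a3 (hR2 u hu) (norm_nonneg _) (abs_nonneg _)
    rw [e]
    refine (abs_add_le _ _).trans ?_
    rw [abs_mul, abs_mul _ (fderiv ℝ a u (dir h b0 u))]
    rw [Real.norm_eq_abs] at a4 a5
    calc _ ≤ |a u - t| / k * R1 + |a u - t| * R2 := add_le_add a4 a5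
      _ = _ := by ring
  · have e : dir h (fun y => b y + k * Real.sin ((a y - t) / k) * b0 y) u =
        dir h b u + b0 u • dir h a u := by
      rw [hS u hu, hat']
      simp
    rw [e]
    refine h2 u hu hat' _ ?_
    rw [map_add, map_smul, smul_eq_mul, hru u hu, hqu u hu, add_neg_cancel]

end Pool.Agent.P.MP_4a4b50_gt.Lam

/-! Step BANDB. -/

namespace Pool.Agent.P.MP_4a4b50_gt.Lam

open scoped ContDiff Topology
open Pool.Agent.P.MP_f97e06_gt (Eu)
open Matrix Set Filter Pool.Agent.P.MP_4a4b50_gt.CE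

theorem bandb_max {P : Type} [TopologicalSpace P] {C : Set P} {f g : P → ℝ}
    (hf : ContinuousOn f C) (hg : ContinuousOn g C) : ContinuousOn (fun u => max (f u) (g u)) C :=
  continuous_max.comp_continuousOn (hf.prodMk hg)

theorem bandb_gam {P : Type} [TopologicalSpace P] {C : Set P} {s q : P → ℝ} (hC : IsCompact C)
    (hs : ContinuousOn s C) (hq : ContinuousOn q C) (h : ∀ u ∈ C, s u = 0 → 0 < q u) :
    ∃ γ : ℝ, 0 < γ ∧ ∀ u ∈ C, |s u| ≤ γ → γ ≤ q u := by
  have hc : ContinuousOn (fun u => max |s u| (q u)) C := bandb_max hs.abs hq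
  obtain ⟨m, hm, hle⟩ := hC.exists_forall_le' (a := (0 : ℝ)) hc fun u hu => by
    by_cases h0 : s u = 0
    · exact lt_max_of_lt_right (h u hu h0)
    · exact lt_max_of_lt_left (abs_pos.2 h0)
  refine ⟨m / 2, by positivity, fun u hu hsu => ?_⟩
  rcases le_max_iff.1 (hle u hu) with h1 | h1 <;> linarith

theorem bandb_up {P : Type} [TopologicalSpace P] {C : Set P} {f : P → ℝ} (hC : IsCompact C)
    (hf : ContinuousOn f C) : ∃ M : ℝ, 1 ≤ M ∧ ∀ u ∈ C, f u ≤ M := by
  obtain ⟨M, hM⟩ := hC.bddAbove_image hf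
  exact ⟨max 1 M, le_max_left _ _, fun u hu => le_max_of_le_right (hM ⟨u, hu, rfl⟩)⟩

theorem bandb_L {M m γ g τ w s : ℝ} (hM : 0 < M) (hm : 0 < m) (hγ : 0 < γ) (hg : 0 < g)
    (hτ : 0 < τ) (hw : 0 < w) (hs : 0 < s) :
    ∃ L : ℝ, 1 ≤ L ∧ M ≤ g * L ∧ 2 * M ≤ γ * L ∧ M < τ * L ∧
      Real.exp (-(g * L)) * (3 * M * L ^ 4) < m ∧ Real.exp (-(s * L)) < w := by
  have t : ∀ c : ℝ, 0 < c → Tendsto (fun L : ℝ => c * L) atTop atTop := fun c hc =>
    tendsto_id.const_mul_atTop hc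
  have h1 := ((Real.tendsto_pow_mul_exp_neg_atTop_nhds_zero 4).comp (t g hg)).eventually
    (gt_mem_nhds (show (0 : ℝ) < m * g ^ 4 / (3 * M) by positivity))
  have h2 := (Real.tendsto_exp_neg_atTop_nhds_zero.comp (t s hs)).eventually (gt_mem_nhds hw)
  obtain ⟨L, a1, a2, a3, a4, a5, a6⟩ := ((eventually_ge_atTop (1 : ℝ)).and
    (((t g hg).eventually (eventually_ge_atTop M)).and
    (((t γ hγ).eventually (eventually_ge_atTop (2 * M))).and
    (((t τ hτ).eventually (eventually_gt_atTop M)).and (h1.and h2))))).exists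
  refine ⟨L, a1, a2, a3, a4, ?_, a6⟩
  simp only [Function.comp] at a5
  rw [lt_div_iff₀ (by positivity)] at a5
  have : g ^ 4 * (Real.exp (-(g * L)) * (3 * M * L ^ 4)) < g ^ 4 * m := by nlinarith
  exact lt_of_mul_lt_mul_left this (by positivity)

theorem bandb_core {M m γ g R L s w dW nx da dd : ℝ} (hM : 1 ≤ M) (hm : 0 < m) (hγ : 0 < γ)
    (hg : 0 < g) (hgγ : g ≤ γ) (hRg : R ^ 2 * g ^ 2 ≤ γ / 2) (hL : 1 ≤ L) (h1 : M ≤ g * L)
    (h2 : 2 * M ≤ γ * L) (h3 : Real.exp (-(g * L)) * (3 * M * L ^ 4) < m)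
    (hw : Real.exp (-L ^ 2 * s) ≤ w) (hwM : w ≤ M) (hdW : m ≤ dW) (hnx : nx ≤ M)
    (hda : da ^ 2 ≤ M) (hdd : -dd ≤ M) (hR : |da| ≤ R * |s|) (hq : |s| ≤ γ → γ ≤ dd) :
    0 < dW - Real.exp (-L ^ 2 * s) * (nx + L ^ 4 * da ^ 2 - L ^ 2 * dd) := by
  have hF := Real.exp_pos (-L ^ 2 * s)
  have hL0 : 0 < L := by linarith
  have hlow : -g ≤ L * s := by
    have e1 := Real.add_one_le_exp (-L ^ 2 * s)
    have e2 : L * (-g) ≤ L * (L * s) := by nlinarith
    exact le_of_mul_le_mul_left e2 hL0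
  rcases le_total (L * s) g with hc | hc
  · have habs : L * |s| ≤ g := by
      rw [← abs_of_pos hL0, ← abs_mul]
      exact abs_le.2 ⟨hlow, hc⟩
    have hs0 := abs_nonneg s
    have hsγ : |s| ≤ γ := by nlinarith
    have e1 := hq hsγ
    have e2 : da ^ 2 ≤ (R * |s|) ^ 2 := by
      rw [← sq_abs da]
      exact pow_le_pow_left₀ (abs_nonneg _) hR 2
    have e3 : (L * |s|) ^ 2 ≤ g ^ 2 := pow_le_pow_left₀ (by positivity) habs 2
    have e4 : L ^ 2 * da ^ 2 ≤ γ / 2 := by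
      calc L ^ 2 * da ^ 2 ≤ L ^ 2 * (R * |s|) ^ 2 := by gcongr
        _ = R ^ 2 * (L * |s|) ^ 2 := by ring
        _ ≤ R ^ 2 * g ^ 2 := by gcongr
        _ ≤ γ / 2 := hRg
    have e5 : L ^ 2 * (L ^ 2 * da ^ 2) ≤ L ^ 2 * (γ / 2) := by gcongr
    have e6 : L ^ 2 * γ ≤ L ^ 2 * dd := by gcongr
    have e7 : γ * L ≤ L ^ 2 * γ := by nlinarith [mul_pos hγ hL0]
    have e8 : nx + L ^ 4 * da ^ 2 - L ^ 2 * dd ≤ 0 := by nlinarith
    nlinarith [mul_nonneg hF.le (neg_nonneg.2 e8)]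
  · have e1 : Real.exp (-L ^ 2 * s) ≤ Real.exp (-(g * L)) := Real.exp_le_exp.2 (by nlinarith)
    have l2 : 1 ≤ L ^ 2 := one_le_pow₀ hL
    have l4 : L ^ 2 ≤ L ^ 4 := by nlinarith
    have e2 : L ^ 4 * da ^ 2 ≤ L ^ 4 * M := by gcongr
    have e3 : L ^ 2 * (-dd) ≤ L ^ 2 * M := by gcongr
    have e4 : nx + L ^ 4 * da ^ 2 - L ^ 2 * dd ≤ 3 * M * L ^ 4 := by nlinarith
    have e5 : Real.exp (-L ^ 2 * s) * (nx + L ^ 4 * da ^ 2 - L ^ 2 * dd) ≤
        Real.exp (-L ^ 2 * s) * (3 * M * L ^ 4) := by gcongr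
    have e6 : Real.exp (-L ^ 2 * s) * (3 * M * L ^ 4) ≤
        Real.exp (-(g * L)) * (3 * M * L ^ 4) := by gcongr
    linarith

theorem p_BANDB (hDIR : S_DIR) :
    S_BANDB := by
  intro n G φ h a S t₀ t R C W hP ha hS hB hW hR hq
  have hO := hP.isOpen
  have hmem : ∀ u ∈ C, u ∈ Om φ := fun u hu => (hB.sub u hu).2
  have haA : ∀ u ∈ Om φ, ContDiffAt ℝ 2 a u := fun u hu =>
    (ha.smooth.contDiffAt (hO.mem_nhds hu)).of_le two_le_infty
  have hWA : ∀ i, ∀ u ∈ Om φ, ContDiffAt ℝ 2 (W i) u := fun i u hu =>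
    (hB.smooth i).contDiffAt (hO.mem_nhds hu)
  have hx : ContinuousOn (dir h S) C := fun u hu =>
    ((hDIR n h S u (hP.h_pos u (hB.sub u hu).1)).2.2.2.2.1 (hP.h_at (hP.ne_zero (hmem u hu)))
      (hS.smooth.contDiffAt (hO.mem_nhds (hmem u hu)))).continuousAt.continuousWithinAt
  have hperp : ∀ u ∈ C, inner ℝ u (dir h S u) = 0 := fun u hu =>
    (hDIR n h S u (hP.h_pos u (hB.sub u hu).1)).2.2.1 (hB.sub u hu).1 hP.h_hom
      ((hP.h_at (hP.ne_zero (hmem u hu))).of_le two_le_infty) hS.hom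
      ((hS.smooth.contDiffAt (hO.mem_nhds (hmem u hu))).differentiableAt (by simp))
  have hD : ∀ f : Eu n → ℝ, (∀ u ∈ Om φ, ContDiffAt ℝ 2 f u) →
      ContinuousOn (fun u => D2 f u (dir h S u) (dir h S u)) C := fun f hf =>
    (ContinuousOn.clm_apply (fun u hu => (continuousAt_D2 (hf u (hmem u hu))).continuousWithinAt)
      hx).clm_apply hx
  have hWc : ∀ i, ContinuousOn (W i) C := fun i u hu =>
    (hWA i u (hmem u hu)).continuousAt.continuousWithinAt
  have hac : ContinuousOn a C := fun u hu => (haA u (hmem u hu)).continuousAt.continuousWithinAt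
  have hda : ContinuousOn (fun u => fderiv ℝ a u (dir h S u)) C :=
    ContinuousOn.clm_apply
      (fun u hu => (continuousAt_fderiv' (haA u (hmem u hu))).continuousWithinAt) hx
  have hm : ∀ i, ∃ m : ℝ, 0 < m ∧ ∀ u ∈ Act C W i, m ≤ D2 (W i) u (dir h S u) (dir h S u) :=
    fun i => (act_compact hB.cpt hWc i).exists_forall_le'
      ((hD (W i) (hWA i)).mono fun u hu => hu.1) (hW i)
  obtain ⟨m1, hm1, hm1'⟩ := hm true
  obtain ⟨m2, hm2, hm2'⟩ := hm false
  have hm0 : 0 < min m1 m2 := lt_min hm1 hm2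
  have hmm : ∀ i, ∀ u ∈ Act C W i, min m1 m2 ≤ D2 (W i) u (dir h S u) (dir h S u) := by
    intro i u hu
    cases i
    · exact (min_le_right _ _).trans (hm2' u hu)
    · exact (min_le_left _ _).trans (hm1' u hu)
  obtain ⟨γ, hγ, hγ'⟩ := bandb_gam hB.cpt (hac.sub continuousOn_const) (hD a haA)
    fun u hu h0 => hq u hu (sub_eq_zero.1 h0)
  have hin : ContinuousOn (fun u => inner ℝ (dir h S u) (dir h S u)) C :=
    continuous_inner.comp_continuousOn (hx.prodMk hx)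
  obtain ⟨M, hM1, hM⟩ := bandb_up hB.cpt (bandb_max (bandb_max (hWc true) (hWc false))
    (bandb_max hin (bandb_max (hda.pow 2) (hD a haA).neg)))
  have hWM : ∀ i, ∀ u ∈ C, W i u ≤ M := by
    intro i u hu
    have := (le_max_left _ _).trans (hM u hu)
    cases i
    · exact (le_max_right _ _).trans this
    · exact (le_max_left _ _).trans this
  obtain ⟨u0, hu0, i0, hw0, ha0⟩ := hB.pos
  have hR1 : 0 < R ^ 2 + 1 := by positivity
  have hg : 0 < min γ 1 / (2 * (R ^ 2 + 1)) := div_pos (lt_min hγ one_pos) (by positivity)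
  have hg1 : min γ 1 / (2 * (R ^ 2 + 1)) * (2 * (R ^ 2 + 1)) = min γ 1 := by field_simp
  generalize min γ 1 / (2 * (R ^ 2 + 1)) = g at hg hg1
  have hg2 := min_le_left γ 1
  have hg3 := min_le_right γ 1
  have hg4 : 0 ≤ g * R ^ 2 := by positivity
  have hgγ : g ≤ γ := by nlinarith
  have hRg : R ^ 2 * g ^ 2 ≤ γ / 2 := by nlinarith
  obtain ⟨L, hL, l1, l2, l3, l4, l5⟩ := bandb_L (by linarith : 0 < M) hm0 hγ hg
    (sub_pos.2 hB.lt) hw0 (sub_pos.2 ha0)
  have hL0 : 0 < L := by linarith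
  have hV : ∀ i, ∀ u ∈ C, 0 ≤ W i u - ‖u‖ * Real.exp (-L ^ 2 * (a u - t)) →
      Real.exp (-L ^ 2 * (a u - t)) ≤ W i u := by
    intro i u hu h0
    rw [(hB.sub u hu).1] at h0
    linarith
  refine ⟨fun i y => W i y - ‖y‖ * Real.exp (-L ^ 2 * (a y - t)),
    ⟨hB.cpt, hB.sub, fun i u hu => ?_, fun i r hr y => ?_, ⟨u0, hu0, i0, ?_⟩,
      fun u hu i h0 => ?_⟩, fun i u hu => ?_⟩
  · exact ((hWA i u hu).sub ((contDiffAt_norm ℝ (hP.ne_zero hu)).mul
      (contDiffAt_const.mul ((haA u hu).sub contDiffAt_const)).exp)).contDiffWithinAt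
  · simp only [hB.hom i r hr y, ha.hom r hr y, norm_smul, Real.norm_of_nonneg hr.le]
    ring
  · have e1 : Real.exp (-L ^ 2 * (a u0 - t)) ≤ Real.exp (-((a u0 - t) * L)) :=
      Real.exp_le_exp.2 (by nlinarith [mul_pos (sub_pos.2 ha0) hL0])
    simp only [(hB.sub u0 hu0).1]
    linarith
  · have e1 := hV i u hu h0
    have e2 := Real.exp_pos (-L ^ 2 * (a u - t))
    have e3 := Real.add_one_le_exp (-L ^ 2 * (a u - t))
    have e4 := hWM i u hu
    refine hB.inner u hu i (by linarith) ?_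
    by_contra hcon
    have e5 : t - t₀ ≤ t - a u := by linarith [not_lt.1 hcon]
    have e6 : (t - t₀) * L ≤ (t - a u) * L := by gcongr
    have e7 : 0 ≤ (t - a u) * L := by nlinarith [sub_pos.2 hB.lt]
    nlinarith
  · obtain ⟨huC, h0, hj⟩ := hu
    have e1 := hV i u huC h0
    have e2 := Real.exp_pos (-L ^ 2 * (a u - t))
    have hact : u ∈ Act C W i := ⟨huC, by linarith, fun j => by have := hj j; simp only at this; linarith⟩
    have J := (Jet.of (hWA i u (hmem u huC)) (dir h S u) (dir h S u)).sub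
      ((Jet.norm (hB.sub u huC).1 (dir h S u) (dir h S u)).mul
        (((Jet.of (haA u (hmem u huC)) (dir h S u) (dir h S u)).sub
          (Jet.const t u _ _)).const_mul (-L ^ 2)).exp)
    have hb := hM u huC
    simp only [max_le_iff] at hb
    have := bandb_core hM1 hm0 hγ hg hgγ hRg hL l1 l2 l4 e1 (hWM i u huC) (hmm i u hact)
      hb.2.1 hb.2.2.1 hb.2.2.2 (hR u huC) (hγ' u huC)
    rw [J.dd, hperp u huC]
    refine this.trans_eq ?_
    ring

end Pool.Agent.P.MP_4a4b50_gt.Lam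

/-! Step BODY. -/

namespace Pool.Agent.P.MP_4a4b50_gt.Lam

open scoped ContDiff Topology
open Pool.Agent.P.MP_f97e06_gt (Eu)
open Matrix Set Filter Pool.Agent.P.MP_4a4b50_gt.CE

theorem body_radii {n : ℕ} (K : Set (Eu n)) (u : Eu n) : radii K u = (hatM (supp K) u).det := by
  unfold radii
  congr 1

theorem p_BODY :
    S_BODY := by
  intro n N G h d hn hN hG hs
  have h29 : (2 : WithTop ℕ∞) ≤ (N : WithTop ℕ∞) := by exact_mod_cast hN
  have hne : ∀ u : Eu n, ‖u‖ = 1 → u ≠ 0 := by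
    rintro u hu rfl
    simp at hu
  let k : Eu n → ℝ := fun z => 1 * h z + 1 * d z
  have hks : ContDiffOn ℝ (N : WithTop ℕ∞) k {0}ᶜ :=
    (contDiffOn_const.mul hs.h_smooth).add (contDiffOn_const.mul hs.d_smooth)
  have hk1 : Hom1 k := fun t ht x => by
    simp only [k, hs.h_hom t ht x, hs.d_hom t ht x]
    ring
  have hkM : ∀ u : Eu n, ‖u‖ = 1 → hatM k u = hatM h u + hessM d u := by
    intro u hu
    have a1 := (hs.h_smooth.of_le h29).contDiffAt (isOpen_compl_singleton.mem_nhds (hne u hu))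
    have a2 := (hs.d_smooth.of_le h29).contDiffAt (isOpen_compl_singleton.mem_nhds (hne u hu))
    simp only [hatM, k]
    rw [hessM_lin a1 a2, one_smul, one_smul]
    abel
  have hkp : ∀ u : Eu n, ‖u‖ = 1 → (hatM k u).PosDef := fun u hu => by
    rw [hkM u hu]
    exact hs.k_pos u hu
  obtain ⟨H, H1, H2, H3, H4⟩ := exists_body hn (hs.h_smooth.of_le h29) hs.h_hom hs.h_pos
  obtain ⟨K, K1, K2, K3, K4⟩ := exists_body hn (hks.of_le h29) hk1 hkp
  have eH : supp H = h := funext fun x => (H4 x).symm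
  have eK : supp K = k := funext fun x => (K4 x).symm
  refine ⟨H, K, ⟨H1, H2, H3, eH ▸ hs.h_smooth, fun u hu => ?_⟩,
    ⟨K1, K2, K3, eK ▸ hks, fun u hu => ?_⟩, fun u _ => ?_, fun u hu => ?_, ?_⟩
  · rw [body_radii, eH]
    exact (hs.h_pos u hu).det_pos
  · rw [body_radii, eK]
    exact (hkp u hu).det_pos
  · simp only [eH, eK, k, hs.d_odd u]
    ring
  · simp only [body_radii, eH, eK]
    have a1 := hessM_neg_neg d u
    have a2 : (fun z => -d (-z)) = d := funext fun z => by rw [hs.d_odd, neg_neg]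
    rw [a2] at a1
    have a3 : hessM d (-u) = -hessM d u := by rw [a1, neg_neg]
    have a4 := hs.eqn u hu
    rw [hkM u hu, hkM (-u) (by rwa [norm_neg]), a3, ← sub_eq_add_neg]
    simp only [Eop] at a4
    linarith
  rintro ⟨v, hv⟩
  have hd : ∀ x, d x = -inner ℝ v x := by
    intro x
    obtain ⟨y, hy, e1⟩ := supp_ex H1 (H3.mono interior_subset) H4 x
    obtain ⟨y', hy', e2⟩ := supp_ex K1 (K3.mono interior_subset) K4 x
    have e3 := supp_le H1 H4 x (y := y' + v) (hv ▸ ⟨y', hy', rfl⟩)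
    rw [hv] at hy
    obtain ⟨y'', hy'', rfl⟩ := hy
    have e4 := supp_le K1 K4 x hy''
    simp only [inner_add_left, k] at e1 e2 e3 e4
    linarith
  have hv0 : v = 0 := by
    apply hG
    intro g hg
    apply ext_inner_right ℝ
    intro z
    have a1 := hs.d_inv g hg (g.symm z)
    rw [hd, hd, LinearIsometryEquiv.apply_symm_apply] at a1
    have a2 : inner ℝ (g v) z = inner ℝ v (g.symm z) := by
      rw [← g.inner_map_map v (g.symm z), LinearIsometryEquiv.apply_symm_apply]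
    linarith
  obtain ⟨x, hx⟩ := hs.d_ne
  apply hx
  rw [hd, hv0]
  simp

end Pool.Agent.P.MP_4a4b50_gt.Lam
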