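import Pool.Agent.P.MP_4a4b50_gt.Lam.Iface

set_option autoImplicit false

/-! Step GRP. -/

namespace Pool.Agent.P.MP_4a4b50_gt.Lam

open scoped ContDiff Topology
open Pool.Agent.P.MP_f97e06_gt (Eu)
open Matrix Set Filter Pool.Agent.P.MP_4a4b50_gt.CE

/-- the map `(z, w, t) ↦ (q conj z, q² conj w, -t)` for `q = a + i b` -/
noncomputable def grp_fun (m : ℕ) (a b : ℝ) (y : Eu (m + 4)) : Eu (m + 4) :=
  mk4 m (a * y 0 + b * y 1 + y 0) (b * y 0 - a * y 1 + y 1)
    ((a ^ 2 - b ^ 2) * y 2 + 2 * a * b * y 3 + y 2)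
    (2 * a * b * y 2 - (a ^ 2 - b ^ 2) * y 3 + y 3) - y

theorem grp_zero (m : ℕ) (a b : ℝ) (y : Eu (m + 4)) :
    grp_fun m a b y 0 = a * y 0 + b * y 1 := by
  simp [grp_fun]

theorem grp_one (m : ℕ) (a b : ℝ) (y : Eu (m + 4)) :
    grp_fun m a b y 1 = b * y 0 - a * y 1 := by
  simp [grp_fun]

theorem grp_two (m : ℕ) (a b : ℝ) (y : Eu (m + 4)) :
    grp_fun m a b y 2 = (a ^ 2 - b ^ 2) * y 2 + 2 * a * b * y 3 := by
  simp [grp_fun]

theorem grp_three (m : ℕ) (a b : ℝ) (y : Eu (m + 4)) :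
    grp_fun m a b y 3 = 2 * a * b * y 2 - (a ^ 2 - b ^ 2) * y 3 := by
  simp [grp_fun]

theorem grp_tl (m : ℕ) (a b : ℝ) (y : Eu (m + 4)) (j : Fin m) :
    grp_fun m a b y (tl j) = -y (tl j) := by
  simp [grp_fun]

/-- the map as a linear map -/
noncomputable def grp_lin (m : ℕ) (a b : ℝ) : Eu (m + 4) →ₗ[ℝ] Eu (m + 4) where
  toFun := grp_fun m a b
  map_add' x y := by
    refine ext4 ?_ ?_ ?_ ?_ fun j => ?_ <;>
      simp only [grp_zero, grp_one, grp_two, grp_three, grp_tl, PiLp.add_apply] <;> ring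
  map_smul' c x := by
    refine ext4 ?_ ?_ ?_ ?_ fun j => ?_ <;>
      simp only [grp_zero, grp_one, grp_two, grp_three, grp_tl, PiLp.smul_apply, smul_eq_mul,
        RingHom.id_apply] <;> ring

theorem grp_invol (m : ℕ) {a b : ℝ} (h : a ^ 2 + b ^ 2 = 1) :
    Function.Involutive (grp_lin m a b) := by
  intro y
  change grp_fun m a b (grp_fun m a b y) = y
  refine ext4 ?_ ?_ ?_ ?_ fun j => ?_ <;>
    simp only [grp_zero, grp_one, grp_two, grp_three, grp_tl]
  · linear_combination y 0 * h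
  · linear_combination y 1 * h
  · linear_combination y 2 * (a ^ 2 + b ^ 2 + 1) * h
  · linear_combination y 3 * (a ^ 2 + b ^ 2 + 1) * h
  · ring

theorem grp_rr (m : ℕ) {a b : ℝ} (h : a ^ 2 + b ^ 2 = 1) (y : Eu (m + 4)) :
    rr (grp_fun m a b y) = rr y := by
  simp only [rr, grp_zero, grp_one]
  linear_combination (y 0 ^ 2 + y 1 ^ 2) * h

theorem grp_ss (m : ℕ) {a b : ℝ} (h : a ^ 2 + b ^ 2 = 1) (y : Eu (m + 4)) :
    ss (grp_fun m a b y) = ss y := by
  simp only [ss, grp_two, grp_three]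
  linear_combination (y 2 ^ 2 + y 3 ^ 2) * (a ^ 2 + b ^ 2 + 1) * h

theorem grp_ph (m : ℕ) {a b : ℝ} (h : a ^ 2 + b ^ 2 = 1) (y : Eu (m + 4)) :
    ph (grp_fun m a b y) = ph y := by
  simp only [ph, grp_zero, grp_one, grp_two, grp_three]
  linear_combination ((y 0 ^ 2 - y 1 ^ 2) * y 2 + 2 * y 0 * y 1 * y 3) * (a ^ 2 + b ^ 2 + 1) * h

theorem grp_ch (m : ℕ) {a b : ℝ} (h : a ^ 2 + b ^ 2 = 1) (y : Eu (m + 4)) :
    ch (grp_fun m a b y) = -ch y := by
  simp only [ch, grp_zero, grp_one, grp_two, grp_three]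
  linear_combination -((y 0 ^ 2 - y 1 ^ 2) * y 3 - 2 * y 0 * y 1 * y 2) * (a ^ 2 + b ^ 2 + 1) * h

/-- the map as an isometry -/
noncomputable def grp_iso (m : ℕ) {a b : ℝ} (h : a ^ 2 + b ^ 2 = 1) : Iso (m + 4) where
  toLinearEquiv := LinearEquiv.ofInvolutive (grp_lin m a b) (grp_invol m h)
  norm_map' y := by
    change ‖grp_fun m a b y‖ = ‖y‖
    have : ‖grp_fun m a b y‖ ^ 2 = ‖y‖ ^ 2 := by
      rw [norm_sq_split, norm_sq_split, pp, pp, grp_rr m h, grp_ss m h]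
      simp only [grp_tl, neg_sq]
    exact (pow_left_inj₀ (norm_nonneg _) (norm_nonneg _) two_ne_zero).1 this

theorem grp_iso_apply (m : ℕ) {a b : ℝ} (h : a ^ 2 + b ^ 2 = 1) (y : Eu (m + 4)) :
    grp_iso m h y = grp_fun m a b y := rfl

theorem grp_mem (m : ℕ) {a b : ℝ} (h : a ^ 2 + b ^ 2 = 1) : grp_iso m h ∈ GG m := fun y =>
  ⟨grp_ph m h y, grp_ch m h y, grp_rr m h y, grp_ss m h y⟩

theorem grp_neg (m : ℕ) {a b : ℝ} (h : a ^ 2 + b ^ 2 = 1) (x : Eu (m + 4))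
    (h0 : a * x 0 + b * x 1 = -x 0) (h1 : b * x 0 - a * x 1 = -x 1)
    (h2 : (a ^ 2 - b ^ 2) * x 2 + 2 * a * b * x 3 = -x 2)
    (h3 : 2 * a * b * x 2 - (a ^ 2 - b ^ 2) * x 3 = -x 3) : ∃ g ∈ GG m, g x = -x := by
  refine ⟨grp_iso m h, grp_mem m h, ?_⟩
  rw [grp_iso_apply]
  refine ext4 ?_ ?_ ?_ ?_ fun j => ?_ <;>
    simp only [grp_zero, grp_one, grp_two, grp_three, grp_tl, PiLp.neg_apply]
  exacts [h0, h1, h2, h3]

theorem p_GRP :
    S_GRP := by
  intro m
  refine ⟨fun v hv => ?_, fun x hx => ?_⟩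
  · have e1 := hv _ (grp_mem m (a := 1) (b := 0) (by norm_num))
    have e2 := hv _ (grp_mem m (a := -1) (b := 0) (by norm_num))
    have e3 := hv _ (grp_mem m (a := 0) (b := 1) (by norm_num))
    rw [grp_iso_apply] at e1 e2 e3
    have f0 := congrArg (fun y : Eu (m + 4) => y 0) e2
    have f1 := congrArg (fun y : Eu (m + 4) => y 1) e1
    have f2 := congrArg (fun y : Eu (m + 4) => y 2) e3
    have f3 := congrArg (fun y : Eu (m + 4) => y 3) e1
    simp only [grp_zero, grp_one, grp_two, grp_three] at f0 f1 f2 f3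
    refine ext4 ?_ ?_ ?_ ?_ fun j => ?_
    · change v 0 = 0
      linarith
    · change v 1 = 0
      linarith
    · change v 2 = 0
      linarith
    · change v 3 = 0
      linarith
    · have ft := congrArg (fun y : Eu (m + 4) => y (tl j)) e1
      simp only [grp_tl] at ft
      change v (tl j) = 0
      linarith
  · simp only [ph] at hx
    by_cases hz : x 0 ^ 2 + x 1 ^ 2 = 0
    · have z0 : x 0 = 0 := by nlinarith [sq_nonneg (x 0), sq_nonneg (x 1)]
      have z1 : x 1 = 0 := by nlinarith [sq_nonneg (x 0), sq_nonneg (x 1)]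
      by_cases hw : x 2 ^ 2 + x 3 ^ 2 = 0
      · have z2 : x 2 = 0 := by nlinarith [sq_nonneg (x 2), sq_nonneg (x 3)]
        have z3 : x 3 = 0 := by nlinarith [sq_nonneg (x 2), sq_nonneg (x 3)]
        exact grp_neg m (a := 1) (b := 0) (by norm_num) x (by simp [z0]) (by simp [z1])
          (by simp [z2]) (by simp [z3])
      · have hp : 0 < x 2 ^ 2 + x 3 ^ 2 := lt_of_le_of_ne (by positivity) (Ne.symm hw)
        obtain ⟨s, hs, hs2⟩ : ∃ s : ℝ, s ≠ 0 ∧ s ^ 2 = x 2 ^ 2 + x 3 ^ 2 :=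
          ⟨√(x 2 ^ 2 + x 3 ^ 2), (Real.sqrt_pos.2 hp).ne', Real.sq_sqrt hp.le⟩
        refine grp_neg m (a := -x 3 / s) (b := x 2 / s) ?_ x (by simp [z0, z1])
          (by simp [z0, z1]) ?_ ?_
        · field_simp
          linear_combination -hs2
        · field_simp
          linear_combination x 2 * hs2
        · field_simp
          linear_combination x 3 * hs2
    · refine grp_neg m (a := -(x 0 ^ 2 - x 1 ^ 2) / (x 0 ^ 2 + x 1 ^ 2))
        (b := -(2 * x 0 * x 1) / (x 0 ^ 2 + x 1 ^ 2)) ?_ x ?_ ?_ ?_ ?_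
      · field_simp
        ring
      · field_simp
        ring
      · field_simp
        ring
      · field_simp
        linear_combination 2 * (x 0 ^ 2 - x 1 ^ 2) * hx
      · field_simp
        linear_combination 4 * x 0 * x 1 * hx

end Pool.Agent.P.MP_4a4b50_gt.Lam

/-! Step HZ. -/

namespace Pool.Agent.P.MP_4a4b50_gt.Lam

open scoped ContDiff Topology
open Pool.Agent.P.MP_f97e06_gt (Eu)
open Matrix Set Filter Pool.Agent.P.MP_4a4b50_gt.CE

theorem p_HZ :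
    S_HZ := by
  intro m
  refine ⟨fun y hy => ?_, fun t ht y => ?_, fun g hg y => ?_, fun u x e hu => ?_⟩
  · have h1 : ContDiffAt ℝ ∞ (fun y : Eu (m + 4) => ‖y‖) y := contDiffAt_norm ℝ hy
    exact (h1.sub (contDiffAt_const.mul (contDiff_poly.1.contDiffAt.div (h1.pow 2)
      (pow_ne_zero 2 (norm_ne_zero_iff.2 hy))))).contDiffWithinAt
  · rw [h0, h0, (poly_smul t y).1, norm_smul, Real.norm_of_nonneg ht.le]
    have := ht.ne'
    by_cases h : ‖y‖ = 0
    · simp [h]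
    · field_simp
  · rw [h0, h0, (hg y).1, g.norm_map]
  · have n := Jet.norm hu x e
    have := (n.sub (((jet_ph u x e).div n.sq (by norm_num)).const_mul (1 / 50))).dd
    change D2 h0 u x e = _ at this
    rw [this]
    ring

end Pool.Agent.P.MP_4a4b50_gt.Lam

/-! Step PB. -/

namespace Pool.Agent.P.MP_4a4b50_gt.Lam

open scoped ContDiff Topology
open Pool.Agent.P.MP_f97e06_gt (Eu)
open Matrix Set Filter Pool.Agent.P.MP_4a4b50_gt.CE

theorem pb_cs {a b c d M : ℝ} (h1 : a ^ 2 + b ^ 2 ≤ 1) (h2 : c ^ 2 + d ^ 2 ≤ M ^ 2)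
    (hM : 0 ≤ M) : |a * c + b * d| ≤ M := by
  refine abs_le_of_sq_le_sq' ?_ hM |> abs_le.2
  have h3 : (a ^ 2 + b ^ 2) * (c ^ 2 + d ^ 2) ≤ 1 * M ^ 2 :=
    mul_le_mul h1 h2 (by positivity) zero_le_one
  nlinarith [sq_nonneg (a * d - b * c)]

theorem p_PB :
    S_PB := by
  intro m u x hu
  have h1 := pp_le u
  have h2 := pp_le x
  rw [hu, one_pow] at h1
  have r0 : ∀ y : Eu (m + 4), 0 ≤ rr y := fun y => by unfold rr; positivity
  have s0 : ∀ y : Eu (m + 4), 0 ≤ ss y := fun y => by unfold ss; positivity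
  have ru : rr u ≤ 1 := by have := s0 u; unfold pp at h1; linarith
  have su : ss u ≤ 1 := by have := r0 u; unfold pp at h1; linarith
  have rx : rr x ≤ ‖x‖ ^ 2 := by have := s0 x; unfold pp at h2; linarith
  have sx : ss x ≤ ‖x‖ ^ 2 := by have := r0 x; unfold pp at h2; linarith
  have a1 : (u 0 ^ 2 - u 1 ^ 2) ^ 2 + (2 * u 0 * u 1) ^ 2 ≤ 1 :=
    calc _ = rr u * rr u := by unfold rr; ring
      _ ≤ 1 := mul_le_one₀ ru (r0 u) ru
  have a2 : (u 0 * u 2 + u 1 * u 3) ^ 2 + (u 0 * u 3 - u 1 * u 2) ^ 2 ≤ 1 :=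
    calc _ = rr u * ss u := by unfold rr ss; ring
      _ ≤ 1 := mul_le_one₀ ru (s0 u) su
  have a3 : (x 0 ^ 2 - x 1 ^ 2) ^ 2 + (2 * x 0 * x 1) ^ 2 ≤ (‖x‖ ^ 2) ^ 2 :=
    calc _ = rr x ^ 2 := by unfold rr; ring
      _ ≤ _ := pow_le_pow_left₀ (r0 x) rx 2
  have a4 : (x 0 * x 2 + x 1 * x 3) ^ 2 + (x 0 * x 3 - x 1 * x 2) ^ 2 ≤ (‖x‖ ^ 2) ^ 2 :=
    calc _ = rr x * ss x := by unfold rr ss; ring
      _ ≤ ‖x‖ ^ 2 * ‖x‖ ^ 2 := mul_le_mul rx sx (s0 x) (by positivity)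
      _ = _ := by ring
  refine ⟨pb_cs a1 (su.trans_eq (one_pow 2).symm) zero_le_one, ?_, ?_⟩
  · have b1 := abs_le.1 (pb_cs a2 rx (norm_nonneg x))
    have b2 := abs_le.1 (pb_cs a1 sx (norm_nonneg x))
    unfold dph
    rw [abs_le]
    constructor <;> linarith [b1.1, b1.2, b2.1, b2.2]
  · have b1 := abs_le.1 (pb_cs su a3 (by positivity))
    have b2 := abs_le.1 (pb_cs ru a4 (by positivity))
    unfold ddph
    rw [abs_le]
    constructor <;> linarith [b1.1, b1.2, b2.1, b2.2]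

end Pool.Agent.P.MP_4a4b50_gt.Lam

/-! Step PRE. -/

namespace Pool.Agent.P.MP_4a4b50_gt.Lam

open scoped ContDiff Topology
open Pool.Agent.P.MP_f97e06_gt (Eu)
open Matrix Set Filter Pool.Agent.P.MP_4a4b50_gt.CE

theorem p_PRE (hGRP : S_GRP) (hHZ : S_HZ) (hPB : S_PB) :
    S_PRE := by
  intro m
  obtain ⟨h1, h2, h3, h4⟩ := hHZ m
  refine ⟨(hGRP m).1, contDiff_poly.1, fun x => ?_, fun g hg x => (hg x).1,
    fun x _ => (hGRP m).2 x, fun t _ x => (poly_smul t x).1, h1, h2, h3, fun u hu => ?_⟩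
  · have := (poly_smul (-1) x).1
    rw [neg_one_smul] at this
    rw [this]
    ring
  refine posDef_of_form (ε := 11 / 25) ((h1.contDiffAt (isOpen_compl_singleton.mem_nhds
    (ne_zero_of_unit hu))).of_le two_le_infty) (by norm_num) fun x => ?_
  obtain ⟨b1, b2, b3⟩ := hPB m u x hu
  have b4 : |inner ℝ u x| ≤ ‖x‖ := by simpa [hu] using abs_real_inner_le_norm u x
  have b5 : |dph u x * inner ℝ u x| ≤ 3 * ‖x‖ * ‖x‖ := by
    rw [abs_mul]
    exact mul_le_mul b2 b4 (abs_nonneg _) (by positivity)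
  have b6 : |ph u * (inner ℝ u x * inner ℝ u x)| ≤ 1 * (‖x‖ * ‖x‖) := by
    rw [abs_mul, abs_mul]
    exact mul_le_mul b1 (mul_le_mul b4 b4 (abs_nonneg _) (norm_nonneg _)) (by positivity)
      zero_le_one
  have b7 : -1 * ‖x‖ ^ 2 ≤ ph u * ‖x‖ ^ 2 :=
    mul_le_mul_of_nonneg_right (abs_le.1 b1).1 (by positivity)
  rw [pow_two (inner ℝ u x), h4 u x x hu, real_inner_self_eq_norm_sq]
  linarith [(abs_le.1 b3).2, (abs_le.1 b5).1, (abs_le.1 b6).2]

end Pool.Agent.P.MP_4a4b50_gt.Lam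

/-! Step JET. -/

namespace Pool.Agent.P.MP_4a4b50_gt.Lam

open scoped ContDiff Topology
open Pool.Agent.P.MP_f97e06_gt (Eu)
open Matrix Set Filter Pool.Agent.P.MP_4a4b50_gt.CE

theorem jet_sqrt {n : ℕ} {f : Eu n → ℝ} {u x : Eu n} {v a c : ℝ}
    (hf : Jet f u x x v (2 * a) (2 * a) (2 * c)) (hv : 0 < v) :
    Jet (fun y => √(f y)) u x x √v (a / √v) (a / √v) ((c * v - a ^ 2) / √v ^ 3) := by
  have h1 := Real.sq_sqrt hv.le
  have h2 := (Real.sqrt_pos.2 hv).ne'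
  refine (hf.sqrt hv).congr rfl (by field_simp) (by field_simp) ?_
  generalize √v = r at h1 h2
  subst h1
  field_simp
  ring

theorem p_JET :
    S_JET := by
  intro m u x hr
  have c := fun i => Jet.coord i u x x
  have h0 : u 0 ^ 2 + u 1 ^ 2 ≠ 0 := hr.ne'
  have jr : Jet rr u x x (rr u) (2 * (u 0 * x 0 + u 1 * x 1)) (2 * (u 0 * x 0 + u 1 * x 1))
      (2 * rr x) := ((c 0).sq.add (c 1).sq).congr rfl (by ring) (by ring) (by unfold rr; ring)
  have js : Jet ss u x x (ss u) (2 * (u 2 * x 2 + u 3 * x 3)) (2 * (u 2 * x 2 + u 3 * x 3))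
      (2 * ss x) := ((c 2).sq.add (c 3).sq).congr rfl (by ring) (by ring) (by unfold ss; ring)
  have jp : Jet pp u x x (pp u) (2 * (u 0 * x 0 + u 1 * x 1 + u 2 * x 2 + u 3 * x 3))
      (2 * (u 0 * x 0 + u 1 * x 1 + u 2 * x 2 + u 3 * x 3)) (2 * pp x) :=
    (jr.add js).congr rfl (by ring) (by ring) (by unfold pp; ring)
  have jc := (((c 0).sq.sub (c 1).sq).mul (c 3)).sub ((((c 0).const_mul 2).mul (c 1)).mul (c 2))
  have hp : 0 < pp u := add_pos_of_pos_of_nonneg hr (by unfold ss; positivity)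
  have e1 : rr u * cA u x + ph u / rr u * cE u x + ch u / rr u * cF u x =
      u 0 * x 0 + u 1 * x 1 + u 2 * x 2 + u 3 * x 3 := by
    unfold cA cE cF ph ch rr
    field_simp
    ring
  have e2 : cF u x * (ph u / rr u) - cE u x * (ch u / rr u) = u 2 * x 3 - u 3 * x 2 := by
    unfold cE cF ph ch rr
    field_simp
    ring
  have r1 := Real.sq_sqrt hr.le
  have r2 := (Real.sqrt_pos.2 hr).ne'
  have p1 := Real.sq_sqrt hp.le
  have p2 := (Real.sqrt_pos.2 hp).ne'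
  have a1 : (u 0 * x 0 + u 1 * x 1) / √(rr u) = √(rr u) * cA u x := by
    rw [cA]
    generalize √(rr u) = r at r1 r2
    rw [← r1]
    field_simp
  refine ⟨((jet_ph u x x).div jr hr.ne').congr rfl ?_ ?_ ?_,
    ⟨_, (jc.div jr hr.ne').congr rfl ?_ ?_ rfl⟩, (jet_sqrt jr hr).congr rfl a1 a1 ?_,
    fun hs => ⟨_, (jet_sqrt js hs).congr rfl rfl rfl ?_⟩, ?_, ?_, ?_, ?_⟩
  · unfold cD cE dph ph ch rr
    field_simp
    ring
  · unfold cD cE dph ph ch rr
    field_simp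
    ring
  · unfold cA cD cF ddph dph ph ch rr
    field_simp
    ring
  · unfold cD cF ph rr
    field_simp
    ring
  · unfold cD cF ph rr
    field_simp
    ring
  · have : rr x * rr u - (u 0 * x 0 + u 1 * x 1) ^ 2 = (u 0 * x 1 - u 1 * x 0) ^ 2 := by
      unfold rr
      ring
    rw [this, cD]
    generalize √(rr u) = r at r1 r2
    rw [← r1]
    field_simp
  · rw [e2]
    unfold ss
    ring
  · rw [e1]
    refine (jet_sqrt jp hp).congr rfl rfl rfl ?_
    generalize √(pp u) = r at p1 p2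
    rw [← p1]
    field_simp
  · unfold cA cD rr
    field_simp
    ring
  · unfold cE cF ss rr
    field_simp
    ring
  · unfold ph ch ss rr
    field_simp
    ring

end Pool.Agent.P.MP_4a4b50_gt.Lam

/-! Step AB. -/

namespace Pool.Agent.P.MP_4a4b50_gt.Lam

open scoped ContDiff Topology
open Pool.Agent.P.MP_f97e06_gt (Eu)
open Matrix Set Filter Pool.Agent.P.MP_4a4b50_gt.CE

theorem ab_div {n : ℕ} {f g : Eu n → ℝ} {u x : Eu n} {v a c ρ N M p : ℝ}
    (hf : Jet f u x x v a a c) (hg : Jet g u x x ρ (N / ρ) (N / ρ) (M / ρ)) (hρ : 0 < ρ)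
    (hp : ρ ^ 2 = p) :
    fderiv ℝ (fun y => f y / g y) u x * ρ = a - v * (N / p) ∧
      (fderiv ℝ (fun y => f y / g y) u x = 0 →
        D2 (fun y => f y / g y) u x x * ρ = c - v / p * M) := by
  have h := hf.div hg hρ.ne'
  subst hp
  refine ⟨by rw [h.dx]; field_simp, fun h0 => ?_⟩
  rw [h.dx] at h0
  have ha : a = v * N / ρ ^ 2 := by
    field_simp at h0 ⊢
    linarith
  rw [h.dd, ha]
  field_simp
  ring

theorem ab_pp_pos {m : ℕ} {y : Eu (m + 4)} (h : 0 < ph y) : 0 < pp y :=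
  add_pos (pos_of_ph h).1 (pos_of_ph h).2

theorem ab_smooth {m : ℕ} {f : Eu (m + 4) → ℝ} (hf : ContDiff ℝ ∞ f) :
    ContDiffOn ℝ ∞ (fun y => f y / rr y / √(pp y)) (Om (ph : Eu (m + 4) → ℝ)) := by
  intro y hy
  have hy' : 0 < ph y := hy
  obtain ⟨-, -, h3, -, h5⟩ := contDiff_poly (m := m) (k := ∞)
  exact ((hf.contDiffAt.div h3.contDiffAt (pos_of_ph hy').1.ne').div
    (h5.contDiffAt.sqrt (ab_pp_pos hy').ne')
    (Real.sqrt_pos.2 (ab_pp_pos hy')).ne').contDiffWithinAt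

theorem ab_hom {m : ℕ} {f : Eu (m + 4) → ℝ} (hf : ∀ (t : ℝ) y, f (t • y) = t ^ 3 * f y) :
    Hom0 (fun y => f y / rr y / √(pp y)) := by
  intro t ht y
  obtain ⟨-, -, h3, -, h5⟩ := poly_smul t y
  change f (t • y) / rr (t • y) / √(pp (t • y)) = f y / rr y / √(pp y)
  rw [hf, h3, h5, Real.sqrt_mul (sq_nonneg t), Real.sqrt_sq ht.le, div_div, div_div,
    show t ^ 2 * rr y * (t * √(pp y)) = t ^ 3 * (rr y * √(pp y)) by ring,
    mul_div_mul_left _ _ (pow_pos ht 3).ne']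

theorem ab_eE {m : ℕ} {u : Eu (m + 4)} (h : 0 < rr u) : ∃ x, cA u x = 0 ∧ cD u x = 0 ∧
    cE u x = rr u ∧ cF u x = 0 := by
  refine ⟨mk4 m 0 0 (u 0 ^ 2 - u 1 ^ 2) (2 * u 0 * u 1), by simp [cA], by simp [cD], ?_, ?_⟩
  · rw [cE, div_eq_iff h.ne']
    simp only [mk4_two, mk4_three, rr]
    ring
  · rw [cF, div_eq_iff h.ne']
    simp only [mk4_two, mk4_three]
    ring

theorem ab_eF {m : ℕ} {u : Eu (m + 4)} (h : 0 < rr u) : ∃ x, cA u x = 0 ∧ cD u x = 0 ∧
    cE u x = 0 ∧ cF u x = rr u := by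
  refine ⟨mk4 m 0 0 (-(2 * u 0 * u 1)) (u 0 ^ 2 - u 1 ^ 2), by simp [cA], by simp [cD], ?_, ?_⟩
  · rw [cE, div_eq_iff h.ne']
    simp only [mk4_two, mk4_three]
    ring
  · rw [cF, div_eq_iff h.ne']
    simp only [mk4_two, mk4_three, rr]
    ring

theorem ab_alg {r s t p β : ℝ} (hr : 0 < r) (hp : p = r + (s ^ 2 + t ^ 2))
    (h1 : -(t * (s * r / p)) + β * (r - s * (s * r / p)) = 0)
    (h2 : r - t * (t * r / p) + β * -(s * (t * r / p)) = 0) : False := by
  have hp0 : 0 < p := by rw [hp]; positivity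
  have e1 : β * (p - s ^ 2) = s * t := by
    field_simp at h1
    rw [mul_zero] at h1
    linarith [(mul_eq_zero.1 h1).resolve_left hr.ne']
  have e2 : p - t ^ 2 = β * (s * t) := by
    field_simp at h2
    rw [mul_zero] at h2
    linarith [(mul_eq_zero.1 h2).resolve_left hr.ne']
  have e3 : (p - t ^ 2) * (p - s ^ 2) = (s * t) ^ 2 := by
    rw [e2]
    linear_combination (s * t) * e1
  have e4 : p * r = 0 := by
    have : r = p - s ^ 2 - t ^ 2 := by linarith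
    rw [this]
    linear_combination e3
  exact (mul_pos hp0 hr).ne' e4

theorem p_AB (hJET : S_JET) :
    S_AB := by
  intro m
  obtain ⟨c1, c2, -, -, -⟩ := contDiff_poly (m := m) (k := ∞)
  refine ⟨⟨ab_smooth c1, ab_hom fun t y => (poly_smul t y).1, fun g hg x _ => ?_⟩,
    ⟨ab_smooth c2, ab_hom fun t y => (poly_smul t y).2.1, fun g hg x _ => ?_⟩, fun u hu => ?_⟩
  · obtain ⟨h1, -, h3, h4⟩ := hg x
    simp only [fa, pp, h1, h3, h4, one_mul]
  · obtain ⟨-, h2, h3, h4⟩ := hg x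
    simp only [fb, pp, h2, h3, h4]
    ring
  have hr := (pos_of_ph hu).1
  have hp := ab_pp_pos hu
  have hρ : 0 < √(pp u) := Real.sqrt_pos.2 hp
  have key : ∀ x, fderiv ℝ fa u x * √(pp u) = cE u x + 2 * (ch u / rr u) * cD u x - ph u / rr u *
      ((rr u * cA u x + ph u / rr u * cE u x + ch u / rr u * cF u x) / pp u) ∧
    fderiv ℝ fb u x * √(pp u) = cF u x - 2 * (ph u / rr u) * cD u x - ch u / rr u *
      ((rr u * cA u x + ph u / rr u * cE u x + ch u / rr u * cF u x) / pp u) ∧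
    (fderiv ℝ fa u x = 0 → D2 fa u x x * √(pp u) =
      -4 * (ph u / rr u) * cD u x ^ 2 + 4 * cD u x * (cF u x - ch u / rr u * cA u x)
        - ph u / rr u / pp u *
          (pp x - (rr u * cA u x + ph u / rr u * cE u x + ch u / rr u * cF u x) ^ 2 / pp u)) := by
    intro x
    obtain ⟨j1, ⟨c, j2⟩, -, -, j5, -⟩ := hJET m u x hr
    have a1 := ab_div j1 j5 hρ (Real.sq_sqrt hp.le)
    have a2 := ab_div j2 j5 hρ (Real.sq_sqrt hp.le)
    exact ⟨a1.1, a2.1, a1.2⟩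
  have hs : pp u = rr u + ((ph u / rr u) ^ 2 + (ch u / rr u) ^ 2) := by
    rw [(hJET m u u hr).2.2.2.2.2.2.2, pp]
  obtain ⟨x, x1, x2, x3, x4⟩ := ab_eE hr
  obtain ⟨z, z1, z2, z3, z4⟩ := ab_eF hr
  obtain ⟨k1, k2, -⟩ := key x
  obtain ⟨k3, k4, -⟩ := key z
  simp only [x1, x2, x3, x4, z1, z2, z3, z4, mul_zero, add_zero, zero_add, sub_zero,
    zero_sub] at k1 k2 k3 k4
  refine ⟨fun h => ?_, fun β h => ?_, key⟩
  · rw [h, _root_.zero_apply, zero_mul] at k1
    have e1 : pp u - (ph u / rr u) ^ 2 = 0 := by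
      generalize ph u / rr u = s at k1
      field_simp at k1
      rw [zero_mul] at k1
      exact (mul_eq_zero.1 k1.symm).resolve_left hr.ne'
    nlinarith [sq_nonneg (ch u / rr u)]
  · have hx : (fderiv ℝ fb u x + β * fderiv ℝ fa u x) * √(pp u) = 0 := by
      have := DFunLike.congr_fun h x
      simp only [_root_.add_apply, _root_.smul_apply, smul_eq_mul,
        _root_.zero_apply] at this
      rw [this, zero_mul]
    have hz : (fderiv ℝ fb u z + β * fderiv ℝ fa u z) * √(pp u) = 0 := by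
      have := DFunLike.congr_fun h z
      simp only [_root_.add_apply, _root_.smul_apply, smul_eq_mul,
        _root_.zero_apply] at this
      rw [this, zero_mul]
    rw [add_mul, mul_assoc, k1, k2] at hx
    rw [add_mul, mul_assoc, k3, k4] at hz
    exact ab_alg hr hs hx hz

end Pool.Agent.P.MP_4a4b50_gt.Lam

/-! Step ADM. -/

namespace Pool.Agent.P.MP_4a4b50_gt.Lam

open scoped ContDiff Topology
open Pool.Agent.P.MP_f97e06_gt (Eu)
open Matrix Set Filter Pool.Agent.P.MP_4a4b50_gt.CE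

theorem p_ADM (hDIR : S_DIR) (hHZ : S_HZ) (hPRE : S_PRE) (hAB : S_AB) :
    S_ADM := by
  intro m u β hu hp
  obtain ⟨pa, pb, hab⟩ := hAB m
  obtain ⟨-, hne, hf⟩ := hab u hp
  have hP := hPRE m
  have hpos := hP.h_pos u hu
  obtain ⟨r0, s0⟩ := pos_of_ph hp
  have q0 : 0 < √(pp u) := Real.sqrt_pos.2 (add_pos r0 s0)
  obtain ⟨a1, -, a3, -⟩ := hDIR _ h0 fa u hpos
  obtain ⟨b1, -, b3, -⟩ := hDIR _ h0 fb u hpos
  have hc : ContDiffAt ℝ 2 (h0 : Eu (m + 4) → ℝ) u :=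
    (hP.h_at (ne_zero_of_unit hu)).of_le (WithTop.coe_le_coe.2 (le_top : (2 : ℕ∞) ≤ ⊤))
  have a4 := a3 hu hP.h_hom hc pa.hom
    ((pa.smooth.contDiffAt (hP.isOpen.mem_nhds hp)).differentiableAt (by simp))
  have b4 := b3 hu hP.h_hom hc pb.hom
    ((pb.smooth.contDiffAt (hP.isOpen.mem_nhds hp)).differentiableAt (by simp))
  set x := dir h0 fb u + β • dir h0 fa u with hx
  have perp : inner ℝ u x = 0 := by rw [hx, inner_add_right, inner_smul_right, a4, b4]; simp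
  have key : ∀ e, D2 h0 u x e + inner ℝ u x * inner ℝ u e =
      fderiv ℝ fb u e + β * fderiv ℝ fa u e := fun e => by
    rw [← a1 e, ← b1 e, perp, a4, b4, hx]
    simp
  have key2 : ∀ e, cE u e + 2 * (ch u / rr u) * cD u e = 0 → cF u e - 2 * (ph u / rr u) * cD u e = 0 →
      rr u * cA u e + ph u / rr u * cE u e + ch u / rr u * cF u e = 0 →
      (1 + 1 / 25 * ph u) * inner ℝ x e - 1 / 50 * ddph u x e
        + 1 / 25 * (dph u x * inner ℝ u e) = 0 := fun e h1 h2 h3 => by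
    obtain ⟨c1, c2, -⟩ := hf e
    rw [h1, h3, zero_div, mul_zero, sub_zero, mul_eq_zero_iff_right q0.ne'] at c1
    rw [h2, h3, zero_div, mul_zero, sub_zero, mul_eq_zero_iff_right q0.ne'] at c2
    have c3 := (hHZ m).2.2.2 u x e hu
    rw [key e, c1, c2, perp] at c3
    linarith
  refine ⟨⟨perp, ?_, fun j => ?_⟩, ?_⟩
  · have e1 : cA u (mk4 m (-u 1) (u 0) (-2 * u 3) (2 * u 2)) = 0 := by
      simp only [cA, mk4_zero, mk4_one]; ring
    have e2 : cD u (mk4 m (-u 1) (u 0) (-2 * u 3) (2 * u 2)) = 1 := by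
      rw [cD, div_eq_one_iff_eq r0.ne']; simp only [rr, mk4_zero, mk4_one]; ring
    have e3 : cE u (mk4 m (-u 1) (u 0) (-2 * u 3) (2 * u 2)) = -2 * (ch u / rr u) := by
      simp only [cE, ch, mk4_two, mk4_three]; ring
    have e4 : cF u (mk4 m (-u 1) (u 0) (-2 * u 3) (2 * u 2)) = 2 * (ph u / rr u) := by
      simp only [cF, ph, mk4_two, mk4_three]; ring
    have e5 := key2 _ (by rw [e2, e3]; ring) (by rw [e2, e4]; ring) (by rw [e1, e3, e4]; ring)
    have e6 : inner ℝ u (mk4 m (-u 1) (u 0) (-2 * u 3) (2 * u 2)) = 0 := by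
      simp only [inner_split, mk4_zero, mk4_one, mk4_two, mk4_three, mk4_tl, mul_zero,
        Finset.sum_const_zero]
      ring
    have e7 : inner ℝ x (mk4 m (-u 1) (u 0) (-2 * u 3) (2 * u 2)) =
        rr u * cD u x + 2 * (cF u x * (ph u / rr u) - cE u x * (ch u / rr u)) := by
      simp only [inner_split, mk4_zero, mk4_one, mk4_two, mk4_three, mk4_tl, mul_zero,
        Finset.sum_const_zero, cD, cE, cF]
      field_simp
      simp only [ph, ch, rr]
      ring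
    have e8 : ddph u x (mk4 m (-u 1) (u 0) (-2 * u 3) (2 * u 2)) =
        2 * rr u * (cD u x * (ph u / rr u) + cF u x - cA u x * (ch u / rr u)) := by
      simp only [ddph, mk4_zero, mk4_one, mk4_two, mk4_three, cA, cD, cF]
      field_simp
      simp only [ph, ch, rr]
      ring
    rw [e6, e7, e8] at e5
    linarith
  · obtain ⟨t0, t1, t2, t3⟩ := single_tl j
    have e5 := key2 (EuclideanSpace.single (tl j) 1) (by simp only [cE, cD, t0, t1, t2, t3]; simp)
      (by simp only [cF, cD, t0, t1, t2, t3]; simp)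
      (by simp only [cA, cE, cF, t0, t1, t2, t3]; simp)
    have e6 : ddph u x (EuclideanSpace.single (tl j) 1) = 0 := by
      simp only [ddph, t0, t1, t2, t3]; simp
    rw [e6, EuclideanSpace.inner_single_right, EuclideanSpace.inner_single_right] at e5
    simp only [conj_trivial, one_mul] at e5
    linarith
  · rw [← key x, ← hatM_form]
    refine cm_pos hpos fun h => hne β ?_
    have hx0 : x = 0 := by ext i; exact congrFun h i
    ext e
    have := key e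
    rw [hx0] at this
    simpa using this.symm

end Pool.Agent.P.MP_4a4b50_gt.Lam
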