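import Pool.Agent.P.MP_4a4b50_gt.Lam.Iface

set_option autoImplicit false

/-! Step PA. -/

namespace Pool.Agent.P.MP_4a4b50_gt.Lam

open scoped ContDiff Topology
open Pool.Agent.P.MP_f97e06_gt (Eu)
open Matrix Set Filter Pool.Agent.P.MP_4a4b50_gt.CE

theorem pa_nu {r s T k ν R : ℝ} (hr : 0 < r) (hs : 0 < s) (hs1 : s ≤ 1 / 1000) (ht : 0 ≤ T)
    (hR : R = r + T) (hR1 : 49 / 100 ≤ R) (hR2 : R ≤ 1) (hk1 : 1 / 52 ≤ k) (hk2 : k ≤ 1 / 50)
    (hν : ν * ((r + 4 * T - 2 * k * r * s) * R + 4 * s ^ 2 * T) = 2 * (k * R - s)) :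
    1 / 200 ≤ ν ∧ ν ≤ 1 / 10 := by
  have hks : k * s ≤ 1 / 50000 := by nlinarith
  have hks0 : 0 ≤ k * s := by positivity
  have hR0 : 0 < R := by linarith
  have a0 : r * (k * s) ≤ r * (1 / 50000) := mul_le_mul_of_nonneg_left hks hr.le
  have a0' : 0 ≤ r * (k * s) := by positivity
  have a1 : 2 / 5 ≤ r + 4 * T - 2 * k * r * s := by linarith
  have a2 : r + 4 * T - 2 * k * r * s ≤ 4 := by linarith
  have a3 : 0 ≤ s ^ 2 * T := by positivity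
  have a4 : s ^ 2 ≤ 1 / 10 ^ 6 := by nlinarith
  have a5 : s ^ 2 * T ≤ 1 / 10 ^ 6 * 1 := mul_le_mul a4 (by linarith) ht (by norm_num)
  have a6 := mul_le_mul_of_nonneg_right a1 hR0.le
  have a7 := mul_le_mul_of_nonneg_right a2 hR0.le
  have a8 := mul_le_mul_of_nonneg_right hk1 hR0.le
  have a9 := mul_le_mul_of_nonneg_right hk2 hR0.le
  obtain ⟨Dl, hD⟩ : ∃ Dl, Dl = (r + 4 * T - 2 * k * r * s) * R + 4 * s ^ 2 * T := ⟨_, rfl⟩
  rw [← hD] at hν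
  have d1 : 2 / 5 * R ≤ Dl := by linarith
  have d2 : Dl ≤ 5 * R := by linarith
  have d0 : 0 < Dl := by linarith
  constructor
  · by_contra hc
    have : ν * Dl ≤ 1 / 200 * Dl := mul_le_mul_of_nonneg_right (le_of_not_ge hc) d0.le
    linarith
  · by_contra hc
    have : 1 / 10 * Dl ≤ ν * Dl := mul_le_mul_of_nonneg_right (le_of_not_ge hc) d0.le
    linarith

theorem pa_f {f R x : ℝ} (hR1 : 49 / 100 ≤ R) (hR2 : R ≤ 1) (hx : 0 ≤ x) (hx1 : x ≤ 1 / 5000)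
    (hf : f * R = 1 + x) : 1 ≤ f ∧ f ^ 2 * R ≤ 22 / 10 := by
  have f4 : 1 ≤ f := by
    by_contra hc
    nlinarith
  have f3 : f ≤ 21 / 10 := by
    by_contra hc
    nlinarith
  refine ⟨f4, ?_⟩
  have e : f ^ 2 * R = (1 + x) * f := by rw [← hf]; ring
  rw [e]
  nlinarith

/-- the inequality after normalising by `P` and `r` -/
theorem pa_core {r s τ k ν f R : ℝ} (hr : 0 < r) (hs : 0 < s) (hs1 : s ≤ 1 / 1000)
    (hR : R = r + τ ^ 2) (hR1 : 49 / 100 ≤ R) (hR2 : R ≤ 1) (hk1 : 1 / 52 ≤ k) (hk2 : k ≤ 1 / 50)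
    (hν : ν * ((r + 4 * τ ^ 2 - 2 * k * r * s) * R + 4 * s ^ 2 * τ ^ 2) = 2 * (k * R - s))
    (hf : f * R = 1 + 2 * s * τ ^ 2 * ν) :
    s * (τ ^ 2 * (2 * s * ν - f) ^ 2 + r * (r * ν ^ 2 + 4 * τ ^ 2 * ν ^ 2 + f ^ 2)) <
      1 / 2 * (4 * ν * (1 - s * r * ν)) := by
  have ht : 0 ≤ τ ^ 2 := sq_nonneg τ
  obtain ⟨n1, n2⟩ := pa_nu hr hs hs1 ht hR hR1 hR2 hk1 hk2 hν
  clear hν hk1 hk2
  generalize τ ^ 2 = T at *
  have hr1 : r ≤ 1 := by linarith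
  have n0 : 0 < ν := by linarith
  have sν : s * ν ≤ 1 / 1000 * (1 / 10) := mul_le_mul hs1 n2 n0.le (by norm_num)
  have sν0 : 0 ≤ s * ν := by positivity
  have x1 : s * ν * T ≤ 1 / 1000 * (1 / 10) * 1 := mul_le_mul sν (by linarith) ht (by norm_num)
  obtain ⟨f4, b3⟩ := pa_f (x := 2 * s * T * ν) hR1 hR2 (by positivity) (by linarith) hf
  have b1 : (2 * s * ν - f) ^ 2 ≤ f ^ 2 := by
    rw [sq_le_sq, abs_of_nonneg (by linarith : 0 ≤ f), abs_le]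
    constructor <;> linarith
  have b2 : T * (2 * s * ν - f) ^ 2 ≤ T * f ^ 2 := mul_le_mul_of_nonneg_left b1 ht
  have b4 : ν ^ 2 ≤ (1 / 10) ^ 2 := pow_le_pow_left₀ n0.le n2 2
  have b5 : (r + 4 * T) * ν ^ 2 ≤ 4 * (1 / 10) ^ 2 :=
    mul_le_mul (by linarith) b4 (by positivity) (by norm_num)
  have b6 : r * ((r + 4 * T) * ν ^ 2) ≤ 1 * (4 * (1 / 10) ^ 2) :=
    mul_le_mul hr1 b5 (by positivity) (by norm_num)
  rw [hR] at b3
  have b7 : T * (2 * s * ν - f) ^ 2 + r * (r * ν ^ 2 + 4 * T * ν ^ 2 + f ^ 2) ≤ 3 := by linarith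
  have b8 : s * ν * r ≤ 1 / 1000 * (1 / 10) * 1 := mul_le_mul sν hr1 hr.le (by norm_num)
  have b9 := mul_le_mul_of_nonneg_left b7 hs.le
  have b10 := mul_le_mul_of_nonneg_left b8 n0.le
  linarith

theorem p_PA :
    S_PA := by
  intro r s τ A D E F g p hr hs hp hp1 hp2 hsp h1 h2 h3 h4
  obtain ⟨A', rfl⟩ : ∃ A', A = A' + g := ⟨A - g, by ring⟩
  obtain ⟨E', rfl⟩ : ∃ E', E = E' + g * s := ⟨E - g * s, by ring⟩
  obtain ⟨F', rfl⟩ : ∃ F', F = F' + g * τ := ⟨F - g * τ, by ring⟩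
  have e1 : r * A' + s * E' + τ * F' = 0 := by linear_combination h1 + g * hp
  obtain rfl : E' = -2 * τ * D := by linarith
  have hs2 : s ^ 2 ≤ (1 / 1000) ^ 2 := by linarith
  have hs1 : s ≤ 1 / 1000 := (abs_le_of_sq_le_sq' hs2 (by norm_num)).2
  have ht : 0 ≤ τ ^ 2 := sq_nonneg τ
  have hs0 : 0 ≤ s ^ 2 := sq_nonneg s
  have hr1 : r ≤ 1 := by linarith
  have hrs : 0 < r * s := mul_pos hr hs
  have hrs1 : r * s ≤ 1 * 1 := mul_le_mul hr1 (by linarith) hs.le (by norm_num)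
  have hden : 0 < 1 + 1 / 25 * (r * s) := by linarith
  obtain ⟨k, hk⟩ : ∃ k, k * (1 + 1 / 25 * (r * s)) = 1 / 50 :=
    ⟨1 / 50 / (1 + 1 / 25 * (r * s)), by field_simp⟩
  have hk0 : 0 < k := (mul_pos_iff_of_pos_right hden).1 (by rw [hk]; norm_num)
  have hk3 := mul_le_mul_of_nonneg_left hrs1 hk0.le
  have hk4 := mul_pos hk0 hrs
  have hk1 : 1 / 52 ≤ k := by linarith
  have hk2 : k ≤ 1 / 50 := by linarith
  have e2 : r * D + 2 * (F' * s + 2 * τ ^ 2 * D) = 2 * k * r * (D * s + F' - A' * τ) := by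
    apply mul_left_cancel₀ hden.ne'
    linear_combination h2 - 2 * r * (D * s + F' - A' * τ) * hk
  obtain ⟨R, hR⟩ : ∃ R, R = r + τ ^ 2 := ⟨_, rfl⟩
  have hR1 : 49 / 100 ≤ R := by linarith
  have hR2 : R ≤ 1 := by linarith
  have hR0 : 0 < R := by linarith
  have hD : 0 < (r + 4 * τ ^ 2 - 2 * k * r * s) * R + 4 * s ^ 2 * τ ^ 2 := by
    have a1 : k * s ≤ 1 / 50 * (1 / 1000) := mul_le_mul hk2 hs1 hs.le (by norm_num)
    have a2 := mul_le_mul_of_nonneg_left a1 hr.le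
    have : 0 < r + 4 * τ ^ 2 - 2 * k * r * s := by linarith
    positivity
  obtain ⟨ν, hν⟩ : ∃ ν, ν * ((r + 4 * τ ^ 2 - 2 * k * r * s) * R + 4 * s ^ 2 * τ ^ 2) =
      2 * (k * R - s) := ⟨_, div_mul_cancel₀ _ hD.ne'⟩
  obtain ⟨f, hf⟩ : ∃ f, f * R = 1 + 2 * s * τ ^ 2 * ν := ⟨_, div_mul_cancel₀ _ hR0.ne'⟩
  obtain ⟨P, hP⟩ : ∃ P, P = F' - τ * A' := ⟨_, rfl⟩
  have e3 : F' * R = r * P + 2 * s * τ ^ 2 * D := by
    rw [hP, hR]
    linear_combination τ * e1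
  have e4 : D = r * ν * P := by
    apply mul_right_cancel₀ hD.ne'
    have : D * (r + 4 * τ ^ 2 - 2 * k * r * s) = 2 * k * r * P - 2 * s * F' := by
      rw [hP]
      linear_combination e2
    linear_combination R * this - 2 * s * e3 - r * P * hν
  have e5 : F' = r * f * P := by
    apply mul_right_cancel₀ hR0.ne'
    linear_combination e3 - r * P * hf + 2 * s * τ ^ 2 * e4
  have e6 : A' = τ * (2 * s * ν - f) * P := by
    apply mul_left_cancel₀ hr.ne'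
    linear_combination e1 + 2 * s * τ * e4 - τ * e5
  have hP0 : P ≠ 0 := by
    rintro rfl
    rw [e4, e5] at h4
    linarith
  have hc := pa_core hr hs hs1 hR hR1 hR2 hk1 hk2 hν hf
  have hpos : 0 < r * P ^ 2 := by positivity
  have l1 : s * (r * ((A' + g) ^ 2 + D ^ 2) + ((-2 * τ * D + g * s) ^ 2 + (F' + g * τ) ^ 2)
      - g ^ 2 * p) = r * P ^ 2 * (s * (τ ^ 2 * (2 * s * ν - f) ^ 2 +
        r * (r * ν ^ 2 + 4 * τ ^ 2 * ν ^ 2 + f ^ 2))) := by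
    have : r * ((A' + g) ^ 2 + D ^ 2) + ((-2 * τ * D + g * s) ^ 2 + (F' + g * τ) ^ 2)
        - g ^ 2 * p = r * (A' ^ 2 + D ^ 2) + (4 * τ ^ 2 * D ^ 2 + F' ^ 2) := by
      linear_combination 2 * g * e1 - g ^ 2 * hp
    rw [this, e4, e5, e6]
    ring
  have l2 : -4 * s * D ^ 2 + 4 * D * (F' + g * τ - τ * (A' + g)) =
      r * P ^ 2 * (4 * ν * (1 - s * r * ν)) := by
    have : F' + g * τ - τ * (A' + g) = P := by rw [hP]; ring
    rw [this, e4]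
    ring
  have l3 : 0 ≤ s * (τ ^ 2 * (2 * s * ν - f) ^ 2 + r * (r * ν ^ 2 + 4 * τ ^ 2 * ν ^ 2 + f ^ 2)) := by
    positivity
  rw [l1, l2]
  have l4 := mul_lt_mul_of_pos_left hc hpos
  have l5 : 0 ≤ r * P ^ 2 * (4 * ν * (1 - s * r * ν)) := mul_nonneg hpos.le (by linarith)
  have l6 := mul_le_mul_of_nonneg_right hp1 l5
  linarith

end Pool.Agent.P.MP_4a4b50_gt.Lam

/-! Step PC. -/

namespace Pool.Agent.P.MP_4a4b50_gt.Lam

open scoped ContDiff Topology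
open Pool.Agent.P.MP_f97e06_gt (Eu)
open Matrix Set Filter Pool.Agent.P.MP_4a4b50_gt.CE

theorem p_PC (hJET : S_JET) (hAB : S_AB) (hPA : S_PA) :
    S_PC := by
  rintro m u ⟨h1, h2, h3, h4⟩ ha x hx hd hb
  have hr : 0 < rr u := lt_of_lt_of_le (by positivity) h3
  have hp : 0 < pp u := by linarith
  have hρ : 0 < √(pp u) := Real.sqrt_pos.2 hp
  have hph : 0 < ph u := lt_of_lt_of_le (by positivity) h2
  have hp1 : pp u ≤ 1 := by simpa [h1] using pp_le u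
  obtain ⟨-, -, -, -, -, j1, j2, j3⟩ := hJET m u x hr
  obtain ⟨b1, b2, b3⟩ := ((hAB m).2.2 u hph).2.2 x
  have b4 := b3 hd
  have rot := hx.rot
  have hs : (ph u / rr u) ^ 2 = pp u / 10 ^ 6 := by
    have : ph u / rr u = 1 / 1000 * √(pp u) := (div_eq_iff hρ.ne').1 ha
    rw [this, mul_pow, Real.sq_sqrt hp.le]
    ring
  have e : ph u = rr u * (ph u / rr u) := (mul_div_cancel₀ _ hr.ne').symm
  have hpx : pp x = rr u * (cA u x ^ 2 + cD u x ^ 2) + (cE u x ^ 2 + cF u x ^ 2) := by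
    rw [pp, j1, j2]
  have hs0 : 0 < ph u / rr u := div_pos hph hr
  have hpu : pp u = rr u + (ph u / rr u) ^ 2 + (ch u / rr u) ^ 2 := by
    rw [pp, ← j3, add_assoc]
  have hb' := mul_pos hb hρ
  rw [hd, zero_mul] at b1
  rw [b2] at hb'
  generalize ph u / rr u = s at *
  obtain ⟨g, hg⟩ : ∃ g, rr u * cA u x + s * cE u x + ch u / rr u * cF u x = g * pp u :=
    ⟨_, (div_mul_cancel₀ _ hp.ne').symm⟩
  rw [hg, mul_div_cancel_right₀ _ hp.ne'] at b1 hb'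
  rw [hg, hpx] at b4
  have := hPA _ s _ _ _ _ _ g _ hr hs0 hpu h4 hp1 hs hg (e ▸ rot) (by linarith) hb'
  refine (mul_pos_iff_of_pos_right hρ).1 ((mul_pos_iff_of_pos_right hp).1 ?_)
  rw [b4]
  generalize ch u / rr u = τ at *
  field_simp
  linarith

end Pool.Agent.P.MP_4a4b50_gt.Lam

/-! Step QB. -/

namespace Pool.Agent.P.MP_4a4b50_gt.Lam

open scoped ContDiff Topology
open Pool.Agent.P.MP_f97e06_gt (Eu)
open Matrix Set Filter Pool.Agent.P.MP_4a4b50_gt.CE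

theorem qb_real {η s A B β X : ℝ} (hη : 0 < η) (hs : η / 2 ≤ s)
    (h : A - 2 * β * B + β ^ 2 * s ^ 2 = η ^ 2 * (X + β ^ 2)) (hβ : β ^ 2 ≤ X / 2) :
    2 * A / (2 * s) - 2 * B * (2 * B) / (4 * s ^ 3) ≤ 3 * η * X := by
  have s0 : 0 < s := by linarith
  have x0 : 0 ≤ X := by nlinarith [sq_nonneg β]
  have e : 2 * A / (2 * s) - 2 * B * (2 * B) / (4 * s ^ 3) = (A * s ^ 2 - B ^ 2) / s ^ 3 := by
    field_simp
    ring
  have h1 : A * s ^ 2 - B ^ 2 ≤ s ^ 2 * (η ^ 2 * (X + β ^ 2)) := by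
    rw [← h]
    nlinarith [sq_nonneg (β * s ^ 2 - B)]
  have h2 : η ^ 2 * (X + β ^ 2) ≤ η * (2 * s) * (3 / 2 * X) := by
    rw [sq η]
    exact mul_le_mul (mul_le_mul_of_nonneg_left (by linarith) hη.le) (by linarith)
      (by positivity) (by positivity)
  rw [e, div_le_iff₀ (by positivity)]
  nlinarith [mul_le_mul_of_nonneg_left h2 (sq_nonneg s)]

theorem qb_pp {m : ℕ} (u x : Eu (m + 4)) : Jet pp u x x (pp u)
    (2 * (u 0 * x 0 + u 1 * x 1 + u 2 * x 2 + u 3 * x 3))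
    (2 * (u 0 * x 0 + u 1 * x 1 + u 2 * x 2 + u 3 * x 3)) (2 * pp x) := by
  have c := fun i => Jet.coord i u x x
  exact (((c 0).sq.add (c 1).sq).add ((c 2).sq.add (c 3).sq)).congr rfl (by ring) (by ring)
    (by simp only [pp, rr, ss]; ring)

theorem qb_main {m : ℕ} {η β : ℝ} (hη : 0 < η) (h1 : η ≤ 1) {u x : Eu (m + 4)} (hu : ‖u‖ = 1)
    (hp : 1 / 2 ≤ pp u) (hx : inner ℝ u x = 0) (ht : ∀ j, x (tl j) = β * u (tl j))
    (hβ : β ^ 2 ≤ ‖x‖ ^ 2 / 2) : ∃ a c, Jet (fun y => √(‖y‖ ^ 2 - (1 - η ^ 2) * pp y)) u x x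
      √(‖u‖ ^ 2 - (1 - η ^ 2) * pp u) a a c ∧ c ≤ 3 * η * ‖x‖ ^ 2 := by
  have e1 := norm_sq_split u
  have e2 := norm_sq_split x
  have e3 := inner_split u x
  have s2 : ∑ j, x (tl j) ^ 2 = β ^ 2 * ∑ j, u (tl j) ^ 2 := by
    rw [Finset.mul_sum]
    exact Finset.sum_congr rfl fun j _ => by rw [ht]; ring
  have s3 : ∑ j, u (tl j) * x (tl j) = β * ∑ j, u (tl j) ^ 2 := by
    rw [Finset.mul_sum]
    exact Finset.sum_congr rfl fun j _ => by rw [ht]; ring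
  have p1 := pp_le u
  rw [hu] at e1 p1
  rw [s2] at e2
  rw [s3, hx] at e3
  have v1 : (η / 2) ^ 2 ≤ ‖u‖ ^ 2 - (1 - η ^ 2) * pp u := by
    rw [hu]
    nlinarith [mul_le_mul_of_nonneg_left hp (sq_nonneg η), sq_nonneg η]
  have v0 : 0 < ‖u‖ ^ 2 - (1 - η ^ 2) * pp u := lt_of_lt_of_le (by positivity) v1
  have J := (((Jet.norm hu x x).sq.sub ((qb_pp u x).const_mul (1 - η ^ 2))).congr
    (v' := ‖u‖ ^ 2 - (1 - η ^ 2) * pp u)
    (a' := 2 * (-(1 - η ^ 2) * (u 0 * x 0 + u 1 * x 1 + u 2 * x 2 + u 3 * x 3)))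
    (b' := 2 * (-(1 - η ^ 2) * (u 0 * x 0 + u 1 * x 1 + u 2 * x 2 + u 3 * x 3)))
    (c' := 2 * (‖x‖ ^ 2 - (1 - η ^ 2) * pp x)) (by rw [hu]) (by rw [hx]; ring) (by rw [hx]; ring)
    (by rw [hx, real_inner_self_eq_norm_sq]; ring)).sqrt v0
  refine ⟨_, _, J, qb_real (β := β) hη (Real.le_sqrt_of_sq_le v1) ?_ hβ⟩
  rw [Real.sq_sqrt v0.le, hu]
  linear_combination (1 - η ^ 2) * e2 - 2 * β * (1 - η ^ 2) * e3 + β ^ 2 * (1 - η ^ 2) * e1

theorem p_QB (hPB : S_PB) :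
    S_QB := by
  intro m u hu x hx
  obtain ⟨h1, h2, h3, h4⟩ := hu
  have r0 : 0 ≤ rr u := le_trans (by positivity) h3
  have f0 : 0 ≤ ph u := le_trans (by positivity) h2
  have d := abs_le.1 (hPB m u x h1).2.1
  have g0 : 0 < 1 + 1 / 25 * ph u := by positivity
  obtain ⟨a, c, J, hc⟩ := qb_main (η := 1 / 10 ^ 24)
    (β := -(1 / 25 * dph u x) / (1 + 1 / 25 * ph u)) (by positivity) (by norm_num) h1 h4 hx.perp
    (fun j => by rw [div_mul_eq_mul_div, eq_div_iff g0.ne', mul_comm, hx.tail j]) (by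
      have a1 : dph u x ^ 2 ≤ (3 * ‖x‖) ^ 2 := sq_le_sq' d.1 d.2
      have a2 : 1 ≤ (1 + 1 / 25 * ph u) ^ 2 := one_le_pow₀ (by linarith)
      rw [div_pow, div_le_iff₀ (by positivity)]
      nlinarith [mul_le_mul_of_nonneg_left a2 (sq_nonneg ‖x‖), sq_nonneg ‖x‖])
  exact ⟨a, c, J, hc.trans_eq (by ring)⟩

end Pool.Agent.P.MP_4a4b50_gt.Lam

/-! Step WA. -/

namespace Pool.Agent.P.MP_4a4b50_gt.Lam

open scoped ContDiff Topology
open Pool.Agent.P.MP_f97e06_gt (Eu)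
open Matrix Set Filter Pool.Agent.P.MP_4a4b50_gt.CE

theorem wa_mul {a s N : ℝ} (ha : |a| ≤ N) (hs : |s| ≤ 1) : |a * s| ≤ N := by
  rw [abs_mul]
  exact (mul_le_of_le_one_right (abs_nonneg _) hs).trans ha

theorem wa_J {r s t A D E F J p N : ℝ} (hr0 : 0 ≤ r) (hr : r ≤ 1 / 5) (hs : s ^ 2 + t ^ 2 ≤ 1)
    (hp : 0 ≤ p) (hN0 : 0 ≤ N) (hN : r ^ 2 * (A ^ 2 + D ^ 2) + (E ^ 2 + F ^ 2) ≤ N ^ 2)
    (rot : (1 + 1 / 25 * p) * (r ^ 2 * D + 2 * J) = 1 / 25 * r ^ 2 * (D * s + F - A * t)) :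
    J ^ 2 ≤ N ^ 2 / 64 := by
  have q1 := sq_nonneg (r * A)
  have q2 := sq_nonneg (r * D)
  have q3 := sq_nonneg E
  have q4 := sq_nonneg F
  have e0 : r ^ 2 * (A ^ 2 + D ^ 2) = (r * A) ^ 2 + (r * D) ^ 2 := by ring
  have ha : |r * A| ≤ N := abs_le_of_sq_le_sq (by linarith) hN0
  have hd : |r * D| ≤ N := abs_le_of_sq_le_sq (by linarith) hN0
  have hF : |F| ≤ N := abs_le_of_sq_le_sq (by linarith) hN0
  have h1 : |s| ≤ 1 := abs_le_of_sq_le_sq (by linarith [sq_nonneg t]) zero_le_one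
  have h2 : |t| ≤ 1 := abs_le_of_sq_le_sq (by linarith [sq_nonneg s]) zero_le_one
  have h3 : |r| ≤ 1 := by rw [abs_of_nonneg hr0]; linarith
  have b1 := abs_le.1 (wa_mul hd h1)
  have b2 := abs_le.1 (wa_mul hF h3)
  have b3 := abs_le.1 (wa_mul ha h2)
  have b4 : |r * D * s + F * r - r * A * t| ≤ 3 * N := abs_le.2 ⟨by linarith, by linarith⟩
  have b5 : |r ^ 2 * D + 2 * J| ≤ 1 / 25 * (1 / 5) * (3 * N) := by
    have c1 : |r ^ 2 * D + 2 * J| ≤ |(1 + 1 / 25 * p) * (r ^ 2 * D + 2 * J)| := by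
      rw [abs_mul, abs_of_nonneg (show 0 ≤ 1 + 1 / 25 * p by positivity)]
      exact le_mul_of_one_le_left (abs_nonneg _) (by linarith)
    have c2 : 1 / 25 * r ^ 2 * (D * s + F - A * t) =
        1 / 25 * r * (r * D * s + F * r - r * A * t) := by ring
    rw [rot, c2, abs_mul, abs_of_nonneg (show 0 ≤ 1 / 25 * r by positivity)] at c1
    exact c1.trans (mul_le_mul (by linarith) b4 (abs_nonneg _) (by norm_num))
  have b6 : |r ^ 2 * D| ≤ 1 / 5 * N := by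
    have c2 : r ^ 2 * D = r * (r * D) := by ring
    rw [c2, abs_mul, abs_of_nonneg hr0]
    exact mul_le_mul hr hd (abs_nonneg _) (by norm_num)
  have b7 := abs_le.1 b5
  have b8 := abs_le.1 b6
  have b9 : J ^ 2 ≤ (N / 8) ^ 2 := sq_le_sq' (by linarith) (by linarith)
  linarith [show (N / 8) ^ 2 = N ^ 2 / 64 by ring]

theorem p_WA (hJET : S_JET) (hQB : S_QB) :
    S_WA := by
  intro m u hu x hx hx0
  obtain ⟨hC, -, hact⟩ := hu
  obtain ⟨a, c, jQ, hc⟩ := hQB m u hC x hx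
  obtain ⟨hn, hph, hrr, hpp⟩ := hC
  have hr0 : 0 < rr u := lt_of_lt_of_le (by positivity) hrr
  have hp0 : 0 < pp u := lt_of_lt_of_le (by norm_num) hpp
  have hph0 : 0 < ph u := lt_of_lt_of_le (by have := Real.sqrt_pos.2 hp0; positivity) hph
  have hs0 : 0 < ss u := (pos_of_ph hph0).2
  obtain ⟨-, -, jr, js, -, e1, e2, e3⟩ := hJET m u x hr0
  obtain ⟨b, js⟩ := js hs0
  have hp1 : pp u ≤ 1 := by simpa [hn] using pp_le u
  have hpe : pp u = rr u + ss u := rfl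
  have hs1 : (ph u / rr u) ^ 2 + (ch u / rr u) ^ 2 ≤ 1 := by linarith
  have hs2 : ph u / rr u ≤ 1 :=
    (abs_le.1 (abs_le_of_sq_le_sq (by linarith [sq_nonneg (ch u / rr u)]) zero_le_one)).2
  have hw0 : 0 < √(ss u) := Real.sqrt_pos.2 hs0
  have hr5 : √(rr u) ≤ 1 / 5 := by
    have := hact false
    simp only [om] at this
    linarith
  have er : √(rr u) ^ 2 = rr u := Real.sq_sqrt hr0.le
  have hr6 : rr u ≤ 1 / 25 := by
    rw [← er]
    exact (pow_le_pow_left₀ (Real.sqrt_nonneg _) hr5 2).trans (by norm_num)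
  have hw : 2 / 3 ≤ √(ss u) := Real.le_sqrt_of_sq_le (by linarith)
  have hw3 : (2 / 3) ^ 3 ≤ √(ss u) ^ 3 := pow_le_pow_left₀ (by norm_num) hw 3
  have hpx : pp x = rr x + ss x := rfl
  have hJ := wa_J (r := √(rr u)) (s := ph u / rr u) (t := ch u / rr u) (A := cA u x)
    (D := cD u x) (E := cE u x) (F := cF u x) (p := ph u) (N := ‖x‖)
    (J := cF u x * (ph u / rr u) - cE u x * (ch u / rr u)) (Real.sqrt_nonneg _) hr5 hs1 hph0.le
    (norm_nonneg _) (by rw [er, ← e1, ← e2]; exact pp_le x) (by rw [er]; exact hx.rot)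
  have hN : 0 < ‖x‖ ^ 2 := pow_pos (norm_pos_iff.2 hx0) 2
  have hJ2 : (cF u x * (ph u / rr u) - cE u x * (ch u / rr u)) ^ 2 / √(ss u) ^ 3 ≤ ‖x‖ ^ 2 / 4 := by
    rw [div_le_iff₀ (by positivity)]
    nlinarith
  have jn := Jet.norm hn x x
  have j := ((jr.add (((jn.const_mul (1 / 2)).sub js).const_mul (1 / 10 ^ 22))).sub
    (jQ.const_mul 2)).dd
  have e4 : D2 (om true) u x x = _ := j
  rw [e4, hx.perp, real_inner_self_eq_norm_sq]
  have q : 0 ≤ √(rr u) * cD u x ^ 2 := by positivity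
  linarith

end Pool.Agent.P.MP_4a4b50_gt.Lam

/-! Step WB. -/

namespace Pool.Agent.P.MP_4a4b50_gt.Lam

open scoped ContDiff Topology
open Pool.Agent.P.MP_f97e06_gt (Eu)
open Matrix Set Filter Pool.Agent.P.MP_4a4b50_gt.CE

theorem wb_core (r s t D A E F N c : ℝ) (hr : 1 / 20000 ≤ r) (hs : 0 ≤ s) (ht : t ^ 2 ≤ 1)
    (hN : 0 < N) (hx : r ^ 2 * (A ^ 2 + D ^ 2) + (E ^ 2 + F ^ 2) ≤ N)
    (hc : c ≤ 3 / 10 ^ 24 * N) :
    0 < r * D ^ 2 + 1 / 10 ^ 22 * (1 / 2 * N + 40000 * (r * D ^ 2)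
      - 8000 * (-4 * s * D ^ 2 + 4 * D * (F - t * A))) - 2 * c := by
  have hA := sq_nonneg A
  have hD := sq_nonneg D
  have hE := sq_nonneg E
  have hF := sq_nonneg F
  have h0 : 1 / (4 * 10 ^ 8) ≤ r ^ 2 := by nlinarith
  have h1 : 1 / (4 * 10 ^ 8) * A ^ 2 ≤ r ^ 2 * A ^ 2 := mul_le_mul_of_nonneg_right h0 hA
  have h2 : t ^ 2 * A ^ 2 ≤ 1 * A ^ 2 := mul_le_mul_of_nonneg_right ht hA
  have h3 : (F - t * A) ^ 2 ≤ 2 * F ^ 2 + 2 * (t ^ 2 * A ^ 2) := by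
    nlinarith [sq_nonneg (F + t * A)]
  have h6 : 0 ≤ r ^ 2 * D ^ 2 := by positivity
  have h4 : (F - t * A) ^ 2 ≤ 8 * 10 ^ 8 * N := by nlinarith
  have h7 : 1 / 20000 * D ^ 2 ≤ r * D ^ 2 := mul_le_mul_of_nonneg_right hr hD
  have h8 : 0 ≤ s * D ^ 2 := mul_nonneg hs hD
  generalize F - t * A = G at *
  have h5 := sq_nonneg (D - 10000 * (32000 / 10 ^ 22) * G)
  nlinarith

theorem wb_r (r s p q w : ℝ) (hp : 1 / 2 ≤ p ^ 2) (hp0 : 0 ≤ p) (hq : q ≤ p)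
    (hs : 1 / 2000 * p ≤ s)
    (h : r + 1 / 10 ^ 22 * (1 / 2 * 1 - q) - w ≤
      r + 1 / 10 ^ 22 * (1 / 2 * 1 + 40000 * r - 8000 * s) - w) : 1 / 20000 ≤ r := by
  have h1 : 2 / 3 ≤ p := by nlinarith
  linarith

theorem p_WB (hJET : S_JET) (hQB : S_QB) :
    S_WB := by
  intro m u hu x hx hx0
  obtain ⟨hC, -, hact⟩ := hu
  obtain ⟨a, c, jq, hc⟩ := hQB m u hC x hx
  obtain ⟨hn, hph, hrr, hpp⟩ := hC
  have hr0 : 0 < rr u := lt_of_lt_of_le (by positivity) hrr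
  obtain ⟨j1, -, j3, -, -, e6, e7, e8⟩ := hJET m u x hr0
  have hss : 0 ≤ ss u := by unfold ss; positivity
  have hp0 : 0 ≤ pp u := by linarith
  have hs : 1 / 2000 * √(pp u) ≤ ph u / rr u := by
    rw [le_div_iff₀ hr0]
    linarith
  have hq : √(ss u) ≤ √(pp u) := Real.sqrt_le_sqrt (by unfold pp; linarith)
  have hr : 1 / 20000 ≤ √(rr u) := by
    have h1 := hact true
    simp only [om, hn] at h1
    exact wb_r _ _ _ _ _ (by rw [Real.sq_sqrt hp0]; exact hpp) (Real.sqrt_nonneg _) hq hs h1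
  have hs0 : 0 ≤ ph u / rr u := le_trans (by positivity) hs
  have ht : (ch u / rr u) ^ 2 ≤ 1 := by
    have h1 := pp_le u
    rw [hn] at h1
    unfold pp at h1
    nlinarith [sq_nonneg (ph u / rr u)]
  have hN : 0 < ‖x‖ ^ 2 := by positivity
  have hxx : √(rr u) ^ 2 * (cA u x ^ 2 + cD u x ^ 2) + (cE u x ^ 2 + cF u x ^ 2) ≤ ‖x‖ ^ 2 := by
    rw [Real.sq_sqrt hr0.le, ← e6, ← e7]
    exact pp_le x
  have J := (j3.add (((((Jet.norm hn x x).const_mul (1 / 2)).add (j3.const_mul 40000)).sub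
    (j1.const_mul 8000)).const_mul (1 / 10 ^ 22))).sub (jq.const_mul 2)
  have e := J.dd
  rw [hx.perp, real_inner_self_eq_norm_sq, mul_zero, sub_zero] at e
  have key := wb_core _ _ _ _ _ _ _ _ _ hr hs0 ht hN hxx hc
  rw [← e] at key
  exact key

end Pool.Agent.P.MP_4a4b50_gt.Lam

/-! Step REG. -/

namespace Pool.Agent.P.MP_4a4b50_gt.Lam

open scoped ContDiff Topology
open Pool.Agent.P.MP_f97e06_gt (Eu)
open Matrix Set Filter Pool.Agent.P.MP_4a4b50_gt.CE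

variable {m : ℕ}

theorem reg_cont : Continuous (ph : Eu (m + 4) → ℝ) ∧ Continuous (rr : Eu (m + 4) → ℝ) ∧
    Continuous (pp : Eu (m + 4) → ℝ) :=
  let ⟨h1, _, h3, _, h5⟩ := contDiff_poly (m := m) (k := 0)
  ⟨h1.continuous, h3.continuous, h5.continuous⟩

theorem reg_cpt : IsCompact (CC m) := by
  obtain ⟨h1, h2, h3⟩ := reg_cont (m := m)
  refine (isCompact_sphere (0 : Eu (m + 4)) 1).of_isClosed_subset ?_ fun u hu => by simpa using hu.1
  exact (isClosed_eq continuous_norm continuous_const).inter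
    ((isClosed_le (continuous_const.mul (h2.mul h3.sqrt)) h1).inter
      ((isClosed_le continuous_const h2).inter (isClosed_le continuous_const h3)))

theorem reg_pos {u : Eu (m + 4)} (hu : u ∈ CC m) : 0 < rr u ∧ 2 / 3 ≤ √(pp u) ∧ 0 < ph u := by
  obtain ⟨-, h2, h3, h4⟩ := hu
  have a1 : 0 < rr u := lt_of_lt_of_le (by positivity) h3
  have a2 : 2 / 3 ≤ √(pp u) := Real.le_sqrt_of_sq_le (by linarith)
  exact ⟨a1, a2, lt_of_lt_of_le (by positivity) h2⟩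

theorem reg_smooth (i : Bool) : ContDiffOn ℝ 2 (om i : Eu (m + 4) → ℝ) (Om ph) := by
  intro y hy
  obtain ⟨h1, -, h3, h4, h5⟩ := contDiff_poly (m := m) (k := 2)
  obtain ⟨a1, a2⟩ := pos_of_ph (y := y) hy
  have a3 : 0 < pp y := add_pos a1 a2
  have a4 := pp_le y
  have a5 : y ≠ 0 := by
    rintro rfl
    simp only [norm_zero] at a4
    linarith
  have n : ContDiffAt ℝ 2 (fun y : Eu (m + 4) => ‖y‖) y := contDiffAt_norm ℝ a5
  have q : ContDiffAt ℝ 2 (QQ : Eu (m + 4) → ℝ) y :=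
    ((n.pow 2).sub (contDiffAt_const.mul h5.contDiffAt)).sqrt (by
      have : 0 < (1 / 10 ^ 24 : ℝ) ^ 2 * pp y := by positivity
      linarith)
  have r := h3.contDiffAt.sqrt a1.ne'
  have s := h4.contDiffAt.sqrt a2.ne'
  refine ContDiffAt.contDiffWithinAt ?_
  cases i
  · exact (r.add (contDiffAt_const.mul (((contDiffAt_const.mul n).add
      (contDiffAt_const.mul r)).sub (contDiffAt_const.mul
        (h1.contDiffAt.div h3.contDiffAt a1.ne'))))).sub (contDiffAt_const.mul q)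
  · exact (r.add (contDiffAt_const.mul ((contDiffAt_const.mul n).sub s))).sub
      (contDiffAt_const.mul q)

theorem reg_sqrt {t : ℝ} (ht : 0 < t) (a : ℝ) : √(t ^ 2 * a) = t * √a := by
  rw [Real.sqrt_mul (sq_nonneg t), Real.sqrt_sq ht.le]

theorem reg_hom (i : Bool) : Hom1 (om i : Eu (m + 4) → ℝ) := by
  intro t ht y
  obtain ⟨h1, -, h3, h4, h5⟩ := poly_smul t y
  have n : ‖t • y‖ = t * ‖y‖ := by rw [norm_smul, Real.norm_of_nonneg ht.le]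
  have q : QQ (t • y) = t * QQ y := by
    rw [QQ, QQ, ← reg_sqrt ht, n, h5]
    congr 1
    ring
  have d : ph (t • y) / rr (t • y) = t * (ph y / rr y) := by
    rw [h1, h3, pow_succ, mul_assoc, mul_div_mul_left _ _ (by positivity), mul_div_assoc]
  cases i
  · simp only [om]
    rw [d, q, n, h3, reg_sqrt ht]
    ring
  · simp only [om]
    rw [q, n, h3, h4, reg_sqrt ht, reg_sqrt ht]
    ring

theorem reg_ex : ∃ u ∈ CC m, ∃ i, 0 < om i u ∧ 1 / 1000 < fa u := by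
  set u := mk4 m (4 / 5) 0 (3 / 5) 0 with hu
  have h1 : rr u = (4 / 5) ^ 2 := by simp [rr, hu]
  have h2 : ss u = (3 / 5) ^ 2 := by simp [ss, hu]
  have h3 : pp u = 1 := by rw [pp, h1, h2]; norm_num
  have h4 : ph u = 48 / 125 := by simp [ph, hu]; norm_num
  have h5 : ‖u‖ = 1 := by
    have := norm_sq_split u
    simp only [hu, mk4_tl] at this
    rw [← hu, h3] at this
    exact (pow_eq_one_iff_of_nonneg (norm_nonneg u) two_ne_zero).1 (by simpa using this)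
  have h6 : QQ u = 1 / 10 ^ 24 := by
    rw [QQ, h5, h3, ← Real.sqrt_sq (show (0 : ℝ) ≤ 1 / 10 ^ 24 by positivity)]
    congr 1
    rw [Real.sqrt_sq (by positivity)]
    ring
  refine ⟨u, ⟨h5, ?_, ?_, ?_⟩, true, ?_, ?_⟩
  · rw [h1, h3, h4]; norm_num
  · rw [h1]; norm_num
  · rw [h3]; norm_num
  · simp only [om]
    rw [h1, h2, h5, h6, Real.sqrt_sq (by norm_num), Real.sqrt_sq (by norm_num)]
    norm_num
  · rw [fa, h1, h3, h4]; norm_num

theorem reg_strict {u : Eu (m + 4)} (hu : u ∈ CC m) (i : Bool) (h0 : 0 ≤ om i u) :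
    (1 / 10 ^ 24) ^ 2 < rr u ∧ 1 / 2 < pp u := by
  obtain ⟨a1, a2, a3⟩ := reg_pos hu
  obtain ⟨h1, h2, h3, h4⟩ := hu
  have q : 0 ≤ QQ u := Real.sqrt_nonneg _
  have s : 0 ≤ √(ss u) := Real.sqrt_nonneg _
  have s0 : 0 ≤ ss u := by unfold ss; positivity
  have e : pp u = rr u + ss u := rfl
  have d : 1 / 2000 * √(pp u) ≤ ph u / rr u := by
    rw [le_div_iff₀ a1]
    linarith
  refine ⟨h3.lt_of_ne fun e1 => ?_, h4.lt_of_ne fun e1 => ?_⟩
  · have r : √(rr u) = 1 / 10 ^ 24 := by rw [← e1, Real.sqrt_sq (by positivity)]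
    have s1 : 2 / 3 ≤ √(ss u) := Real.le_sqrt_of_sq_le (by norm_num at e1 ⊢; linarith)
    cases i <;> simp only [om] at h0 <;> rw [r, h1] at h0 <;> norm_num at h0 <;> linarith
  · have r : √(rr u) ≤ 3 / 4 := Real.sqrt_le_iff.2 ⟨by norm_num, by linarith⟩
    have q1 : 7 / 10 ≤ QQ u := Real.le_sqrt_of_sq_le (by rw [h1, ← e1]; norm_num)
    cases i <;> simp only [om] at h0 <;> rw [h1] at h0 <;> norm_num at h0 <;> linarith

theorem p_REG :
    S_REG := by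
  intro m
  refine ⟨by norm_num, reg_cpt, fun u hu => ⟨hu.1, (reg_pos hu).2.2⟩, reg_smooth, reg_hom, reg_ex,
    fun u hu i h0 hf => ?_⟩
  obtain ⟨a1, a2, -⟩ := reg_pos hu
  obtain ⟨b1, b2⟩ := reg_strict hu i h0
  obtain ⟨h1, h2, h3⟩ := reg_cont (m := m)
  have b0 : 1 / 2000 * (rr u * √(pp u)) < ph u := by
    rwa [fa, div_div, lt_div_iff₀ (by positivity)] at hf
  filter_upwards [(isOpen_lt (continuous_const.mul (h2.mul h3.sqrt)) h1).mem_nhds b0,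
    (isOpen_lt continuous_const h2).mem_nhds b1, (isOpen_lt continuous_const h3).mem_nhds b2]
    with z c1 c2 c3 hz
  exact ⟨hz, le_of_lt c1, le_of_lt c2, le_of_lt c3⟩

end Pool.Agent.P.MP_4a4b50_gt.Lam

/-! Step GEO. -/

namespace Pool.Agent.P.MP_4a4b50_gt.Lam

open scoped ContDiff Topology
open Pool.Agent.P.MP_f97e06_gt (Eu)
open Matrix Set Filter Pool.Agent.P.MP_4a4b50_gt.CE

theorem p_GEO (hLAM : S_LAM) (hBANDA : S_BANDA) (hBANDB : S_BANDB) (hPRE : S_PRE) (hAB : S_AB) (hADM : S_ADM) (hPC : S_PC) (hWA : S_WA) (hWB : S_WB) (hREG : S_REG) :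
    S_GEO := by
  intro m
  obtain ⟨pa, pb, hab⟩ := hAB m
  have hR := hREG m
  have adm := fun u (hu : u ∈ CC m) β => hADM m u β (hR.sub u hu).1 (hR.sub u hu).2
  obtain ⟨S, R, s1, s2, s3, s4⟩ := hBANDA _ _ _ _ _ _ _ _ _ _ (hPRE m) pa pb hR
    (fun u hu => (hab u hu).1) (fun i u hu β => by
      obtain ⟨a1, a2⟩ := adm u hu.1 β
      have ne : dir h0 fb u + β • dir h0 fa u ≠ 0 := fun e => by simp [e] at a2
      cases i
      exacts [hWB m u hu _ a1 ne, hWA m u hu _ a1 ne]) fun u hu ha β h => by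
      obtain ⟨a1, a2⟩ := adm u hu β
      exact hPC m u hu ha _ a1 h (by simpa only [h, mul_zero, add_zero] using a2)
  obtain ⟨V, v1, v2⟩ := hBANDB _ _ _ _ _ _ _ _ _ _ _ (hPRE m) pa s1 hR s2 s3 s4
  exact hLAM _ _ _ _ _ _ _ (hPRE m) s1 v1 v2

end Pool.Agent.P.MP_4a4b50_gt.Lam
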