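import Pool.Agent.P.MP_4a4b50_gt.Lam.PA1
import Pool.Agent.P.MP_4a4b50_gt.Lam.PA2
import Pool.Agent.P.MP_4a4b50_gt.Lam.PA3
import Pool.Agent.P.MP_4a4b50_gt.Lam.PB1
import Pool.Agent.P.MP_4a4b50_gt.Lam.PB2
import Pool.Agent.P.MP_4a4b50_gt.Main
import Pool.Agent.P.MP_4a4b50_gt.CSob
import Pool.Agent.P.MP_4a4b50_gt.CGlue

/-! The exact range of dimensions. -/

set_option autoImplicit false

namespace Pool.Agent.P.MP_4a4b50_gt.Lam

open scoped ContDiff Topology
open Pool.Agent.P.MP_f97e06_gt (Eu)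
open Matrix Set Filter Pool.Agent.P.MP_4a4b50_gt.CE

theorem all_PROF : S_PROF := p_PROF
theorem all_ROBP : S_ROBP := p_ROBP
theorem all_ROB : S_ROB := p_ROB
theorem all_TOUCH : S_TOUCH := p_TOUCH all_ROBP all_ROB
theorem all_OSC : S_OSC := p_OSC
theorem all_DIR : S_DIR := p_DIR
theorem all_PAIR : S_PAIR := p_PAIR all_DIR
theorem all_AMP : S_AMP := p_AMP all_DIR all_PAIR
theorem all_ALG : S_ALG := p_ALG
theorem all_LAMF : S_LAMF := p_LAMF all_ROBP all_ALG all_OSC
theorem all_LAMC : S_LAMC := p_LAMC all_ROB all_ALG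
theorem all_LAM : S_LAM := p_LAM all_PROF all_TOUCH all_OSC all_AMP all_LAMF all_LAMC
theorem all_BANDA : S_BANDA := p_BANDA all_DIR all_PAIR
theorem all_BANDB : S_BANDB := p_BANDB all_DIR
theorem all_GRP : S_GRP := p_GRP
theorem all_HZ : S_HZ := p_HZ
theorem all_PB : S_PB := p_PB
theorem all_PRE : S_PRE := p_PRE all_GRP all_HZ all_PB
theorem all_JET : S_JET := p_JET
theorem all_AB : S_AB := p_AB all_JET
theorem all_ADM : S_ADM := p_ADM all_DIR all_HZ all_PRE all_AB
theorem all_PA : S_PA := p_PA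
theorem all_PC : S_PC := p_PC all_JET all_AB all_PA
theorem all_QB : S_QB := p_QB all_PB
theorem all_WA : S_WA := p_WA all_JET all_QB
theorem all_WB : S_WB := p_WB all_JET all_QB
theorem all_REG : S_REG := p_REG
theorem all_GEO : S_GEO := p_GEO all_LAM all_BANDA all_BANDB all_PRE all_AB all_ADM all_PC all_WA all_WB all_REG
theorem all_BODY : S_BODY := p_BODY

theorem isCPlus_mono {n N k : ℕ} (h : k ≤ N) {K : Set (EuclideanSpace ℝ (Fin n))}
    (hK : IsCPlus N K) : IsCPlus k K :=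
  ⟨hK.1, hK.2.1, hK.2.2.1, hK.2.2.2.1.of_le (by exact_mod_cast h), hK.2.2.2.2⟩

theorem dim_three (H K : Set (EuclideanSpace ℝ (Fin 3))) (hH : IsCPlus 3 H) (hK : IsCPlus 3 K)
    (hw : ∀ u, ‖u‖ = 1 → supp H u + supp H (-u) = supp K u + supp K (-u))
    (hr : ∀ u, ‖u‖ = 1 → radii H (-u) * radii K u = radii K (-u) * radii H u) :
    ∃ v, H = (fun x => x + v) '' K := by
  obtain ⟨kH, cH, iH, sH, pH⟩ := hH
  obtain ⟨kK, cK, iK, sK, pK⟩ := hK
  have nH : H.Nonempty := iH.mono interior_subset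
  have nK : K.Nonempty := iK.mono interior_subset
  have eH : ∀ x, supp H x = sSup ((fun y => inner ℝ y x) '' H) := fun _ => rfl
  have eK : ∀ x, supp K x = sSup ((fun y => inner ℝ y x) '' K) := fun _ => rfl
  have e : ∀ L : Set (EuclideanSpace ℝ (Fin 3)), radii L = Rad (supp L) := by
    intro L
    funext u
    simp [radii, Rad, EuclideanSpace.inner_single_right]
  rw [e] at pH pK
  rw [e, e] at hr
  have D : Data (supp H) (supp K) :=
    { cH := sH
      cK := sK
      homH := fun t ht x => supp_hom kH nH eH t ht.le x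
      homK := fun t ht x => supp_hom kK nK eK t ht.le x
      zH := by simpa using supp_hom kH nH eH 0 le_rfl 0
      zK := by simpa using supp_hom kK nK eK 0 le_rfl 0
      psdH := fun x hx v => supp_psd kH nH eH ((cAt sH hx).of_le (by norm_num)) v
      psdK := fun x hx v => supp_psd kK nK eK ((cAt sK hx).of_le (by norm_num)) v
      posH := pH
      posK := pK
      width := hw
      ratio := hr }
  obtain ⟨v, hv⟩ := D.linear
  exact ⟨v, translate_of_supp kH cH nH kK cK nK eH eK v hv⟩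

theorem exact_range (hGEO : S_GEO) (hBODY : S_BODY) (n N : ℕ) (hn : 3 ≤ n) (hN : 3 ≤ N) :
    (∀ H K : Set (EuclideanSpace ℝ (Fin n)), IsCPlus N H → IsCPlus N K →
      (∀ u, ‖u‖ = 1 → supp H u + supp H (-u) = supp K u + supp K (-u)) →
      (∀ u, ‖u‖ = 1 → radii H (-u) * radii K u = radii K (-u) * radii H u) →
      ∃ v, H = (fun x => x + v) '' K) ↔ n = 3 := by
  constructor
  · intro hall
    by_contra h3
    obtain ⟨m, rfl⟩ : ∃ m, n = m + 4 := ⟨n - 4, by omega⟩
    obtain ⟨f, hf⟩ := hGEO m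
    obtain ⟨Hs, A, _, _, _, _, _, _, ⟨S⟩⟩ := CE.exists_sob (n := m + 4) (by omega) N
    obtain ⟨h, d, hs⟩ := exists_sol (by omega) S hf
    obtain ⟨H, K, h1, h2, h3, h4, h5⟩ := hBODY _ N _ h d (by omega) (by omega) hf.nofix hs
    exact h5 (hall H K h1 h2 h3 h4)
  · rintro rfl H K h1 h2 h3 h4
    exact dim_three H K (isCPlus_mono hN h1) (isCPlus_mono hN h2) h3 h4

end Pool.Agent.P.MP_4a4b50_gt.Lam
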