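import Pool.Agent.P.MP_4a4b50_gt.CMat
import Pool.Agent.P.MP_4a4b50_gt.CCalc

/-! Lamination construction: definitions and a calculus of second order jets. -/

set_option autoImplicit false

namespace Pool.Agent.P.MP_4a4b50_gt.Lam

open scoped ContDiff Topology
open Pool.Agent.P.MP_f97e06_gt (Eu)
open Matrix Set Filter Pool.Agent.P.MP_4a4b50_gt.CE

section general
variable {n : ℕ}

/-- square matrices -/
abbrev Mat (n : ℕ) := Matrix (Fin n) (Fin n) ℝ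

/-- isometries -/
abbrev Iso (n : ℕ) := Eu n ≃ₗᵢ[ℝ] Eu n

/-- positively homogeneous of degree zero -/
def Hom0 (f : Eu n → ℝ) : Prop := ∀ t : ℝ, 0 < t → ∀ x, f (t • x) = f x

/-- the open cone where `φ` is positive -/
def Om (φ : Eu n → ℝ) : Set (Eu n) := {y | 0 < φ y}

/-- coordinates of the gradient -/
noncomputable def gr (f : Eu n → ℝ) (u : Eu n) : Fin n → ℝ :=
  fun i => fderiv ℝ f u (EuclideanSpace.single i 1)

/-- the direction `X⁻¹ grad f` -/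
noncomputable def dir (h f : Eu n → ℝ) (u : Eu n) : Eu n :=
  WithLp.toLp 2 ((hatM h u)⁻¹ *ᵥ gr f u)

/-- radial projection to the unit sphere -/
noncomputable def nz (y : Eu n) : Eu n := ‖y‖⁻¹ • y

/-- the pairing `grad a · X⁻¹ grad b`, extended with degree zero -/
noncomputable def pair (h a b : Eu n → ℝ) (y : Eu n) : ℝ :=
  fderiv ℝ a (nz y) (dir h b (nz y))

/-- the oscillating term -/
noncomputable def osc (B S : Eu n → ℝ) (L : ℝ → ℝ) (ε : ℝ) (y : Eu n) : ℝ :=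
  ε ^ 2 * (B y * L (S y / ε))

/-- the geometric input without the hypothesis on supersolutions -/
structure Pre (G : Set (Iso n)) (φ h : Eu n → ℝ) : Prop where
  nofix : NoFix G
  om_smooth : ContDiff ℝ ∞ φ
  om_odd : ∀ x, φ (-x) = -φ x
  om_inv : Inv G φ
  om_zero : ∀ x, ‖x‖ = 1 → φ x = 0 → ∃ g ∈ G, g x = -x
  om_hom : ∀ t : ℝ, 0 < t → ∀ x, φ (t • x) = t ^ 3 * φ x
  h_smooth : ContDiffOn ℝ ∞ h {0}ᶜ
  h_hom : Hom1 h
  h_inv : Inv G h
  h_pos : ∀ x, ‖x‖ = 1 → (hatM h x).PosDef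

/-- the points of `C` where the branch `i` is nonnegative and maximal -/
def Act (C : Set (Eu n)) (W : Bool → Eu n → ℝ) (i : Bool) : Set (Eu n) :=
  {u | u ∈ C ∧ 0 ≤ W i u ∧ ∀ j, W j u ≤ W i u}

/-- a barrier with two branches -/
structure Bar (φ : Eu n → ℝ) (C : Set (Eu n)) (W : Bool → Eu n → ℝ) : Prop where
  cpt : IsCompact C
  sub : ∀ u ∈ C, ‖u‖ = 1 ∧ 0 < φ u
  smooth : ∀ i, ContDiffOn ℝ 2 (W i) (Om φ)
  hom : ∀ i, Hom1 (W i)
  pos : ∃ u ∈ C, ∃ i, 0 < W i u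
  inner : ∀ u ∈ C, ∀ i, 0 ≤ W i u → ∀ᶠ z in 𝓝 u, ‖z‖ = 1 → z ∈ C

/-- a barrier that is still open along the wall `a = t` -/
structure PBar (φ a : Eu n → ℝ) (t₀ t : ℝ) (C : Set (Eu n)) (W : Bool → Eu n → ℝ) : Prop where
  lt : t₀ < t
  cpt : IsCompact C
  sub : ∀ u ∈ C, ‖u‖ = 1 ∧ 0 < φ u
  smooth : ∀ i, ContDiffOn ℝ 2 (W i) (Om φ)
  hom : ∀ i, Hom1 (W i)
  pos : ∃ u ∈ C, ∃ i, 0 < W i u ∧ t < a u
  inner : ∀ u ∈ C, ∀ i, 0 ≤ W i u → t₀ < a u → ∀ᶠ z in 𝓝 u, ‖z‖ = 1 → z ∈ C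

/-- a phase function: smooth on the cone, of degree zero, with sign `σ` under the group -/
structure Phase (G : Set (Iso n)) (φ : Eu n → ℝ) (σ : ℝ) (S : Eu n → ℝ) : Prop where
  smooth : ContDiffOn ℝ ∞ S (Om φ)
  hom : Hom0 S
  sgn : ∀ g ∈ G, ∀ x ∈ Om φ, S (g x) = σ * S x

/-- the amplitude of the lamination -/
structure Amp (G : Set (Iso n)) (φ h S : Eu n → ℝ) (c : ℝ) (B : Eu n → ℝ) : Prop where
  c_pos : 0 < c
  smooth : ContDiffOn ℝ ∞ B (Om φ)
  hom : Hom1 B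
  inv : Inv G B
  zero : ∀ y, φ (nz y) ≤ c → B y = 0
  bd : ∀ u, ‖u‖ = 1 → 0 < φ u → 0 ≤ B u ∧ B u * (gr S u ⬝ᵥ (hatM h u)⁻¹ *ᵥ gr S u) ≤ 1

/-- the two profiles -/
structure Prof (η K δ l M : ℝ) (L X : ℝ → ℝ) : Prop where
  L_smooth : ContDiff ℝ ∞ L
  X_smooth : ContDiff ℝ ∞ X
  L_even : ∀ s, L (-s) = L s
  X_nonpos : ∀ s, X s ≤ 0
  l_pos : 0 < l
  l_le : l ≤ 1
  L_bd : ∀ s, |L s| ≤ M ∧ |deriv L s| ≤ M ∧ |deriv (deriv L) s| ≤ M
  X_bd : ∀ s, |X s| ≤ M ∧ |deriv X s| ≤ M ∧ |deriv (deriv X) s| ≤ M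
  lower : ∀ s, l ≤ 1 + deriv (deriv L) s
  X_lower : ∀ s, -η ≤ deriv (deriv X) s
  alt : ∀ s, 1 + deriv (deriv L) s ≤ δ ∨ K ≤ deriv (deriv X) s

/-- second order jet of `f` at `u` in the directions `x`, `e` -/
structure Jet (f : Eu n → ℝ) (u x e : Eu n) (v a b c : ℝ) : Prop where
  cd : ContDiffAt ℝ 2 f u
  val : f u = v
  dx : fderiv ℝ f u x = a
  de : fderiv ℝ f u e = b
  dd : D2 f u x e = c

variable {f g : Eu n → ℝ} {u x e : Eu n} {v a b c v' a' b' c' : ℝ}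

theorem Jet.of (hf : ContDiffAt ℝ 2 f u) (x e : Eu n) :
    Jet f u x e (f u) (fderiv ℝ f u x) (fderiv ℝ f u e) (D2 f u x e) := ⟨hf, rfl, rfl, rfl, rfl⟩

theorem Jet.congr (h : Jet f u x e v a b c) (h1 : v = v') (h2 : a = a') (h3 : b = b')
    (h4 : c = c') : Jet f u x e v' a' b' c' := by
  subst h1 h2 h3 h4
  exact h

theorem Jet.congr_fun (h : Jet f u x e v a b c) (hfg : g =ᶠ[𝓝 u] f) : Jet g u x e v a b c where
  cd := h.cd.congr_of_eventuallyEq hfg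
  val := hfg.eq_of_nhds.trans h.val
  dx := by rw [hfg.fderiv_eq]; exact h.dx
  de := by rw [hfg.fderiv_eq]; exact h.de
  dd := by
    have := (hfg.fderiv (𝕜 := ℝ)).fderiv_eq (𝕜 := ℝ)
    unfold D2
    rw [this]
    exact h.dd

theorem Jet.clm (L : Eu n →L[ℝ] ℝ) (u x e : Eu n) : Jet (fun y => L y) u x e (L u) (L x) (L e) 0 where
  cd := L.contDiff.contDiffAt
  val := rfl
  dx := by rw [L.fderiv]
  de := by rw [L.fderiv]
  dd := by
    have : fderiv ℝ (fun y => L y) = fun _ => L := funext fun _ => L.fderiv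
    unfold D2
    rw [this, fderiv_fun_const]
    rfl

theorem Jet.coord (i : Fin n) (u x e : Eu n) : Jet (fun y => y i) u x e (u i) (x i) (e i) 0 :=
  Jet.clm (EuclideanSpace.proj i) u x e

theorem Jet.const (k : ℝ) (u x e : Eu n) : Jet (fun _ => k) u x e k 0 0 0 where
  cd := contDiffAt_const
  val := rfl
  dx := by simp
  de := by simp
  dd := by simp [D2]

theorem Jet.lin (hf : Jet f u x e v a b c) (hg : Jet g u x e v' a' b' c') (p q : ℝ) :
    Jet (fun y => p * f y + q * g y) u x e (p * v + q * v') (p * a + q * a') (p * b + q * b')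
      (p * c + q * c') := by
  have d1 := (hf.cd.differentiableAt (by simp)).hasFDerivAt
  have d2 := (hg.cd.differentiableAt (by simp)).hasFDerivAt
  have d3 := ((d1.const_mul p).add (d2.const_mul q)).fderiv
  have d4 : fderiv ℝ (fun y => p * f y + q * g y) u = p • fderiv ℝ f u + q • fderiv ℝ g u := d3
  refine ⟨(contDiffAt_const.mul hf.cd).add (contDiffAt_const.mul hg.cd), by rw [hf.val, hg.val],
    ?_, ?_, ?_⟩
  · rw [d4, ← hf.dx, ← hg.dx]; simp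
  · rw [d4, ← hf.de, ← hg.de]; simp
  · rw [Calc.D2_lin hf.cd hg.cd, ← hf.dd, ← hg.dd]; simp

theorem Jet.add (hf : Jet f u x e v a b c) (hg : Jet g u x e v' a' b' c') :
    Jet (fun y => f y + g y) u x e (v + v') (a + a') (b + b') (c + c') := by
  simpa using hf.lin hg 1 1

theorem Jet.sub (hf : Jet f u x e v a b c) (hg : Jet g u x e v' a' b' c') :
    Jet (fun y => f y - g y) u x e (v - v') (a - a') (b - b') (c - c') := by
  simpa [sub_eq_add_neg] using hf.lin hg 1 (-1)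

theorem Jet.const_mul (hf : Jet f u x e v a b c) (p : ℝ) :
    Jet (fun y => p * f y) u x e (p * v) (p * a) (p * b) (p * c) := by
  simpa using hf.lin hf p 0

theorem Jet.neg (hf : Jet f u x e v a b c) :
    Jet (fun y => -f y) u x e (-v) (-a) (-b) (-c) := by
  simpa using hf.const_mul (-1)

theorem Jet.mul (hf : Jet f u x e v a b c) (hg : Jet g u x e v' a' b' c') :
    Jet (fun y => f y * g y) u x e (v * v') (a * v' + v * a') (b * v' + v * b')
      (c * v' + a * b' + b * a' + v * c') := by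
  have d1 := (hf.cd.differentiableAt (by simp)).hasFDerivAt
  have d2 := (hg.cd.differentiableAt (by simp)).hasFDerivAt
  have e1 : fderiv ℝ (fun y => f y * g y) =ᶠ[𝓝 u]
      fun z => f z • fderiv ℝ g z + g z • fderiv ℝ f z := by
    filter_upwards [Calc.ev_diff hf.cd, Calc.ev_diff hg.cd] with z hz1 hz2
    exact (hz1.hasFDerivAt.mul hz2.hasFDerivAt).fderiv
  have e2 := ((d1.smul (Calc.diff_fderiv hg.cd).hasFDerivAt).add
    (d2.smul (Calc.diff_fderiv hf.cd).hasFDerivAt)).fderiv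
  have e3 : fderiv ℝ (fun z => f z • fderiv ℝ g z + g z • fderiv ℝ f z) u = _ := e2
  refine ⟨hf.cd.mul hg.cd, by rw [hf.val, hg.val], ?_, ?_, ?_⟩
  · rw [e1.eq_of_nhds, ← hf.dx, ← hg.dx, ← hf.val, ← hg.val]; simp; ring
  · rw [e1.eq_of_nhds, ← hf.de, ← hg.de, ← hf.val, ← hg.val]; simp; ring
  · unfold D2
    rw [e1.fderiv_eq, e3, ← hf.dd, ← hg.dd, ← hf.dx, ← hg.dx, ← hf.de, ← hg.de, ← hf.val,
      ← hg.val]
    simp
    ring

theorem Jet.comp (hf : Jet f u x e v a b c) {Θ : ℝ → ℝ} (hΘ : ContDiffAt ℝ 2 Θ v) :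
    Jet (fun y => Θ (f y)) u x e (Θ v) (deriv Θ v * a) (deriv Θ v * b)
      (deriv (deriv Θ) v * a * b + deriv Θ v * c) := by
  obtain rfl := hf.val
  have d1 := (hf.cd.differentiableAt (by simp)).hasFDerivAt
  have t1 : ∀ᶠ s in 𝓝 (f u), DifferentiableAt ℝ Θ s := by
    filter_upwards [hΘ.eventually (by simp)] with s hs
    exact hs.differentiableAt (by simp)
  have t2 : DifferentiableAt ℝ (deriv Θ) (f u) := by
    have h1 : DifferentiableAt ℝ (fderiv ℝ Θ) (f u) :=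
      (hΘ.fderiv_right (m := 1) (by norm_num)).differentiableAt (by simp)
    exact h1.clm_apply (differentiableAt_const (1 : ℝ))
  have e1 : fderiv ℝ (fun y => Θ (f y)) =ᶠ[𝓝 u] fun z => deriv Θ (f z) • fderiv ℝ f z := by
    filter_upwards [Calc.ev_diff hf.cd, hf.cd.continuousAt.eventually t1] with z hz1 hz2
    exact (hz2.hasDerivAt.comp_hasFDerivAt z hz1.hasFDerivAt).fderiv
  have e2 := ((t2.hasDerivAt.comp_hasFDerivAt u d1).smul
    (Calc.diff_fderiv hf.cd).hasFDerivAt).fderiv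
  have e3 : fderiv ℝ (fun z => deriv Θ (f z) • fderiv ℝ f z) u = _ := e2
  refine ⟨ContDiffAt.comp (g := Θ) u hΘ hf.cd, rfl, ?_, ?_, ?_⟩
  · rw [e1.eq_of_nhds, ← hf.dx]; simp
  · rw [e1.eq_of_nhds, ← hf.de]; simp
  · unfold D2
    rw [e1.fderiv_eq, e3, ← hf.dd, ← hf.dx, ← hf.de]
    simp
    ring

theorem Jet.comp' (hf : Jet f u x e v a b c) {Θ Θ' : ℝ → ℝ} {p : ℝ} (hΘ : ContDiffAt ℝ 2 Θ v)
    (h1 : ∀ᶠ s in 𝓝 v, HasDerivAt Θ (Θ' s) s) (h2 : HasDerivAt Θ' p v) :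
    Jet (fun y => Θ (f y)) u x e (Θ v) (Θ' v * a) (Θ' v * b) (p * a * b + Θ' v * c) := by
  have e1 : deriv Θ =ᶠ[𝓝 v] Θ' := h1.mono fun s hs => hs.deriv
  have e2 : deriv (deriv Θ) v = p := by rw [e1.deriv_eq, h2.deriv]
  have := hf.comp hΘ
  rwa [e2, e1.eq_of_nhds] at this

theorem Jet.sq (hf : Jet f u x e v a b c) :
    Jet (fun y => f y ^ 2) u x e (v ^ 2) (2 * v * a) (2 * v * b) (2 * a * b + 2 * v * c) := by
  have := hf.mul hf
  simp only [← pow_two] at this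
  exact this.congr rfl (by ring) (by ring) (by ring)

theorem Jet.inv (hf : Jet f u x e v a b c) (hv : v ≠ 0) :
    Jet (fun y => (f y)⁻¹) u x e v⁻¹ (-a / v ^ 2) (-b / v ^ 2) (2 * a * b / v ^ 3 - c / v ^ 2) := by
  have h2 : HasDerivAt (fun s : ℝ => -(s ^ 2)⁻¹) (2 / v ^ 3) v := by
    have := ((hasDerivAt_pow 2 v).inv (pow_ne_zero 2 hv)).neg
    refine this.congr_deriv ?_
    simp only [Nat.cast_ofNat, Nat.add_one_sub_one, pow_one]
    field_simp
  have := hf.comp' (Θ := fun s => s⁻¹) (Θ' := fun s => -(s ^ 2)⁻¹) (contDiffAt_inv ℝ hv)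
    ((eventually_ne_nhds hv).mono fun s hs => hasDerivAt_inv hs) h2
  exact this.congr rfl (by field_simp) (by field_simp) (by field_simp; ring)

theorem Jet.div (hf : Jet f u x e v a b c) (hg : Jet g u x e v' a' b' c') (hv : v' ≠ 0) :
    Jet (fun y => f y / g y) u x e (v / v') (a / v' - v * a' / v' ^ 2) (b / v' - v * b' / v' ^ 2)
      (c / v' - (a * b' + b * a') / v' ^ 2 + 2 * v * a' * b' / v' ^ 3 - v * c' / v' ^ 2) := by
  have := hf.mul (hg.inv hv)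
  simp only [← div_eq_mul_inv] at this
  exact this.congr rfl (by field_simp; ring) (by field_simp; ring) (by field_simp; ring)

theorem Jet.sqrt (hf : Jet f u x e v a b c) (hv : 0 < v) :
    Jet (fun y => √(f y)) u x e √v (a / (2 * √v)) (b / (2 * √v))
      (c / (2 * √v) - a * b / (4 * √v ^ 3)) := by
  have hs : √v ≠ 0 := (Real.sqrt_pos.2 hv).ne'
  have h2 : HasDerivAt (fun s : ℝ => 1 / (2 * √s)) (-1 / (4 * √v ^ 3)) v := by
    have := (((Real.hasDerivAt_sqrt hv.ne').const_mul 2).inv (by positivity)).const_mul 1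
    refine (this.congr_deriv ?_).congr_of_eventuallyEq (Eventually.of_forall fun s => ?_)
    · field_simp
      ring
    · simp
  have := hf.comp' (Θ := fun s => √s) (Θ' := fun s => 1 / (2 * √s))
    (Real.contDiffAt_sqrt hv.ne')
    ((eventually_ne_nhds hv.ne').mono fun s hs => Real.hasDerivAt_sqrt hs) h2
  exact this.congr rfl (by field_simp) (by field_simp) (by field_simp; ring)

theorem Jet.exp (hf : Jet f u x e v a b c) :
    Jet (fun y => Real.exp (f y)) u x e (Real.exp v) (Real.exp v * a) (Real.exp v * b)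
      (Real.exp v * a * b + Real.exp v * c) :=
  hf.comp' Real.contDiff_exp.contDiffAt (Eventually.of_forall Real.hasDerivAt_exp)
    (Real.hasDerivAt_exp v)

theorem Jet.norm (hu : ‖u‖ = 1) (x e : Eu n) :
    Jet (fun y => ‖y‖) u x e 1 (inner ℝ u x) (inner ℝ u e)
      (inner ℝ x e - inner ℝ u x * inner ℝ u e) where
  cd := contDiffAt_norm ℝ (by rintro rfl; simp at hu)
  val := hu
  dx := fderiv_norm_unit hu x
  de := fderiv_norm_unit hu e
  dd := D2_norm_unit hu x e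

theorem gr_dot (f : Eu n → ℝ) (u x : Eu n) : gr f u ⬝ᵥ x.ofLp = fderiv ℝ f u x := by
  have hv := (EuclideanSpace.basisFun (Fin n) ℝ).sum_repr x
  simp only [EuclideanSpace.basisFun_apply, EuclideanSpace.basisFun_repr] at hv
  conv_rhs => rw [← hv]
  simp [gr, dotProduct, mul_comm]

theorem ne_zero_of_unit (hu : ‖u‖ = 1) : u ≠ 0 := by
  rintro rfl
  simp at hu

theorem nz_unit (hu : ‖u‖ = 1) : nz u = u := by simp [nz, hu]

theorem norm_nz (hu : u ≠ 0) : ‖nz u‖ = 1 := norm_smul_inv_norm (𝕜 := ℝ) hu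

theorem nz_smul {t : ℝ} (ht : 0 < t) (y : Eu n) : nz (t • y) = nz y := by
  rw [nz, nz, norm_smul, Real.norm_of_nonneg ht.le, smul_smul, mul_inv, mul_assoc,
    mul_comm _ t, ← mul_assoc, inv_mul_cancel₀ ht.ne', one_mul]

theorem nz_iso (g : Iso n) (y : Eu n) : nz (g y) = g (nz y) := by
  rw [nz, nz, g.norm_map, map_smul]

theorem contDiffAt_nz {k : WithTop ℕ∞} (hu : u ≠ 0) : ContDiffAt ℝ k (nz : Eu n → Eu n) u :=
  ((contDiffAt_norm ℝ hu).inv (norm_ne_zero_iff.2 hu)).smul contDiffAt_id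

variable {G : Set (Iso n)} {φ h : Eu n → ℝ}

theorem Pre.isOpen (hP : Pre G φ h) : IsOpen (Om φ) :=
  isOpen_lt continuous_const hP.om_smooth.continuous

theorem Pre.ne_zero (hP : Pre G φ h) (hu : u ∈ Om φ) : u ≠ 0 := by
  rintro rfl
  have h1 := hP.om_odd 0
  have h2 : 0 < φ 0 := hu
  rw [neg_zero] at h1
  linarith

theorem Pre.smul_mem (hP : Pre G φ h) {t : ℝ} (ht : 0 < t) (hu : u ∈ Om φ) : t • u ∈ Om φ := by
  have h2 : 0 < φ u := hu
  change 0 < φ (t • u)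
  rw [hP.om_hom t ht]
  positivity

theorem Pre.nz_mem (hP : Pre G φ h) (hu : u ∈ Om φ) : nz u ∈ Om φ :=
  hP.smul_mem (inv_pos.2 (norm_pos_iff.2 (hP.ne_zero hu))) hu

theorem Pre.h_at (hP : Pre G φ h) (hu : u ≠ 0) : ContDiffAt ℝ ∞ h u :=
  hP.h_smooth.contDiffAt (isOpen_compl_singleton.mem_nhds hu)

theorem Pre.iso_mem (hP : Pre G φ h) {g : Iso n} (hg : g ∈ G) (hu : u ∈ Om φ) : g u ∈ Om φ := by
  change 0 < φ (g u)
  rw [hP.om_inv g hg]
  exact hu

theorem act_compact {C : Set (Eu n)} {W : Bool → Eu n → ℝ} (hC : IsCompact C)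
    (hW : ∀ i, ContinuousOn (W i) C) (i : Bool) : IsCompact (Act C W i) := by
  have h1 : IsClosed (C ∩ W i ⁻¹' Ici 0) := (hW i).preimage_isClosed_of_isClosed hC.isClosed isClosed_Ici
  have h2 : ∀ j, IsClosed (C ∩ (fun u => W i u - W j u) ⁻¹' Ici 0) := fun j =>
    ((hW i).sub (hW j)).preimage_isClosed_of_isClosed hC.isClosed isClosed_Ici
  have e : Act C W i = (C ∩ W i ⁻¹' Ici 0) ∩ ⋂ j, (C ∩ (fun u => W i u - W j u) ⁻¹' Ici 0) := by
    ext u
    simp only [Act, mem_ofPred_eq, mem_inter_iff, mem_preimage, mem_Ici, mem_iInter, sub_nonneg]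
    exact ⟨fun h => ⟨⟨h.1, h.2.1⟩, fun j => ⟨h.1, h.2.2 j⟩⟩, fun h => ⟨h.1.1, h.1.2, fun j => (h.2 j).2⟩⟩
  rw [e]
  exact hC.of_isClosed_subset (h1.inter (isClosed_iInter h2)) fun u hu => hu.1.1

theorem continuousAt_D2 (hf : ContDiffAt ℝ 2 f u) : ContinuousAt (D2 f) u :=
  ((hf.fderiv_right (m := 1) (by norm_num)).fderiv_right (m := 0) (by norm_num)).continuousAt

theorem continuousAt_hessM (hf : ContDiffAt ℝ 2 f u) : ContinuousAt (hessM f) u :=
  continuousAt_pi.2 fun _ => continuousAt_pi.2 fun _ =>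
    ((continuousAt_D2 hf).clm_apply continuousAt_const).clm_apply continuousAt_const

theorem continuousAt_hatM (hf : ContDiffAt ℝ 2 f u) : ContinuousAt (hatM f) u := by
  refine (continuousAt_hessM hf).add (continuousAt_pi.2 fun i => continuousAt_pi.2 fun j => ?_)
  change ContinuousAt (fun y : Eu n => y i * y j) u
  fun_prop

theorem continuousAt_fderiv' (hf : ContDiffAt ℝ 2 f u) : ContinuousAt (fderiv ℝ f) u :=
  (Calc.diff_fderiv hf).continuousAt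

theorem continuousAt_gr (hf : ContDiffAt ℝ 2 f u) : ContinuousAt (gr f) u :=
  continuousAt_pi.2 fun _ => (continuousAt_fderiv' hf).clm_apply continuousAt_const

theorem two_le_infty : (2 : WithTop ℕ∞) ≤ ∞ := WithTop.coe_le_coe.2 (le_top : (2 : ℕ∞) ≤ ⊤)

end general

section explicit
variable {m : ℕ}

/-- real part of `conj(z)² w` -/
def ph (y : Eu (m + 4)) : ℝ := (y 0 ^ 2 - y 1 ^ 2) * y 2 + 2 * y 0 * y 1 * y 3

/-- imaginary part of `conj(z)² w` -/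
def ch (y : Eu (m + 4)) : ℝ := (y 0 ^ 2 - y 1 ^ 2) * y 3 - 2 * y 0 * y 1 * y 2

/-- `|z|²` -/
def rr (y : Eu (m + 4)) : ℝ := y 0 ^ 2 + y 1 ^ 2

/-- `|w|²` -/
def ss (y : Eu (m + 4)) : ℝ := y 2 ^ 2 + y 3 ^ 2

/-- `|z|² + |w|²` -/
def pp (y : Eu (m + 4)) : ℝ := rr y + ss y

/-- the remaining coordinates -/
def tl (j : Fin m) : Fin (m + 4) := j.succ.succ.succ.succ

/-- the symmetries -/
def GG (m : ℕ) : Set (Iso (m + 4)) :=
  {g | ∀ y, ph (g y) = ph y ∧ ch (g y) = -ch y ∧ rr (g y) = rr y ∧ ss (g y) = ss y}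

/-- the support function before lamination -/
noncomputable def h0 (y : Eu (m + 4)) : ℝ := ‖y‖ - 1 / 50 * (ph y / ‖y‖ ^ 2)

/-- the even coordinate -/
noncomputable def fa (y : Eu (m + 4)) : ℝ := ph y / rr y / √(pp y)

/-- the odd coordinate -/
noncomputable def fb (y : Eu (m + 4)) : ℝ := ch y / rr y / √(pp y)

/-- smoothed length of the remaining coordinates -/
noncomputable def QQ (y : Eu (m + 4)) : ℝ := √(‖y‖ ^ 2 - (1 - (1 / 10 ^ 24) ^ 2) * pp y)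

/-- the two branches of the barrier -/
noncomputable def om : Bool → Eu (m + 4) → ℝ
  | true => fun y => √(rr y) + 1 / 10 ^ 22 * (1 / 2 * ‖y‖ - √(ss y)) - 2 * QQ y
  | false => fun y => √(rr y) + 1 / 10 ^ 22 * (1 / 2 * ‖y‖ + 40000 * √(rr y) - 8000 * (ph y / rr y))
      - 2 * QQ y

/-- the region of the barrier -/
def CC (m : ℕ) : Set (Eu (m + 4)) :=
  {u | ‖u‖ = 1 ∧ 1 / 2000 * (rr u * √(pp u)) ≤ ph u ∧ (1 / 10 ^ 24) ^ 2 ≤ rr u ∧ 1 / 2 ≤ pp u}

/-- first derivative of `ph` -/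
def dph (u x : Eu (m + 4)) : ℝ :=
  2 * (u 0 * u 2 + u 1 * u 3) * x 0 + 2 * (u 0 * u 3 - u 1 * u 2) * x 1
    + (u 0 ^ 2 - u 1 ^ 2) * x 2 + 2 * u 0 * u 1 * x 3

/-- second derivative of `ph` -/
def ddph (u x e : Eu (m + 4)) : ℝ :=
  2 * u 2 * (x 0 * e 0 - x 1 * e 1) + 2 * u 3 * (x 0 * e 1 + x 1 * e 0)
    + 2 * u 0 * (x 0 * e 2 + x 2 * e 0 + x 1 * e 3 + x 3 * e 1)
    + 2 * u 1 * (x 0 * e 3 + x 3 * e 0 - x 1 * e 2 - x 2 * e 1)

/-- radial component of `x` in the `z` plane, divided by `|z|` -/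
noncomputable def cA (u x : Eu (m + 4)) : ℝ := (u 0 * x 0 + u 1 * x 1) / rr u

/-- angular component of `x` in the `z` plane, divided by `|z|` -/
noncomputable def cD (u x : Eu (m + 4)) : ℝ := (u 0 * x 1 - u 1 * x 0) / rr u

/-- component of `x` in the `w` plane along `z²` -/
noncomputable def cE (u x : Eu (m + 4)) : ℝ := ((u 0 ^ 2 - u 1 ^ 2) * x 2 + 2 * u 0 * u 1 * x 3) / rr u

/-- component of `x` in the `w` plane along `i z²` -/
noncomputable def cF (u x : Eu (m + 4)) : ℝ := ((u 0 ^ 2 - u 1 ^ 2) * x 3 - 2 * u 0 * u 1 * x 2) / rr u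

/-- the linear relations satisfied by the admissible directions -/
structure Adm (u x : Eu (m + 4)) : Prop where
  perp : inner ℝ u x = 0
  rot : (1 + 1 / 25 * ph u) * (rr u * cD u x + 2 * (cF u x * (ph u / rr u) - cE u x * (ch u / rr u)))
    = 1 / 25 * rr u * (cD u x * (ph u / rr u) + cF u x - cA u x * (ch u / rr u))
  tail : ∀ j, (1 + 1 / 25 * ph u) * x (tl j) = -(1 / 25 * dph u x) * u (tl j)

/-- the vector with four given coordinates and zero tail -/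
def mk4 (m : ℕ) (a b c d : ℝ) : Eu (m + 4) :=
  WithLp.toLp 2 (Fin.cons a (Fin.cons b (Fin.cons c (Fin.cons d fun _ => 0))))

@[simp] theorem mk4_zero (a b c d : ℝ) : mk4 m a b c d 0 = a := rfl
@[simp] theorem mk4_one (a b c d : ℝ) : mk4 m a b c d 1 = b := rfl
@[simp] theorem mk4_two (a b c d : ℝ) : mk4 m a b c d 2 = c := rfl
@[simp] theorem mk4_three (a b c d : ℝ) : mk4 m a b c d 3 = d := rfl
@[simp] theorem mk4_tl (a b c d : ℝ) (j : Fin m) : mk4 m a b c d (tl j) = 0 := rfl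

theorem ext4 {x y : Eu (m + 4)} (h0 : x 0 = y 0) (h1 : x 1 = y 1) (h2 : x 2 = y 2) (h3 : x 3 = y 3)
    (ht : ∀ j, x (tl j) = y (tl j)) : x = y := by
  ext i
  refine Fin.cases h0 (fun i => ?_) i
  refine Fin.cases h1 (fun i => ?_) i
  refine Fin.cases h2 (fun i => ?_) i
  exact Fin.cases h3 (fun i => ht i) i

theorem tl_ne (j : Fin m) : (0 : Fin (m + 4)) ≠ tl j ∧ (1 : Fin (m + 4)) ≠ tl j ∧
    (2 : Fin (m + 4)) ≠ tl j ∧ (3 : Fin (m + 4)) ≠ tl j := by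
  have h : (tl j : ℕ) = j + 4 := rfl
  have h1 : ((1 : Fin (m + 4)) : ℕ) = 1 := rfl
  have h2 : ((2 : Fin (m + 4)) : ℕ) = 2 := rfl
  have h3 : ((3 : Fin (m + 4)) : ℕ) = 3 := rfl
  have h0 : ((0 : Fin (m + 4)) : ℕ) = 0 := rfl
  refine ⟨?_, ?_, ?_, ?_⟩ <;> intro e <;> have := congrArg Fin.val e <;> omega

theorem single_tl (j : Fin m) : (EuclideanSpace.single (tl j) (1 : ℝ) : Eu (m + 4)) 0 = 0 ∧
    (EuclideanSpace.single (tl j) (1 : ℝ) : Eu (m + 4)) 1 = 0 ∧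
    (EuclideanSpace.single (tl j) (1 : ℝ) : Eu (m + 4)) 2 = 0 ∧
    (EuclideanSpace.single (tl j) (1 : ℝ) : Eu (m + 4)) 3 = 0 := by
  obtain ⟨h0, h1, h2, h3⟩ := tl_ne j
  simp [h0, h1, h2, h3]

theorem inner_split (x y : Eu (m + 4)) : inner ℝ x y =
    x 0 * y 0 + x 1 * y 1 + x 2 * y 2 + x 3 * y 3 + ∑ j, x (tl j) * y (tl j) := by
  rw [Calc.inner_dot, dotProduct, Fin.sum_univ_succ, Fin.sum_univ_succ, Fin.sum_univ_succ,
    Fin.sum_univ_succ]
  change x 0 * y 0 + (x 1 * y 1 + (x 2 * y 2 + (x 3 * y 3 + ∑ j, x (tl j) * y (tl j)))) = _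
  ring

theorem norm_sq_split (y : Eu (m + 4)) : ‖y‖ ^ 2 = pp y + ∑ j, y (tl j) ^ 2 := by
  rw [← real_inner_self_eq_norm_sq, inner_split]
  simp only [pp, rr, ss, pow_two]
  ring

theorem pp_le (y : Eu (m + 4)) : pp y ≤ ‖y‖ ^ 2 := by
  rw [norm_sq_split]
  exact le_add_of_nonneg_right (Finset.sum_nonneg fun _ _ => sq_nonneg _)

theorem ph_sq_add (y : Eu (m + 4)) : ph y ^ 2 + ch y ^ 2 = rr y ^ 2 * ss y := by
  simp only [ph, ch, rr, ss]
  ring

theorem pos_of_ph {y : Eu (m + 4)} (h : 0 < ph y) : 0 < rr y ∧ 0 < ss y := by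
  have h1 : 0 < rr y ^ 2 * ss y := by
    rw [← ph_sq_add]
    positivity
  have h2 : 0 ≤ rr y := by unfold rr; positivity
  have h3 : 0 ≤ ss y := by unfold ss; positivity
  refine ⟨h2.lt_of_ne fun e => ?_, h3.lt_of_ne fun e => ?_⟩ <;> rw [← e] at h1 <;> simp at h1

theorem contDiff_coord' {k : WithTop ℕ∞} (i : Fin (m + 4)) :
    ContDiff ℝ k fun y : Eu (m + 4) => y i :=
  (EuclideanSpace.proj i : Eu (m + 4) →L[ℝ] ℝ).contDiff

theorem contDiff_poly {k : WithTop ℕ∞} : ContDiff ℝ k (ph : Eu (m + 4) → ℝ) ∧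
    ContDiff ℝ k (ch : Eu (m + 4) → ℝ) ∧ ContDiff ℝ k (rr : Eu (m + 4) → ℝ) ∧
    ContDiff ℝ k (ss : Eu (m + 4) → ℝ) ∧ ContDiff ℝ k (pp : Eu (m + 4) → ℝ) := by
  have c := fun i => contDiff_coord' (m := m) (k := k) i
  have h1 : ContDiff ℝ k (rr : Eu (m + 4) → ℝ) := ((c 0).pow 2).add ((c 1).pow 2)
  have h2 : ContDiff ℝ k (ss : Eu (m + 4) → ℝ) := ((c 2).pow 2).add ((c 3).pow 2)
  exact ⟨((((c 0).pow 2).sub ((c 1).pow 2)).mul (c 2)).add
      (((contDiff_const.mul (c 0)).mul (c 1)).mul (c 3)),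
    ((((c 0).pow 2).sub ((c 1).pow 2)).mul (c 3)).sub
      (((contDiff_const.mul (c 0)).mul (c 1)).mul (c 2)), h1, h2, h1.add h2⟩

theorem poly_smul (t : ℝ) (y : Eu (m + 4)) : ph (t • y) = t ^ 3 * ph y ∧ ch (t • y) = t ^ 3 * ch y ∧
    rr (t • y) = t ^ 2 * rr y ∧ ss (t • y) = t ^ 2 * ss y ∧ pp (t • y) = t ^ 2 * pp y := by
  simp only [ph, ch, pp, rr, ss, PiLp.smul_apply, smul_eq_mul]
  refine ⟨?_, ?_, ?_, ?_, ?_⟩ <;> ring

theorem jet_ph (u x e : Eu (m + 4)) : Jet ph u x e (ph u) (dph u x) (dph u e) (ddph u x e) := by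
  have c := fun i => Jet.coord i u x e
  have := (((c 0).sq.sub (c 1).sq).mul (c 2)).add (((((c 0).const_mul 2)).mul (c 1)).mul (c 3))
  exact this.congr rfl (by simp only [dph]; ring) (by simp only [dph]; ring)
    (by simp only [ddph]; ring)

end explicit

end Pool.Agent.P.MP_4a4b50_gt.Lam
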