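import Pool.Agent.P.MP_4a4b50_gt.Lam.Base
import Pool.Agent.P.MP_4a4b50_gt.Defs

/-! Lamination construction: the statements of the steps. -/

set_option autoImplicit false

namespace Pool.Agent.P.MP_4a4b50_gt.Lam

open scoped ContDiff Topology
open Pool.Agent.P.MP_f97e06_gt (Eu)
open Matrix Set Filter Pool.Agent.P.MP_4a4b50_gt.CE

-- deps:
def S_ROBP : Prop := ∀ (n : ℕ) (P : Type) [TopologicalSpace P] (T : Set P) (X : P → Mat n),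
  IsCompact T → ContinuousOn X T → (∀ p ∈ T, (X p).PosDef) →
  ∃ δ : ℝ, 0 < δ ∧ ∀ p ∈ T, ∀ E : Mat n, Eᵀ = E → (∀ i j, |E i j| ≤ δ) → (X p + E).PosDef

-- deps:
def S_ROB : Prop := ∀ (n : ℕ) (P : Type) [TopologicalSpace P] (T : Set P) (X Y W : P → Mat n),
  IsCompact T → ContinuousOn X T → ContinuousOn Y T → ContinuousOn W T →
  (∀ p ∈ T, (X p).PosDef ∧ (Y p).PosDef ∧ 0 < (((X p)⁻¹ + (Y p)⁻¹) * W p).trace) →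
  ∃ δ : ℝ, 0 < δ ∧ ∀ p ∈ T, ∀ E F : Mat n, (∀ i j, |E i j| ≤ δ) → (∀ i j, |F i j| ≤ δ) →
    0 < (((X p + E)⁻¹ + (Y p)⁻¹) * (W p + F)).trace

-- deps:
def S_ALG : Prop := ∀ (n : ℕ) (X : Mat n) (ξ : Fin n → ℝ) (B a : ℝ), X.PosDef → -1 < a →
  (0 ≤ B → B * (ξ ⬝ᵥ X⁻¹ *ᵥ ξ) ≤ 1 → (X + (B * a) • vecMulVec ξ ξ).PosDef) ∧
  (B * (ξ ⬝ᵥ X⁻¹ *ᵥ ξ) = 1 → ∀ (Y W : Mat n) (c : ℝ),
    (((X + (B * a) • vecMulVec ξ ξ)⁻¹ + Y⁻¹) * (W + c • vecMulVec ξ ξ)).trace =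
      ((X⁻¹ + Y⁻¹) * W).trace + ((1 + a)⁻¹ - 1) * B * ((X⁻¹ *ᵥ ξ) ⬝ᵥ W *ᵥ (X⁻¹ *ᵥ ξ))
        + c * ((1 + a)⁻¹ * (ξ ⬝ᵥ X⁻¹ *ᵥ ξ) + ξ ⬝ᵥ Y⁻¹ *ᵥ ξ))

-- deps:
def S_PROF : Prop := ∀ η K δ : ℝ, 0 < η → 0 < K → 0 < δ →
  ∃ (l M : ℝ) (L X : ℝ → ℝ), Prof η K δ l M L X

-- deps:
def S_DIR : Prop := ∀ (n : ℕ) (h f : Eu n → ℝ) (u : Eu n), (hatM h u).PosDef →
  (∀ e, D2 h u (dir h f u) e + inner ℝ u (dir h f u) * inner ℝ u e = fderiv ℝ f u e) ∧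
  (∀ x, (∀ e, D2 h u x e + inner ℝ u x * inner ℝ u e = fderiv ℝ f u e) → x = dir h f u) ∧
  (‖u‖ = 1 → Hom1 h → ContDiffAt ℝ 2 h u → Hom0 f → DifferentiableAt ℝ f u →
    inner ℝ u (dir h f u) = 0) ∧
  (fderiv ℝ f u ≠ 0 → 0 < fderiv ℝ f u (dir h f u)) ∧
  (ContDiffAt ℝ ∞ h u → ContDiffAt ℝ ∞ f u → ContDiffAt ℝ ∞ (dir h f) u) ∧
  (∀ (a b c : Eu n → ℝ) (p q : ℝ),
    fderiv ℝ f u = fderiv ℝ a u + p • fderiv ℝ b u + q • fderiv ℝ c u →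
    dir h f u = dir h a u + p • dir h b u + q • dir h c u)

-- deps: DIR
def S_PAIR : Prop := ∀ (n : ℕ) (G : Set (Iso n)) (φ h a b : Eu n → ℝ) (σ τ : ℝ), Pre G φ h →
  Phase G φ σ a → Phase G φ τ b → τ * τ = 1 → Phase G φ (σ * τ) (pair h a b)

-- deps: ROBP ROB
def S_TOUCH : Prop := ∀ (n : ℕ) (G : Set (Iso n)) (φ f : Eu n → ℝ) (C : Set (Eu n))
  (W : Bool → Eu n → ℝ), Pre G φ f → Bar φ C W →
  (∀ i, ∀ u ∈ Act C W i, 0 < (((hatM f u)⁻¹ + (hatM f (-u))⁻¹) * hessM (W i) u).trace) →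
  SubHyp G φ f

-- deps:
def S_OSC : Prop := ∀ (n : ℕ) (T U : Set (Eu n)) (B S : Eu n → ℝ) (M δ : ℝ), IsCompact T →
  IsOpen U → T ⊆ U → ContDiffOn ℝ 2 B U → ContDiffOn ℝ 2 S U → 0 < δ →
  ∃ ε₀ : ℝ, 0 < ε₀ ∧ ∀ ε : ℝ, 0 < ε → ε ≤ ε₀ → ∀ L : ℝ → ℝ, ContDiff ℝ 2 L →
    (∀ s, |L s| ≤ M ∧ |deriv L s| ≤ M) → ∀ u ∈ T, |osc B S L ε u| ≤ δ ∧ ∀ i j,
      |hessM (osc B S L ε) u i j - B u * deriv (deriv L) (S u / ε) * (gr S u i * gr S u j)| ≤ δ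

-- deps: DIR PAIR
def S_AMP : Prop := ∀ (n : ℕ) (G : Set (Iso n)) (φ h S : Eu n → ℝ) (K : Set (Eu n)), Pre G φ h →
  Phase G φ (-1) S → IsCompact K → (∀ u ∈ K, ‖u‖ = 1 ∧ 0 < φ u ∧ dir h S u ≠ 0) →
  ∃ (c : ℝ) (B : Eu n → ℝ), Amp G φ h S c B ∧
    ∀ u ∈ K, B u * (gr S u ⬝ᵥ (hatM h u)⁻¹ *ᵥ gr S u) = 1

-- deps: ROBP ALG OSC
def S_LAMF : Prop := ∀ (n : ℕ) (G : Set (Iso n)) (φ h S B : Eu n → ℝ) (c η K δ l M : ℝ)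
  (L X : ℝ → ℝ), Pre G φ h → Phase G φ (-1) S → Amp G φ h S c B → Prof η K δ l M L X →
  ∃ ε₀ : ℝ, 0 < ε₀ ∧ ∀ ε : ℝ, 0 < ε → ε ≤ ε₀ → Pre G φ (fun y => h y + osc B S L ε y) ∧
    ∀ u, ‖u‖ = 1 → φ u < 0 → hatM (fun y => h y + osc B S L ε y) u = hatM h u

-- deps: ROB ALG
def S_LAMC : Prop := ∀ (n : ℕ) (T : Set (Eu n)) (X Y W : Eu n → Mat n) (ξ : Eu n → Fin n → ℝ)
  (B : Eu n → ℝ), IsCompact T → ContinuousOn X T → ContinuousOn Y T → ContinuousOn W T →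
  ContinuousOn ξ T → ContinuousOn B T →
  (∀ p ∈ T, (X p).PosDef ∧ (Y p).PosDef ∧ B p * (ξ p ⬝ᵥ (X p)⁻¹ *ᵥ ξ p) = 1 ∧
    0 < ((X p)⁻¹ *ᵥ ξ p) ⬝ᵥ W p *ᵥ ((X p)⁻¹ *ᵥ ξ p)) →
  ∃ η K δ : ℝ, 0 < η ∧ 0 < K ∧ 0 < δ ∧ ∀ l M : ℝ, 0 < l → ∃ δ' : ℝ, 0 < δ' ∧
    ∀ p ∈ T, ∀ a c : ℝ, l ≤ 1 + a → |a| ≤ M → -η ≤ c → |c| ≤ M → (1 + a ≤ δ ∨ K ≤ c) →
      ∀ E F : Mat n, (∀ i j, |E i j| ≤ δ') → (∀ i j, |F i j| ≤ δ') →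
        0 < (((X p + (B p * a) • vecMulVec (ξ p) (ξ p) + E)⁻¹ + (Y p)⁻¹) *
          (W p + c • vecMulVec (ξ p) (ξ p) + F)).trace

-- deps: PROF TOUCH OSC AMP LAMF LAMC
def S_LAM : Prop := ∀ (n : ℕ) (G : Set (Iso n)) (φ h S : Eu n → ℝ) (C : Set (Eu n))
  (W : Bool → Eu n → ℝ), Pre G φ h → Phase G φ (-1) S → Bar φ C W →
  (∀ i, ∀ u ∈ Act C W i, 0 < D2 (W i) u (dir h S u) (dir h S u)) → ∃ f, Geom G φ f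

-- deps: DIR PAIR
def S_BANDA : Prop := ∀ (n : ℕ) (G : Set (Iso n)) (φ h a b : Eu n → ℝ) (t₀ t : ℝ)
  (C : Set (Eu n)) (W : Bool → Eu n → ℝ), Pre G φ h → Phase G φ 1 a → Phase G φ (-1) b →
  PBar φ a t₀ t C W → (∀ u, 0 < φ u → fderiv ℝ a u ≠ 0) →
  (∀ i, ∀ u ∈ Act C W i, ∀ β : ℝ,
    0 < D2 (W i) u (dir h b u + β • dir h a u) (dir h b u + β • dir h a u)) →
  (∀ u ∈ C, a u = t → ∀ β : ℝ, fderiv ℝ a u (dir h b u + β • dir h a u) = 0 →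
    0 < D2 a u (dir h b u + β • dir h a u) (dir h b u + β • dir h a u)) →
  ∃ (S : Eu n → ℝ) (R : ℝ), Phase G φ (-1) S ∧
    (∀ i, ∀ u ∈ Act C W i, 0 < D2 (W i) u (dir h S u) (dir h S u)) ∧
    (∀ u ∈ C, |fderiv ℝ a u (dir h S u)| ≤ R * |a u - t|) ∧
    ∀ u ∈ C, a u = t → 0 < D2 a u (dir h S u) (dir h S u)

-- deps: DIR
def S_BANDB : Prop := ∀ (n : ℕ) (G : Set (Iso n)) (φ h a S : Eu n → ℝ) (t₀ t R : ℝ)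
  (C : Set (Eu n)) (W : Bool → Eu n → ℝ), Pre G φ h → Phase G φ 1 a → Phase G φ (-1) S →
  PBar φ a t₀ t C W →
  (∀ i, ∀ u ∈ Act C W i, 0 < D2 (W i) u (dir h S u) (dir h S u)) →
  (∀ u ∈ C, |fderiv ℝ a u (dir h S u)| ≤ R * |a u - t|) →
  (∀ u ∈ C, a u = t → 0 < D2 a u (dir h S u) (dir h S u)) →
  ∃ V : Bool → Eu n → ℝ, Bar φ C V ∧
    ∀ i, ∀ u ∈ Act C V i, 0 < D2 (V i) u (dir h S u) (dir h S u)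

-- deps:
def S_GRP : Prop := ∀ m : ℕ, NoFix (GG m) ∧ ∀ x : Eu (m + 4), ph x = 0 → ∃ g ∈ GG m, g x = -x

-- deps:
def S_HZ : Prop := ∀ m : ℕ, ContDiffOn ℝ ∞ (h0 : Eu (m + 4) → ℝ) {0}ᶜ ∧
  Hom1 (h0 : Eu (m + 4) → ℝ) ∧ Inv (GG m) h0 ∧ ∀ u x e : Eu (m + 4), ‖u‖ = 1 →
    D2 h0 u x e + inner ℝ u x * inner ℝ u e =
      (1 + 1 / 25 * ph u) * inner ℝ x e - 1 / 50 * ddph u x e
        + 1 / 25 * (dph u x * inner ℝ u e + dph u e * inner ℝ u x)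
        - 4 / 25 * ph u * (inner ℝ u x * inner ℝ u e)

-- deps:
def S_PB : Prop := ∀ (m : ℕ) (u x : Eu (m + 4)), ‖u‖ = 1 →
  |ph u| ≤ 1 ∧ |dph u x| ≤ 3 * ‖x‖ ∧ |ddph u x x| ≤ 6 * ‖x‖ ^ 2

-- deps: GRP HZ PB
def S_PRE : Prop := ∀ m : ℕ, Pre (GG m) ph h0

-- deps:
def S_JET : Prop := ∀ (m : ℕ) (u x : Eu (m + 4)), 0 < rr u →
  Jet (fun y => ph y / rr y) u x x (ph u / rr u) (cE u x + 2 * (ch u / rr u) * cD u x)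
    (cE u x + 2 * (ch u / rr u) * cD u x)
    (-4 * (ph u / rr u) * cD u x ^ 2 + 4 * cD u x * (cF u x - ch u / rr u * cA u x)) ∧
  (∃ c, Jet (fun y => ch y / rr y) u x x (ch u / rr u) (cF u x - 2 * (ph u / rr u) * cD u x)
    (cF u x - 2 * (ph u / rr u) * cD u x) c) ∧
  Jet (fun y => √(rr y)) u x x √(rr u) (√(rr u) * cA u x) (√(rr u) * cA u x)
    (√(rr u) * cD u x ^ 2) ∧
  (0 < ss u → ∃ a, Jet (fun y => √(ss y)) u x x √(ss u) a a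
    ((cF u x * (ph u / rr u) - cE u x * (ch u / rr u)) ^ 2 / √(ss u) ^ 3)) ∧
  Jet (fun y => √(pp y)) u x x √(pp u)
    ((rr u * cA u x + ph u / rr u * cE u x + ch u / rr u * cF u x) / √(pp u))
    ((rr u * cA u x + ph u / rr u * cE u x + ch u / rr u * cF u x) / √(pp u))
    ((pp x - (rr u * cA u x + ph u / rr u * cE u x + ch u / rr u * cF u x) ^ 2 / pp u) / √(pp u)) ∧
  rr x = rr u * (cA u x ^ 2 + cD u x ^ 2) ∧ ss x = cE u x ^ 2 + cF u x ^ 2 ∧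
  (ph u / rr u) ^ 2 + (ch u / rr u) ^ 2 = ss u

-- deps: JET
def S_AB : Prop := ∀ m : ℕ, Phase (GG m) ph 1 fa ∧ Phase (GG m) ph (-1) fb ∧
  ∀ u : Eu (m + 4), 0 < ph u → fderiv ℝ fa u ≠ 0 ∧
    (∀ β : ℝ, fderiv ℝ fb u + β • fderiv ℝ fa u ≠ 0) ∧ ∀ x,
    fderiv ℝ fa u x * √(pp u) = cE u x + 2 * (ch u / rr u) * cD u x - ph u / rr u *
      ((rr u * cA u x + ph u / rr u * cE u x + ch u / rr u * cF u x) / pp u) ∧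
    fderiv ℝ fb u x * √(pp u) = cF u x - 2 * (ph u / rr u) * cD u x - ch u / rr u *
      ((rr u * cA u x + ph u / rr u * cE u x + ch u / rr u * cF u x) / pp u) ∧
    (fderiv ℝ fa u x = 0 → D2 fa u x x * √(pp u) =
      -4 * (ph u / rr u) * cD u x ^ 2 + 4 * cD u x * (cF u x - ch u / rr u * cA u x)
        - ph u / rr u / pp u *
          (pp x - (rr u * cA u x + ph u / rr u * cE u x + ch u / rr u * cF u x) ^ 2 / pp u))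

-- deps: DIR HZ PRE AB
def S_ADM : Prop := ∀ (m : ℕ) (u : Eu (m + 4)) (β : ℝ), ‖u‖ = 1 → 0 < ph u →
  Adm u (dir h0 fb u + β • dir h0 fa u) ∧
    0 < fderiv ℝ fb u (dir h0 fb u + β • dir h0 fa u)
      + β * fderiv ℝ fa u (dir h0 fb u + β • dir h0 fa u)

-- deps:
def S_PA : Prop := ∀ r s τ A D E F g p : ℝ, 0 < r → 0 < s → p = r + s ^ 2 + τ ^ 2 → 1 / 2 ≤ p →
  p ≤ 1 → s ^ 2 = p / 10 ^ 6 → r * A + s * E + τ * F = g * p →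
  (1 + 1 / 25 * (r * s)) * (r * D + 2 * (F * s - E * τ)) = 1 / 25 * r * (D * s + F - A * τ) →
  E + 2 * τ * D = s * g → 0 < F - 2 * s * D - τ * g →
  s * (r * (A ^ 2 + D ^ 2) + (E ^ 2 + F ^ 2) - g ^ 2 * p) <
    p * (-4 * s * D ^ 2 + 4 * D * (F - τ * A))

-- deps: JET AB PA
def S_PC : Prop := ∀ (m : ℕ), ∀ u ∈ CC m, fa u = 1 / 1000 → ∀ x, Adm u x →
  fderiv ℝ fa u x = 0 → 0 < fderiv ℝ fb u x → 0 < D2 fa u x x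

-- deps: PB
def S_QB : Prop := ∀ (m : ℕ), ∀ u ∈ CC m, ∀ x, Adm u x →
  ∃ a c, Jet QQ u x x (QQ u) a a c ∧ c ≤ 3 / 10 ^ 24 * ‖x‖ ^ 2

-- deps: JET QB
def S_WA : Prop := ∀ (m : ℕ), ∀ u ∈ Act (CC m) om true, ∀ x, Adm u x → x ≠ 0 →
  0 < D2 (om true) u x x

-- deps: JET QB
def S_WB : Prop := ∀ (m : ℕ), ∀ u ∈ Act (CC m) om false, ∀ x, Adm u x → x ≠ 0 →
  0 < D2 (om false) u x x

-- deps:
def S_REG : Prop := ∀ m : ℕ, PBar ph fa (1 / 2000) (1 / 1000) (CC m) om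

-- deps: LAM BANDA BANDB PRE AB ADM PC WA WB REG
def S_GEO : Prop := ∀ m : ℕ, ∃ f, Geom (GG m) ph f

-- deps:
-- imports: Pool.Agent.P.MP_4a4b50_gt.CBody
def S_BODY : Prop := ∀ (n N : ℕ) (G : Set (Iso n)) (h d : Eu n → ℝ), 2 ≤ n → 2 ≤ N → NoFix G →
  Sol N G h d → ∃ H K : Set (EuclideanSpace ℝ (Fin n)), IsCPlus N H ∧ IsCPlus N K ∧
    (∀ u, ‖u‖ = 1 → supp H u + supp H (-u) = supp K u + supp K (-u)) ∧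
    (∀ u, ‖u‖ = 1 → radii H (-u) * radii K u = radii K (-u) * radii H u) ∧
    ¬ ∃ v, H = (fun x => x + v) '' K

end Pool.Agent.P.MP_4a4b50_gt.Lam
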