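import Pool.Agent.P.MP_4a4b50_gt.Lam.Iface

set_option autoImplicit false

/-! Step ROBP. -/

namespace Pool.Agent.P.MP_4a4b50_gt.Lam

open scoped ContDiff Topology
open Pool.Agent.P.MP_f97e06_gt (Eu)
open Matrix Set Filter Pool.Agent.P.MP_4a4b50_gt.CE

theorem p_ROBP :
    S_ROBP := by
  intro n P _ T X hT hX h
  have : CompactSpace T := isCompact_iff_compactSpace.1 hT
  have cX : Continuous fun p : T => X p := continuousOn_iff_continuous_domRestrict.1 hX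
  have hK : IsCompact ((univ : Set T) ×ˢ Metric.sphere (0 : Fin n → ℝ) 1) :=
    isCompact_univ.prod (isCompact_sphere 0 1)
  have key : ∀ᶠ z : Fin n → Fin n → ℝ in 𝓝 0,
      ∀ q ∈ (univ : Set T) ×ˢ Metric.sphere (0 : Fin n → ℝ) 1,
        0 < q.2 ⬝ᵥ (X q.1 + Matrix.of z) *ᵥ q.2 := by
    refine hK.eventually_forall_of_forall_eventually fun q hq => ?_
    have c1 : Continuous fun y : (Fin n → Fin n → ℝ) × T × (Fin n → ℝ) =>
        X y.2.1 + Matrix.of y.1 :=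
      (cX.comp (continuous_fst.comp continuous_snd)).add continuous_fst
    have c2 : Continuous fun y : (Fin n → Fin n → ℝ) × T × (Fin n → ℝ) => y.2.2 :=
      continuous_snd.comp continuous_snd
    refine (c2.dotProduct (c1.matrix_mulVec c2)).continuousAt.eventually (lt_mem_nhds ?_)
    have e1 : X q.1 + Matrix.of (0 : Fin n → Fin n → ℝ) = X q.1 := add_zero _
    show 0 < q.2 ⬝ᵥ (X q.1 + Matrix.of (0 : Fin n → Fin n → ℝ)) *ᵥ q.2
    rw [e1]
    refine cm_pos (h q.1 q.1.2) fun e => ?_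
    simpa [e] using hq.2
  obtain ⟨ε, hε, hk⟩ := Metric.eventually_nhds_iff.1 key
  refine ⟨ε / 2, by linarith, fun p hp E hE hb => ?_⟩
  have hn : ‖(fun i j => E i j : Fin n → Fin n → ℝ)‖ < ε :=
    lt_of_le_of_lt ((pi_norm_le_iff_of_nonneg (by linarith)).2 fun i =>
      (pi_norm_le_iff_of_nonneg (by linarith)).2 fun j => hb i j) (by linarith : ε / 2 < ε)
  refine PosDef.of_dotProduct_mulVec_pos ((h p hp).1.add ?_) fun v hv => ?_
  · rw [IsHermitian, conjTranspose_eq_transpose_of_trivial, hE]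
  · have v0 : 0 < ‖v‖ := norm_pos_iff.2 hv
    have h1 : 0 < (‖v‖⁻¹ • v) ⬝ᵥ (X p + E) *ᵥ (‖v‖⁻¹ • v) :=
      hk (y := fun i j => E i j) (by rwa [dist_zero_right]) (⟨p, hp⟩, ‖v‖⁻¹ • v)
        ⟨mem_univ _, by simp [norm_smul, v0.ne']⟩
    rw [mulVec_smul, dotProduct_smul, smul_dotProduct, smul_eq_mul, smul_eq_mul] at h1
    rw [star_trivial]
    exact (mul_pos_iff_of_pos_left (inv_pos.2 v0)).1 ((mul_pos_iff_of_pos_left (inv_pos.2 v0)).1 h1)

end Pool.Agent.P.MP_4a4b50_gt.Lam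

/-! Step ROB. -/

namespace Pool.Agent.P.MP_4a4b50_gt.Lam

open scoped ContDiff Topology
open Pool.Agent.P.MP_f97e06_gt (Eu)
open Matrix Set Filter Pool.Agent.P.MP_4a4b50_gt.CE

theorem rob_inv {n : ℕ} {Z : Type} [TopologicalSpace Z] {A : Z → Mat n} (hA : Continuous A) {z : Z}
    (h : (A z).det ≠ 0) : ContinuousAt (fun z => (A z)⁻¹) z := by
  simp only [Matrix.inv_def, Ring.inverse_eq_inv']
  exact (hA.matrix_det.continuousAt.inv₀ h).smul hA.matrix_adjugate.continuousAt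

theorem p_ROB :
    S_ROB := by
  intro n P _ T X Y W hT hX hY hW h
  have : CompactSpace T := isCompact_iff_compactSpace.1 hT
  have cX : Continuous fun p : T => X p := continuousOn_iff_continuous_domRestrict.1 hX
  have cY : Continuous fun p : T => Y p := continuousOn_iff_continuous_domRestrict.1 hY
  have cW : Continuous fun p : T => W p := continuousOn_iff_continuous_domRestrict.1 hW
  let Z : Type := (Fin n → Fin n → ℝ) × (Fin n → Fin n → ℝ)
  have key : ∀ᶠ z : Z in 𝓝 0, ∀ p ∈ (univ : Set T),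
      0 < (((X p + Matrix.of z.1)⁻¹ + (Y p)⁻¹) * (W p + Matrix.of z.2)).trace := by
    refine isCompact_univ.eventually_forall_of_forall_eventually fun p _ => ?_
    have c1 : Continuous fun y : Z × T => X y.2 + Matrix.of y.1.1 :=
      (cX.comp continuous_snd).add (continuous_fst.comp continuous_fst)
    have c2 : Continuous fun y : Z × T => Y y.2 := cY.comp continuous_snd
    have c3 : Continuous fun y : Z × T => W y.2 + Matrix.of y.1.2 :=
      (cW.comp continuous_snd).add (continuous_snd.comp continuous_fst)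
    have e1 : X p + Matrix.of (0 : Z).1 = X p := add_zero _
    have e2 : W p + Matrix.of (0 : Z).2 = W p := add_zero _
    have d1 := rob_inv c1 (z := (0, p)) (by
      show (X p + Matrix.of (0 : Z).1).det ≠ 0
      rw [e1]
      exact (h p p.2).1.det_pos.ne')
    have d2 := rob_inv c2 (z := (0, p)) (h p p.2).2.1.det_pos.ne'
    have c4 : Continuous fun q : Mat n × Mat n => (q.1 * q.2).trace :=
      (continuous_fst.matrix_mul continuous_snd).matrix_trace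
    have d3 := c4.continuousAt.comp ((d1.add d2).prodMk c3.continuousAt)
    refine d3.eventually (lt_mem_nhds ?_)
    show 0 < (((X p + Matrix.of (0 : Z).1)⁻¹ + (Y p)⁻¹) * (W p + Matrix.of (0 : Z).2)).trace
    rw [e1, e2]
    exact (h p p.2).2.2
  obtain ⟨ε, hε, hk⟩ := Metric.eventually_nhds_iff.1 key
  refine ⟨ε / 2, by linarith, fun p hp E F hE hF => ?_⟩
  have hn : ∀ G : Mat n, (∀ i j, |G i j| ≤ ε / 2) → ‖(fun i j => G i j : Fin n → Fin n → ℝ)‖ < ε :=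
    fun G hG => lt_of_le_of_lt ((pi_norm_le_iff_of_nonneg (by linarith)).2 fun i =>
      (pi_norm_le_iff_of_nonneg (by linarith)).2 fun j => hG i j) (by linarith : ε / 2 < ε)
  exact hk (y := (fun i j => E i j, fun i j => F i j))
    (by rw [dist_zero_right]; exact max_lt (hn E hE) (hn F hF)) ⟨p, hp⟩ (mem_univ _)

end Pool.Agent.P.MP_4a4b50_gt.Lam

/-! Step ALG. -/

namespace Pool.Agent.P.MP_4a4b50_gt.Lam

open scoped ContDiff Topology
open Pool.Agent.P.MP_f97e06_gt (Eu)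
open Matrix Set Filter Pool.Agent.P.MP_4a4b50_gt.CE

theorem alg_cs {n : ℕ} {X : Mat n} (hX : X.PosDef) (ξ : Fin n → ℝ) {v : Fin n → ℝ} (hv : v ≠ 0) :
    (ξ ⬝ᵥ v) ^ 2 ≤ (ξ ⬝ᵥ X⁻¹ *ᵥ ξ) * (v ⬝ᵥ X *ᵥ v) := by
  have hq := cm_pos hX hv
  have h := inv_form_lower hX ξ (((ξ ⬝ᵥ v) / (v ⬝ᵥ X *ᵥ v)) • v)
  rw [mulVec_smul, dotProduct_smul, dotProduct_smul, smul_dotProduct] at h
  simp only [smul_eq_mul] at h
  set p := ξ ⬝ᵥ v
  set q := v ⬝ᵥ X *ᵥ v
  have e : 2 * (p / q * p) - p / q * (p / q * q) = p ^ 2 / q := by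
    field_simp
    ring
  rw [e, div_le_iff₀ hq] at h
  exact h

theorem alg_inv {n : ℕ} {X : Mat n} (hX : X.PosDef) (ξ : Fin n → ℝ) {B a : ℝ} (ha : -1 < a)
    (hB : B * (ξ ⬝ᵥ X⁻¹ *ᵥ ξ) = 1) :
    (X + (B * a) • vecMulVec ξ ξ)⁻¹ =
      X⁻¹ + (((1 + a)⁻¹ - 1) * B) • vecMulVec (X⁻¹ *ᵥ ξ) (X⁻¹ *ᵥ ξ) := by
  have h1 : (1 + a) ≠ 0 := by linarith
  have e1 : X *ᵥ (X⁻¹ *ᵥ ξ) = ξ := by rw [mulVec_mulVec, cm_mul_inv hX, one_mulVec]
  have hT : (X⁻¹)ᵀ = X⁻¹ := by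
    have := hX.inv.1.eq
    rwa [conjTranspose_eq_transpose_of_trivial] at this
  have e2 : ξ ᵥ* X⁻¹ = X⁻¹ *ᵥ ξ := by rw [← mulVec_transpose, hT]
  refine Matrix.inv_eq_right_inv ?_
  rw [add_mul, mul_add, mul_add, cm_mul_inv hX, mul_smul_comm, smul_mul_assoc, smul_mul_assoc,
    mul_smul_comm, mul_vecMulVec, vecMulVec_mul, vecMulVec_mul_vecMulVec, e1, e2,
    vecMulVec_smul, smul_smul, smul_smul, add_assoc, ← add_smul, ← add_smul]
  have : ((1 + a)⁻¹ - 1) * B + (B * a + B * a * (((1 + a)⁻¹ - 1) * B) * (ξ ⬝ᵥ X⁻¹ *ᵥ ξ)) = 0 := by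
    have h2 : (1 + a)⁻¹ * (1 + a) = 1 := inv_mul_cancel₀ h1
    linear_combination (B * a * ((1 + a)⁻¹ - 1)) * hB + B * h2
  rw [this, zero_smul, add_zero]

theorem p_ALG :
    S_ALG := by
  intro n X ξ B a hX ha
  refine ⟨fun hB h => ?_, fun hB Y W c => ?_⟩
  · refine PosDef.of_dotProduct_mulVec_pos ?_ fun v hv => ?_
    · refine hX.1.add ?_
      ext i j
      simp [vecMulVec_apply, mul_comm]
    · have hq := cm_pos hX hv
      have h1 := alg_cs hX ξ hv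
      rw [star_trivial, add_mulVec, dotProduct_add, smul_mulVec, dotProduct_smul,
        cm_form_vecMulVec, smul_eq_mul]
      have h2 := mul_le_mul_of_nonneg_left h1 hB
      have h3 := mul_le_mul_of_nonneg_right h hq.le
      have h4 : B * (ξ ⬝ᵥ v) ^ 2 ≤ v ⬝ᵥ X *ᵥ v := by nlinarith
      have h5 : 0 ≤ B * (ξ ⬝ᵥ v) ^ 2 := by positivity
      rcases le_or_gt 0 a with h6 | h6
      · nlinarith [mul_nonneg h5 h6]
      · nlinarith [mul_le_mul_of_nonpos_left h4 h6.le, mul_pos hq (by linarith : 0 < 1 + a)]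
  · rw [alg_inv hX ξ ha hB]
    have e1 := cm_trace_vecMulVec W (X⁻¹ *ᵥ ξ)
    rw [trace_mul_comm] at e1
    have e2 := cm_trace_vecMulVec X⁻¹ ξ
    have e3 := cm_trace_vecMulVec Y⁻¹ ξ
    have e4 := cm_trace_vecMulVec (vecMulVec (X⁻¹ *ᵥ ξ) (X⁻¹ *ᵥ ξ)) ξ
    rw [cm_form_vecMulVec, dotProduct_comm] at e4
    simp only [add_mul, mul_add, trace_add, mul_smul_comm, smul_mul_assoc, trace_smul,
      smul_eq_mul, e1, e2, e3, e4]
    linear_combination (c * ((1 + a)⁻¹ - 1) * (ξ ⬝ᵥ X⁻¹ *ᵥ ξ)) * hB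

end Pool.Agent.P.MP_4a4b50_gt.Lam

/-! Step PROF. -/

namespace Pool.Agent.P.MP_4a4b50_gt.Lam

open scoped ContDiff Topology
open Pool.Agent.P.MP_f97e06_gt (Eu)
open Matrix Set Filter Pool.Agent.P.MP_4a4b50_gt.CE

theorem prof_arcsin {c : ℝ} (h : |c| ≤ 1) : c ^ 2 ≤ Real.arcsin c * c := by
  have key : ∀ x : ℝ, 0 ≤ x → x ≤ 1 → x ^ 2 ≤ Real.arcsin x * x := by
    intro x h0 h1
    have h2 := Real.sin_le (Real.arcsin_nonneg.2 h0)
    rw [Real.sin_arcsin (by linarith) h1] at h2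
    nlinarith
  obtain ⟨h1, h2⟩ := abs_le.1 h
  rcases le_total 0 c with h0 | h0
  · exact key c h0 h2
  · have := key (-c) (by linarith) (by linarith)
    rw [Real.arcsin_neg] at this
    nlinarith

/-- a smooth periodic function close to a periodic parabola -/
theorem prof_fam {τ : ℝ} (h0 : 0 < τ) (h1 : τ ≤ 1 / 2) :
    ∃ F : ℝ → ℝ, ContDiff ℝ ∞ F ∧ (∀ s, F (-s) = F s) ∧ ∀ s, F s ≤ 0 ∧ |F s| ≤ 2 ∧
      |deriv F s| ≤ 2 ∧ ∃ R w : ℝ, τ ≤ R ∧ R ≤ 1 ∧ R ^ 2 = τ ^ 2 + (1 - τ ^ 2) * Real.sin s ^ 2 ∧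
        1 - R ^ 2 ≤ w ∧ w ≤ 2 ∧ 1 + deriv (deriv F) s = τ ^ 2 / R ^ 2 + w * τ ^ 2 / R ^ 3 := by
  obtain ⟨ρ, hρ0, hρ⟩ : ∃ ρ : ℝ, 0 ≤ ρ ∧ ρ ^ 2 = 1 - τ ^ 2 :=
    ⟨√(1 - τ ^ 2), Real.sqrt_nonneg _, Real.sq_sqrt (by nlinarith)⟩
  have hD : ∀ s, 1 - (ρ * Real.cos s) ^ 2 = τ ^ 2 + ρ ^ 2 * Real.sin s ^ 2 := by
    intro s
    have := Real.sin_sq_add_cos_sq s
    rw [mul_pow]
    linear_combination (-1) * hρ - ρ ^ 2 * this
  have hpos : ∀ s, 0 < 1 - (ρ * Real.cos s) ^ 2 := fun s => by rw [hD]; positivity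
  have hlt : ∀ s, |ρ * Real.cos s| < 1 := fun s => by
    rw [← sq_lt_one_iff_abs_lt_one]; linarith [hpos s]
  have hne : ∀ s, ρ * Real.cos s ≠ -1 ∧ ρ * Real.cos s ≠ 1 := fun s =>
    ⟨(abs_lt.1 (hlt s)).1.ne', (abs_lt.1 (hlt s)).2.ne⟩
  have hR : ∀ s, 0 < √(1 - (ρ * Real.cos s) ^ 2) := fun s => Real.sqrt_pos.2 (hpos s)
  have hR2 : ∀ s, √(1 - (ρ * Real.cos s) ^ 2) ^ 2 = τ ^ 2 + ρ ^ 2 * Real.sin s ^ 2 := fun s => by
    rw [Real.sq_sqrt (hpos s).le, hD]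
  have hθ : ∀ x, |Real.arcsin x| ≤ 2 := fun x => by
    have := Real.pi_le_four
    exact abs_le.2 ⟨by linarith [Real.neg_pi_div_two_le_arcsin x],
      by linarith [Real.arcsin_le_pi_div_two x]⟩
  have dc : ∀ s, HasDerivAt (fun s => ρ * Real.cos s) (ρ * -Real.sin s) s :=
    fun s => (Real.hasDerivAt_cos s).const_mul ρ
  have dθ : ∀ s, HasDerivAt (fun s => Real.arcsin (ρ * Real.cos s))
      (1 / √(1 - (ρ * Real.cos s) ^ 2) * (ρ * -Real.sin s)) s :=
    fun s => HasDerivAt.comp s (h₂ := Real.arcsin) (h := fun s => ρ * Real.cos s)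
      (Real.hasDerivAt_arcsin (hne s).1 (hne s).2) (dc s)
  have d1 : deriv (fun s => -(Real.arcsin (ρ * Real.cos s) ^ 2 / 2)) = fun s =>
      Real.arcsin (ρ * Real.cos s) * (ρ * Real.sin s) / √(1 - (ρ * Real.cos s) ^ 2) := by
    funext s
    rw [(((dθ s).fun_pow 2).div_const 2).fun_neg.deriv]
    simp only [Nat.cast_ofNat, Nat.add_one_sub_one, pow_one]
    ring
  refine ⟨fun s => -(Real.arcsin (ρ * Real.cos s) ^ 2 / 2), ?_, fun s => by simp, fun s => ?_⟩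
  · refine contDiff_iff_contDiffAt.2 fun s => ?_
    have : ContDiffAt ℝ ∞ (fun s => Real.arcsin (ρ * Real.cos s)) s :=
      (Real.contDiffAt_arcsin (hne s).1 (hne s).2).comp s (f := fun s => ρ * Real.cos s)
        (by fun_prop)
    exact ((this.pow 2).div_const 2).neg
  have dR : HasDerivAt (fun s => √(1 - (ρ * Real.cos s) ^ 2)) _ s :=
    (((dc s).fun_pow 2).const_sub 1).sqrt (hpos s).ne'
  have d2 := (((dθ s).fun_mul ((Real.hasDerivAt_sin s).const_mul ρ)).fun_div dR (hR s).ne').deriv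
  have ha := hθ (ρ * Real.cos s)
  have hw := prof_arcsin (hlt s).le
  have hRs := hR s
  have hR2s := hR2 s
  have hDs := hD s
  have hl := (hlt s).le
  rw [d1, d2]
  simp only [Nat.cast_ofNat, Nat.add_one_sub_one, pow_one]
  generalize √(1 - (ρ * Real.cos s) ^ 2) = R at *
  generalize Real.arcsin (ρ * Real.cos s) = θ at *
  have hθ2 : θ ^ 2 ≤ 4 := by nlinarith [abs_le.1 ha]
  refine ⟨by nlinarith [sq_nonneg θ], abs_le.2 ⟨by linarith, by nlinarith [sq_nonneg θ]⟩, ?_,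
    R, θ * (ρ * Real.cos s), ?_, ?_, by rw [hR2s, hρ], by linarith, ?_, ?_⟩
  · rw [abs_div, abs_of_pos hRs, div_le_iff₀ hRs, abs_mul]
    refine mul_le_mul ha ?_ (abs_nonneg _) (by norm_num)
    refine abs_le_of_sq_le_sq ?_ hRs.le
    rw [mul_pow]; nlinarith [sq_nonneg τ]
  · refine le_of_sq_le_sq ?_ hRs.le
    nlinarith [mul_nonneg (sq_nonneg ρ) (sq_nonneg (Real.sin s))]
  · nlinarith [sq_nonneg (ρ * Real.cos s)]
  · refine (le_abs_self _).trans ?_
    rw [abs_mul]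
    nlinarith [abs_nonneg θ, abs_nonneg (ρ * Real.cos s)]
  · have ht : τ ^ 2 = R ^ 2 - ρ ^ 2 * Real.sin s ^ 2 := by linarith
    rw [ht]
    field_simp
    ring

theorem p_PROF :
    S_PROF := by
  intro η K δ hη hK hδ
  have hk : 0 < K / η := div_pos hK hη
  obtain ⟨τ, hτ0, hτ1, hτ⟩ : ∃ τ : ℝ, 0 < τ ∧ τ ≤ 1 / 2 ∧ 16 * τ * (1 + K / η) = 1 :=
    ⟨1 / (16 * (1 + K / η)), by positivity,
      one_div_le_one_div_of_le (by norm_num) (by linarith), by field_simp⟩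
  obtain ⟨σ, hσ0, hσ1, hσ⟩ : ∃ σ : ℝ, 0 < σ ∧ σ ≤ 1 / 2 ∧ 3 * σ ≤ δ * (τ / 2) ^ 3 :=
    ⟨min (1 / 2) (δ * (τ / 2) ^ 3 / 3), by positivity, min_le_left _ _, by
      linarith [min_le_right (1 / 2) (δ * (τ / 2) ^ 3 / 3)]⟩
  obtain ⟨L, hL, hLe, HL⟩ := prof_fam hσ0 hσ1
  obtain ⟨F, hF, -, HF⟩ := prof_fam hτ0 hτ1
  have e1 : deriv (fun s => η * F s) = fun s => η * deriv F s :=
    funext fun s => deriv_const_mul_field η
  have e2 : ∀ s, deriv (deriv fun s => η * F s) s = η * deriv (deriv F) s := fun s => by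
    rw [e1]; exact deriv_const_mul_field η
  have bd : ∀ {t R w z : ℝ}, 0 < t → t ≤ R → R ≤ 1 → 1 - R ^ 2 ≤ w → w ≤ 2 →
      1 + z = t ^ 2 / R ^ 2 + w * t ^ 2 / R ^ 3 →
      t ^ 2 ≤ 1 + z ∧ 1 + z ≤ 3 * t ^ 2 / R ^ 3 ∧ |z| ≤ 3 / t := by
    intro t R w z ht h1 h2 h3 h4 h5
    have hR : 0 < R := ht.trans_le h1
    have hw : 0 ≤ w := by nlinarith
    have a1 : t ^ 2 ≤ 1 + z := by
      have : t ^ 2 ≤ t ^ 2 / R ^ 2 := le_div_self (by positivity) (by positivity) (by nlinarith)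
      have : 0 ≤ w * t ^ 2 / R ^ 3 := by positivity
      linarith
    have a2 : 1 + z ≤ 3 * t ^ 2 / R ^ 3 := by
      have : t ^ 2 / R ^ 2 = R * t ^ 2 / R ^ 3 := by field_simp
      rw [h5, this, ← add_div]
      gcongr
      nlinarith [sq_nonneg t]
    have a3 : 3 * t ^ 2 / R ^ 3 ≤ 3 / t := by
      have : 3 / t = 3 * t ^ 2 / t ^ 3 := by field_simp
      rw [this]; gcongr
    have a4 : 1 ≤ 3 / t := by rw [le_div_iff₀ ht]; linarith
    exact ⟨a1, a2, abs_le.2 ⟨by nlinarith [sq_nonneg t], by linarith⟩⟩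
  have p1 : 0 < 3 / σ := by positivity
  have p2 : 0 < 3 / τ := by positivity
  have p3 := mul_pos hη p2
  refine ⟨σ ^ 2, 2 + 3 / σ + η * 2 + η * (3 / τ), L, fun s => η * F s, hL,
    contDiff_const.mul hF, hLe, fun s => mul_nonpos_of_nonneg_of_nonpos hη.le (HF s).1,
    by positivity, by nlinarith, fun s => ?_, fun s => ?_, fun s => ?_, fun s => ?_, fun s => ?_⟩
  · obtain ⟨-, h1, h2, R, w, r1, r2, -, r4, r5, r6⟩ := HL s
    have := (bd hσ0 r1 r2 r4 r5 r6).2.2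
    exact ⟨by linarith, by linarith, by linarith⟩
  · obtain ⟨-, h1, h2, R, w, r1, r2, -, r4, r5, r6⟩ := HF s
    have h3 := (bd hτ0 r1 r2 r4 r5 r6).2.2
    rw [e2, e1]
    simp only [abs_mul, abs_of_pos hη]
    have := mul_le_mul_of_nonneg_left h1 hη.le
    have := mul_le_mul_of_nonneg_left h2 hη.le
    have := mul_le_mul_of_nonneg_left h3 hη.le
    exact ⟨by linarith, by linarith, by linarith⟩
  · obtain ⟨-, -, -, R, w, r1, r2, -, r4, r5, r6⟩ := HL s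
    exact (bd hσ0 r1 r2 r4 r5 r6).1
  · obtain ⟨-, -, -, R, w, r1, r2, -, r4, r5, r6⟩ := HF s
    have := (bd hτ0 r1 r2 r4 r5 r6).1
    rw [e2]
    nlinarith [sq_nonneg τ]
  · rcases le_total (τ ^ 2) (Real.sin s ^ 2) with h | h
    · left
      obtain ⟨-, -, -, R, w, r1, r2, r3, r4, r5, r6⟩ := HL s
      have hR : 0 < R := hσ0.trans_le r1
      have b1 : τ / 2 ≤ R := by
        refine le_of_sq_le_sq ?_ hR.le
        have : 3 / 4 * τ ^ 2 ≤ (1 - σ ^ 2) * Real.sin s ^ 2 :=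
          mul_le_mul (by nlinarith) h (by positivity) (by nlinarith)
        nlinarith [sq_nonneg σ, sq_nonneg τ]
      refine (bd hσ0 r1 r2 r4 r5 r6).2.1.trans ?_
      rw [div_le_iff₀ (by positivity)]
      have : δ * (τ / 2) ^ 3 ≤ δ * R ^ 3 := by gcongr
      nlinarith
    · right
      obtain ⟨-, -, -, R, w, r1, r2, r3, r4, r5, r6⟩ := HF s
      have hR : 0 < R := hτ0.trans_le r1
      have b0 : R ^ 2 ≤ 2 * τ ^ 2 := by
        nlinarith [mul_nonneg (sq_nonneg τ) (sq_nonneg (Real.sin s))]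
      have b1 : R ≤ 2 * τ := le_of_sq_le_sq (by nlinarith [sq_nonneg τ]) (by positivity)
      have b2 : 1 / 2 ≤ w := by nlinarith
      have b3 : 1 / 2 * τ ^ 2 / (2 * τ) ^ 3 ≤ w * τ ^ 2 / R ^ 3 := by gcongr
      have b4 : 1 / 2 * τ ^ 2 / (2 * τ) ^ 3 = 1 + K / η := by
        rw [div_eq_iff (by positivity)]
        linear_combination (-(τ ^ 2 / 2)) * hτ
      have b5 : 0 ≤ τ ^ 2 / R ^ 2 := by positivity
      have b6 : K / η ≤ deriv (deriv F) s := by linarith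
      rw [e2, mul_comm]
      exact (div_le_iff₀ hη).1 b6

end Pool.Agent.P.MP_4a4b50_gt.Lam

/-! Step DIR. -/

namespace Pool.Agent.P.MP_4a4b50_gt.Lam

open scoped ContDiff Topology
open Pool.Agent.P.MP_f97e06_gt (Eu)
open Matrix Set Filter Pool.Agent.P.MP_4a4b50_gt.CE

theorem dir_det {n : ℕ} {A : Eu n → Mat n} {u : Eu n}
    (hA : ∀ i j, ContDiffAt ℝ ∞ (fun y => A y i j) u) :
    ContDiffAt ℝ ∞ (fun y => (A y).det) u := by
  simp only [Matrix.det_apply']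
  exact ContDiffAt.sum fun σ _ => contDiffAt_const.mul (contDiffAt_prod fun i _ => hA _ _)

theorem dir_adj {n : ℕ} {A : Eu n → Mat n} {u : Eu n}
    (hA : ∀ i j, ContDiffAt ℝ ∞ (fun y => A y i j) u) (i j : Fin n) :
    ContDiffAt ℝ ∞ (fun y => (A y).adjugate i j) u := by
  simp only [Matrix.adjugate_apply]
  refine dir_det fun k l => ?_
  simp only [Matrix.updateRow_apply]
  by_cases h : k = j
  · simp only [h, if_true]; exact contDiffAt_const
  · simp only [h, if_false]; exact hA k l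

theorem dir_hat {n : ℕ} {h : Eu n → ℝ} {u : Eu n} (hh : ContDiffAt ℝ ∞ h u) (k j : Fin n) :
    ContDiffAt ℝ ∞ (fun y => hatM h y k j) u := by
  have h1 : ContDiffAt ℝ ∞ (fderiv ℝ h) u := hh.fderiv_right (by simp)
  have h2 : ContDiffAt ℝ ∞ (fderiv ℝ (fderiv ℝ h)) u := h1.fderiv_right (by simp)
  have h3 : ∀ i : Fin n, ContDiff ℝ ∞ (fun x : Eu n => x.ofLp i) := fun i =>
    (EuclideanSpace.proj (𝕜 := ℝ) i).contDiff
  simp only [hatM, hessM, Matrix.add_apply, Matrix.of_apply, vecMulVec_apply]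
  exact ((h2.clm_apply contDiffAt_const).clm_apply contDiffAt_const).add
    ((h3 k).mul (h3 j)).contDiffAt

theorem p_DIR :
    S_DIR := by
  intro n h f u hX
  have e1 : hatM h u *ᵥ ((hatM h u)⁻¹ *ᵥ gr f u) = gr f u := by
    rw [mulVec_mulVec, cm_mul_inv hX, one_mulVec]
  have p1 : ∀ e, D2 h u (dir h f u) e + inner ℝ u (dir h f u) * inner ℝ u e = fderiv ℝ f u e := by
    intro e
    rw [← hatM_form, cm_symm hX.1, ← gr_dot, dotProduct_comm (gr f u)]
    change e.ofLp ⬝ᵥ hatM h u *ᵥ ((hatM h u)⁻¹ *ᵥ gr f u) = _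
    rw [e1]
  refine ⟨p1, fun x hx => ?_, fun hu h1 h2 h0 hd => ?_, fun hne => ?_, fun hh hf => ?_,
    fun a b c p q e => ?_⟩
  · have e2 : hatM h u *ᵥ x.ofLp = gr f u := by
      funext i
      have := hx (EuclideanSpace.single i 1)
      rw [← hatM_form, cm_symm hX.1] at this
      simpa [gr] using this
    have e3 : x.ofLp = (hatM h u)⁻¹ *ᵥ gr f u := by
      rw [← e2, mulVec_mulVec, cm_inv_mul hX, one_mulVec]
    rw [dir, ← e3]
  · have := p1 u
    rw [(h1.D2_self h2 _).2, euler_zero f (fun t ht y => h0 t ht y) hd,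
      real_inner_self_eq_norm_sq, hu] at this
    simpa using this
  · have hg : gr f u ≠ 0 := by
      intro hg
      apply hne
      ext x
      rw [← gr_dot, hg]
      simp
    rw [← gr_dot]
    exact cm_pos hX.inv hg
  · have h1 : ContDiffAt ℝ ∞ (fderiv ℝ f) u := hf.fderiv_right (by simp)
    refine contDiffAt_euclidean.2 fun i => ?_
    have e : (fun y => dir h f y i) =
        fun y => ∑ j, ((hatM h y).det)⁻¹ * (hatM h y).adjugate i j * gr f y j := by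
      funext y
      change ((hatM h y)⁻¹ *ᵥ gr f y) i = _
      rw [Matrix.inv_def, Ring.inverse_eq_inv']
      simp [mulVec, dotProduct]
    rw [e]
    exact ContDiffAt.sum fun j _ => (((dir_det (dir_hat hh)).inv hX.det_pos.ne').mul
      (dir_adj (dir_hat hh) i j)).mul (h1.clm_apply contDiffAt_const)
  · have e2 : gr f u = gr a u + p • gr b u + q • gr c u := by
      funext i
      simp [gr, e]
    unfold dir
    rw [e2, mulVec_add, mulVec_add, mulVec_smul, mulVec_smul]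
    rfl

end Pool.Agent.P.MP_4a4b50_gt.Lam

/-! Step PAIR. -/

namespace Pool.Agent.P.MP_4a4b50_gt.Lam

open scoped ContDiff Topology
open Pool.Agent.P.MP_f97e06_gt (Eu)
open Matrix Set Filter Pool.Agent.P.MP_4a4b50_gt.CE

theorem pair_fderiv {n : ℕ} {G : Set (Iso n)} {φ h S : Eu n → ℝ} {σ : ℝ} (hP : Pre G φ h)
    (hS : Phase G φ σ S) {g : Iso n} (hg : g ∈ G) {u : Eu n} (hu : u ∈ Om φ) (e : Eu n) :
    fderiv ℝ S (g u) (g e) = σ * fderiv ℝ S u e := by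
  have d1 : DifferentiableAt ℝ S u :=
    (hS.smooth.contDiffAt (hP.isOpen.mem_nhds hu)).differentiableAt (by simp)
  have d2 : DifferentiableAt ℝ S (g u) :=
    (hS.smooth.contDiffAt (hP.isOpen.mem_nhds (hP.iso_mem hg hu))).differentiableAt (by simp)
  have e1 : (fun z => S (g z)) =ᶠ[𝓝 u] fun z => σ * S z := by
    filter_upwards [hP.isOpen.mem_nhds hu] with z hz
    exact hS.sgn g hg z hz
  have e2 : HasFDerivAt (fun z => S (g z))
      ((fderiv ℝ S (g u)).comp ((g : Eu n ≃L[ℝ] Eu n) : Eu n →L[ℝ] Eu n)) u :=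
    d2.hasFDerivAt.comp u (g : Eu n ≃L[ℝ] Eu n).hasFDerivAt
  have e3 : HasFDerivAt (fun z => σ * S z) (σ • fderiv ℝ S u) u := d1.hasFDerivAt.const_mul σ
  have e4 := (e2.congr_of_eventuallyEq e1.symm).unique e3
  have e5 := congrArg (fun L : Eu n →L[ℝ] ℝ => L e) e4
  simpa using e5

theorem pair_dir (hDIR : S_DIR) {n : ℕ} {G : Set (Iso n)} {φ h S : Eu n → ℝ} {σ : ℝ}
    (hP : Pre G φ h) (hS : Phase G φ σ S) {g : Iso n} (hg : g ∈ G) {u : Eu n} (hu : u ∈ Om φ)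
    (h1 : ‖u‖ = 1) : dir h S (g u) = σ • g (dir h S u) := by
  have a1 := (hDIR n h S u (hP.h_pos u h1)).1
  have a2 := (hDIR n h S (g u) (hP.h_pos (g u) (by rw [g.norm_map, h1]))).2.1
  refine (a2 _ fun e => ?_).symm
  obtain ⟨e, rfl⟩ := g.surjective e
  have eh : (fun z => h (g z)) = h := funext (hP.h_inv g hg)
  have b1 := D2_comp_isometry h g u (dir h S u) e
  rw [eh] at b1
  rw [pair_fderiv hP hS hg hu e, ← a1 e, map_smul, _root_.smul_apply, ← b1,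
    inner_smul_right, g.inner_map_map, g.inner_map_map, smul_eq_mul]
  ring

theorem p_PAIR (hDIR : S_DIR) :
    S_PAIR := by
  intro n G φ h a b σ τ hP ha hb _
  refine ⟨fun y hy => ?_, fun t ht y => ?_, fun g hg y hy => ?_⟩
  · have hy0 := hP.ne_zero hy
    have hu := hP.nz_mem hy
    have h1 := norm_nz hy0
    have c1 : ContDiffAt ℝ ∞ a (nz y) := ha.smooth.contDiffAt (hP.isOpen.mem_nhds hu)
    have c2 : ContDiffAt ℝ ∞ b (nz y) := hb.smooth.contDiffAt (hP.isOpen.mem_nhds hu)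
    have c3 : ContDiffAt ℝ ∞ (dir h b) (nz y) :=
      (hDIR n h b (nz y) (hP.h_pos _ h1)).2.2.2.2.1 (hP.h_at (hP.ne_zero hu)) c2
    have c4 : ContDiffAt ℝ ∞ (fderiv ℝ a) (nz y) := c1.fderiv_right (m := ∞) (by simp)
    have c5 := (c4.comp y (contDiffAt_nz hy0)).clm_apply (c3.comp y (contDiffAt_nz hy0))
    exact c5.contDiffWithinAt
  · unfold pair
    rw [nz_smul ht]
  · have hy0 := hP.ne_zero hy
    have hu := hP.nz_mem hy
    have h1 := norm_nz hy0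
    unfold pair
    rw [nz_iso, pair_dir hDIR hP hb hg hu h1, map_smul, pair_fderiv hP ha hg hu, smul_eq_mul]
    ring

end Pool.Agent.P.MP_4a4b50_gt.Lam
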